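import Mathlib

/-!
# A Bruck-Ryser type lemma
-/

namespace Pool.Agent.H17

open Finset Module

/-- The elimination step in the Bruck-Ryser argument. -/
lemma elimination {ι E : Type*} [Fintype ι] [DecidableEq ι] [AddCommGroup E] [Module ℚ E]
    [FiniteDimensional ℚ E] (L y : ι → (E →ₗ[ℚ] ℚ))
    (hy : ∀ u, (∀ i, y i u = 0) → u = 0) (S : Finset ι) :
    ∃ W : Submodule ℚ E, (∀ u ∈ W, ∀ i ∈ S, (L i u) ^ 2 = (y i u) ^ 2) ∧
      finrank ℚ E ≤ finrank ℚ W + S.card ∧
      ∀ u ∈ W, (∀ i, i ∉ S → y i u = 0) → u = 0 := by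
  induction S using Finset.induction_on with
  | empty =>
    refine ⟨⊤, by simp, by simp, ?_⟩
    intro u _ h
    exact hy u fun i => h i (by simp)
  | insert j S hj ih =>
    obtain ⟨W, hW1, hW2, hW3⟩ := ih
    -- choose a sign
    have hsign : ∃ ε : ℚ, ε ^ 2 = 1 ∧
        ∀ u ∈ W, (∀ i, i ∉ insert j S → y i u = 0) → L j u = ε * y j u → y j u = 0 := by
      by_cases hex : ∃ e ∈ W, (∀ i, i ∉ insert j S → y i e = 0) ∧ y j e ≠ 0
      · obtain ⟨e, heW, he0, hej⟩ := hex
        have hprop : ∀ u ∈ W, (∀ i, i ∉ insert j S → y i u = 0) →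
            u = (y j u / y j e) • e := by
          intro u hu hu0
          have h1 : u - (y j u / y j e) • e ∈ W := W.sub_mem hu (W.smul_mem _ heW)
          have h2 := hW3 _ h1 (fun i hi => ?_)
          · exact sub_eq_zero.1 h2
          · by_cases hij : i = j
            · subst hij
              simp only [map_sub, map_smul, smul_eq_mul]
              field_simp
              simp
            · have hi' : i ∉ insert j S := by simp [hij, hi]
              simp [hu0 i hi', he0 i hi']
        by_cases h1 : L j e = y j e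
        · refine ⟨-1, by norm_num, ?_⟩
          intro u hu hu0 hLu
          have h3 := hprop u hu hu0
          have h4 : L j u = (y j u / y j e) * L j e := by
            conv_lhs => rw [h3]
            simp
          rw [h4, h1] at hLu
          field_simp at hLu
          linarith
        · refine ⟨1, by norm_num, ?_⟩
          intro u hu hu0 hLu
          have h3 := hprop u hu hu0
          have h4 : L j u = (y j u / y j e) * L j e := by
            conv_lhs => rw [h3]
            simp
          rw [h4, one_mul] at hLu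
          by_contra hne
          apply h1
          field_simp at hLu
          exact hLu
      · push Not at hex
        refine ⟨1, by norm_num, ?_⟩
        intro u hu hu0 _
        exact hex u hu hu0
    obtain ⟨ε, hε, hε2⟩ := hsign
    set φ : E →ₗ[ℚ] ℚ := L j - ε • y j with hφ
    refine ⟨W ⊓ LinearMap.ker φ, ?_, ?_, ?_⟩
    · intro u hu i hi
      rw [Submodule.mem_inf, LinearMap.mem_ker] at hu
      rcases Finset.mem_insert.1 hi with rfl | hi
      · have h1 : L i u = ε * y i u := by
          have := hu.2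
          simp only [hφ, LinearMap.sub_apply, LinearMap.smul_apply, smul_eq_mul] at this
          linarith
        rw [h1, mul_pow, hε, one_mul]
      · exact hW1 u hu.1 i hi
    · rw [Finset.card_insert_of_notMem hj]
      have h1 : finrank ℚ (LinearMap.range φ) + finrank ℚ (LinearMap.ker φ) = finrank ℚ E :=
        LinearMap.finrank_range_add_finrank_ker φ
      have h2 : finrank ℚ (LinearMap.range φ) ≤ 1 := by
        have := Submodule.finrank_le (LinearMap.range φ)
        simpa using this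
      have h3 := Submodule.finrank_sup_add_finrank_inf_eq W (LinearMap.ker φ)
      have h4 : finrank ℚ ↥(W ⊔ LinearMap.ker φ) ≤ finrank ℚ E := Submodule.finrank_le _
      omega
    · intro u hu h0
      rw [Submodule.mem_inf, LinearMap.mem_ker] at hu
      have h1 : L j u = ε * y j u := by
        have := hu.2
        simp only [hφ, LinearMap.sub_apply, LinearMap.smul_apply, smul_eq_mul] at this
        linarith
      have h2 := hε2 u hu.1 h0 h1
      refine hW3 u hu.1 fun i hi => ?_
      by_cases hij : i = j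
      · subst hij; exact h2
      · exact h0 i (by simp [hij, hi])

/-- A `4 × 4` matrix with orthogonal rows and columns. -/
def quatMat (a b c d : ℚ) : Matrix (Fin 4) (Fin 4) ℚ :=
  !![a, b, c, d; -b, a, -d, c; -c, d, a, -b; -d, -c, b, a]

lemma quatMat_sum (a b c d : ℚ) (x : Fin 4 → ℚ) :
    ∑ r, (∑ s, quatMat a b c d r s * x s) ^ 2 =
      (a ^ 2 + b ^ 2 + c ^ 2 + d ^ 2) * ∑ s, x s ^ 2 := by
  simp only [quatMat, Fin.sum_univ_four, Matrix.of_apply, Matrix.cons_val', Matrix.cons_val_zero,
    Matrix.cons_val_one, Matrix.cons_val, Matrix.cons_val_fin_one]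
  ring

/-- Bruck-Ryser: if `v ≡ 3 (mod 4)` linear forms in `v` variables satisfy
`∑ L_j² = n ∑ x_i² + (∑ x_i)²`, then `n` is a rational combination of two squares. -/
theorem bruck_ryser_form {I J : Type*} [Fintype I] [Fintype J] [DecidableEq I] [DecidableEq J]
    (hcard : Fintype.card I = Fintype.card J) (hmod : Fintype.card I % 4 = 3)
    (n : ℕ) (hn : 0 < n) (L : J → ((I → ℚ) →ₗ[ℚ] ℚ))
    (h : ∀ x : I → ℚ, ∑ j, (L j x) ^ 2 = n * ∑ i, x i ^ 2 + (∑ i, x i) ^ 2) :
    ∃ X Y Z : ℚ, Y ≠ 0 ∧ (n : ℚ) * X ^ 2 = Y ^ 2 + Z ^ 2 := by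
  obtain ⟨a, b, c, d, habcd⟩ := Nat.sum_four_squares n
  have habcd' : (a : ℚ) ^ 2 + (b : ℚ) ^ 2 + (c : ℚ) ^ 2 + (d : ℚ) ^ 2 = n := by
    exact_mod_cast congrArg (fun m : ℕ => (m : ℚ)) habcd
  obtain ⟨k, hk⟩ : ∃ k, Fintype.card I + 1 = k * 4 := ⟨Fintype.card I / 4 + 1, by omega⟩
  have e : Option I ≃ Fin k × Fin 4 := by
    apply Fintype.equivOfCardEq
    rw [Fintype.card_option, Fintype.card_prod, Fintype.card_fin, Fintype.card_fin, hk]
  have eIJ : I ≃ J := Fintype.equivOfCardEq hcard
  -- forms y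
  let y : Option I → ((Option I → ℚ) →ₗ[ℚ] ℚ) := fun o =>
    ∑ s : Fin 4, quatMat a b c d (e o).2 s • LinearMap.proj (e.symm ((e o).1, s))
  have hy_apply : ∀ o u, y o u = ∑ s : Fin 4, quatMat a b c d (e o).2 s *
      u (e.symm ((e o).1, s)) := by
    intro o u
    simp [y, LinearMap.sum_apply]
  have hysum : ∀ u : Option I → ℚ, ∑ o, (y o u) ^ 2 = n * ∑ o, u o ^ 2 := by
    intro u
    have h1 : ∑ o, (y o u) ^ 2 = ∑ p : Fin k × Fin 4,
        (∑ s : Fin 4, quatMat a b c d p.2 s * u (e.symm (p.1, s))) ^ 2 := by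
      rw [← Equiv.sum_comp e]
      exact sum_congr rfl fun o _ => by rw [hy_apply]
    have h2 : ∑ o, u o ^ 2 = ∑ p : Fin k × Fin 4, u (e.symm p) ^ 2 := by
      rw [← Equiv.sum_comp e]
      exact sum_congr rfl fun o _ => by simp
    rw [h1, h2, Fintype.sum_prod_type, Fintype.sum_prod_type, mul_sum]
    refine sum_congr rfl fun q _ => ?_
    simp only
    rw [quatMat_sum a b c d (fun s => u (e.symm (q, s))), habcd']
  -- forms L
  let restr : (Option I → ℚ) →ₗ[ℚ] (I → ℚ) := LinearMap.funLeft ℚ ℚ some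
  let L' : Option I → ((Option I → ℚ) →ₗ[ℚ] ℚ) := fun o =>
    match o with
    | none => 0
    | some i => (L (eIJ i)).comp restr
  have hinj : ∀ u, (∀ i, y i u = 0) → u = 0 := by
    intro u hu
    have h1 := hysum u
    have h2 : ∑ o, (y o u) ^ 2 = 0 := sum_eq_zero fun o _ => by rw [hu o]; simp
    rw [h2] at h1
    have hn' : (n : ℚ) ≠ 0 := by exact_mod_cast hn.ne'
    have h3 : ∑ o, u o ^ 2 = 0 := by
      rcases mul_eq_zero.1 h1.symm with h | h
      · exact absurd h hn'
      · exact h
    funext o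
    have h4 := (sum_eq_zero_iff_of_nonneg (fun o _ => sq_nonneg (u o))).1 h3 o (mem_univ o)
    simpa using h4
  obtain ⟨W, hW1, hW2, hW3⟩ := elimination L' y hinj (univ.erase none)
  have hfr : finrank ℚ (Option I → ℚ) = Fintype.card I + 1 := by
    rw [Module.finrank_fintype_fun_eq_card, Fintype.card_option]
  have hcS : (univ.erase (none : Option I)).card = Fintype.card I := by
    rw [card_erase_of_mem (mem_univ _), card_univ, Fintype.card_option]
    simp
  rw [hfr, hcS] at hW2
  have hWpos : 0 < finrank ℚ W := by omega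
  obtain ⟨u, hu⟩ := (Module.finrank_pos_iff_exists_ne_zero).1 hWpos
  have hu0 : (u : Option I → ℚ) ≠ 0 := by
    intro h0
    exact hu (Subtype.ext h0)
  have hynone : y none u ≠ 0 := by
    intro h0
    apply hu0
    refine hW3 u u.2 fun i hi => ?_
    have : i = none := by simpa using hi
    rw [this]; exact h0
  refine ⟨(u : Option I → ℚ) none, y none u, ∑ i, (u : Option I → ℚ) (some i), hynone, ?_⟩
  have h1 := hysum u
  rw [Fintype.sum_option, Fintype.sum_option] at h1
  have h2 : ∀ i, (L (eIJ i) (restr u)) ^ 2 = (y (some i) u) ^ 2 := by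
    intro i
    have := hW1 u u.2 (some i) (by simp)
    simpa [L'] using this
  have h3 := h (restr u)
  rw [← Equiv.sum_comp eIJ] at h3
  rw [sum_congr rfl fun i _ => h2 i] at h3
  have h4 : ∀ i, restr u i = (u : Option I → ℚ) (some i) := fun i => rfl
  simp only [h4] at h3
  linarith

/-- `n X² = Y² + Z²` has no rational solution with `Y ≠ 0` if some prime `q ≡ 3 (mod 4)` divides
`n` to an odd power. -/
theorem no_rat_sol (n q : ℕ) (hn : 0 < n) (hqp : q.Prime) (hq : q % 4 = 3)
    (hodd : Odd (padicValNat q n)) (X Y Z : ℚ) (hY : Y ≠ 0) :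
    (n : ℚ) * X ^ 2 ≠ Y ^ 2 + Z ^ 2 := by
  intro h
  have : Fact q.Prime := ⟨hqp⟩
  -- clear denominators
  set D : ℕ := X.den * Y.den * Z.den with hD
  have hXd : (X.den : ℚ) ≠ 0 := by exact_mod_cast X.den_nz
  have hYd : (Y.den : ℚ) ≠ 0 := by exact_mod_cast Y.den_nz
  have hZd : (Z.den : ℚ) ≠ 0 := by exact_mod_cast Z.den_nz
  have hX : (X.num : ℚ) = X * X.den := by rw [Rat.mul_den_eq_num]
  have hY' : (Y.num : ℚ) = Y * Y.den := by rw [Rat.mul_den_eq_num]
  have hZ : (Z.num : ℚ) = Z * Z.den := by rw [Rat.mul_den_eq_num]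
  set x : ℤ := X.num * (Y.den * Z.den) with hx
  set y : ℤ := Y.num * (X.den * Z.den) with hy
  set z : ℤ := Z.num * (X.den * Y.den) with hz
  have hint : (n : ℤ) * x ^ 2 = y ^ 2 + z ^ 2 := by
    have : ((n : ℤ) * x ^ 2 : ℚ) = ((y ^ 2 + z ^ 2 : ℤ) : ℚ) := by
      push_cast [hx, hy, hz]
      rw [hX, hY', hZ]
      have e1 : (n : ℚ) * (X * X.den * (Y.den * Z.den)) ^ 2 =
        (n * X ^ 2) * (X.den * Y.den * Z.den) ^ 2 := by ring
      rw [e1, h]
      ring
    exact_mod_cast this
  have hyne : y ≠ 0 := by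
    rw [hy]
    refine mul_ne_zero (Rat.num_ne_zero.2 hY) (mul_ne_zero ?_ ?_)
    · exact_mod_cast X.den_nz
    · exact_mod_cast Z.den_nz
  have hxne : x ≠ 0 := by
    intro h0
    rw [h0] at hint
    have : 0 < y ^ 2 := by positivity
    nlinarith [sq_nonneg z]
  have hnat : n * x.natAbs ^ 2 = y.natAbs ^ 2 + z.natAbs ^ 2 := by
    zify
    simpa [sq_abs] using hint
  have hiff := (Nat.eq_sq_add_sq_iff (n := n * x.natAbs ^ 2)).1 ⟨_, _, hnat⟩
  have hxn : x.natAbs ≠ 0 := by simpa using hxne
  have hqn : q ∣ n := by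
    by_contra hcon
    rw [padicValNat.eq_zero_of_not_dvd hcon] at hodd
    simp at hodd
  have hmem : q ∈ (n * x.natAbs ^ 2).primeFactors := by
    rw [Nat.mem_primeFactors]
    exact ⟨hqp, dvd_mul_of_dvd_left hqn _, by positivity⟩
  have heven := hiff q hmem hq
  rw [padicValNat.mul hn.ne' (by positivity), padicValNat.pow] at heven
  obtain ⟨r, hr⟩ := hodd
  obtain ⟨s, hs⟩ := heven
  omega

end Pool.Agent.H17
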