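import Mathlib

/-!
# The spectral gap from 1 of the normalized Laplacian

Basic definitions for the problem MP_2920eb_co and the variational
characterisation of the gap.
-/

namespace Pool.Agent.H17

open Finset

open Classical in
/-- The normalized Laplacian `L = I - D⁻¹ A` of a finite simple graph, acting on real functions:
`(L f)(v) = f v - (1 / deg v) * ∑ w ~ v, f w`. -/
noncomputable def normLap {V : Type} [Fintype V] (G : SimpleGraph V) :
    Module.End ℝ (V → ℝ) where
  toFun f v := f v - (1 / (G.degree v : ℝ)) * ∑ w ∈ G.neighborFinset v, f w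
  map_add' f g := by
    funext v
    simp only [Pi.add_apply, sum_add_distrib]
    ring
  map_smul' c f := by
    funext v
    simp only [Pi.smul_apply, smul_eq_mul, ← mul_sum, RingHom.id_apply]
    ring

/-- The spectral gap from `1`: the minimum of `|x - 1|` over the spectrum of the normalized
Laplacian. -/
noncomputable def gap {V : Type} [Fintype V] (G : SimpleGraph V) : ℝ :=
  sInf ((fun x : ℝ => |x - 1|) '' spectrum ℝ (normLap G))

section Variational

open Classical

variable {V : Type} [Fintype V] (G : SimpleGraph V)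

lemma normLap_apply (f : V → ℝ) (v : V) :
    normLap G f v = f v - (1 / (G.degree v : ℝ)) * ∑ w ∈ G.neighborFinset v, f w := rfl

lemma bddBelow_gap : BddBelow ((fun x : ℝ => |x - 1|) '' spectrum ℝ (normLap G)) :=
  ⟨0, by rintro _ ⟨x, _, rfl⟩; exact abs_nonneg _⟩

lemma gap_le_of_eigen {f : V → ℝ} (hf : f ≠ 0) {x : ℝ} (h : normLap G f = x • f) :
    gap G ≤ |x - 1| := by
  refine csInf_le (bddBelow_gap G) ⟨x, ?_, rfl⟩
  rw [← Module.End.hasEigenvalue_iff_mem_spectrum]
  exact Module.End.hasEigenvalue_of_hasEigenvector ⟨Module.End.mem_eigenspace_iff.2 h, hf⟩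

lemma zero_mem_spectrum [Nonempty V] (hpos : ∀ v, 0 < G.degree v) :
    (0 : ℝ) ∈ spectrum ℝ (normLap G) := by
  rw [← Module.End.hasEigenvalue_iff_mem_spectrum]
  refine Module.End.hasEigenvalue_of_hasEigenvector (x := fun _ => (1 : ℝ))
    ⟨Module.End.mem_eigenspace_iff.2 ?_, ?_⟩
  · funext v
    rw [normLap_apply]
    have : (0 : ℝ) < G.degree v := by exact_mod_cast hpos v
    simp
    field_simp
    simp
  · intro h
    obtain ⟨v⟩ := ‹Nonempty V›
    have := congrFun h v
    simp at this

/-- Lower bound for the gap from a quadratic form inequality. -/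
lemma le_gap [Nonempty V] (hpos : ∀ v, 0 < G.degree v) {γ : ℝ} (hγ : 0 ≤ γ)
    (h : ∀ f : V → ℝ, γ ^ 2 * ∑ v, (G.degree v : ℝ) * f v ^ 2 ≤
      ∑ v, (1 / (G.degree v : ℝ)) * (∑ w ∈ G.neighborFinset v, f w) ^ 2) : γ ≤ gap G := by
  refine le_csInf ⟨_, ⟨0, zero_mem_spectrum G hpos, rfl⟩⟩ ?_
  rintro _ ⟨x, hx, rfl⟩
  rw [← Module.End.hasEigenvalue_iff_mem_spectrum] at hx
  obtain ⟨f, hf⟩ := hx.exists_hasEigenvector
  have hfne := hf.2
  have hfe := Module.End.mem_eigenspace_iff.1 hf.1
  have hsum : ∀ v, (∑ w ∈ G.neighborFinset v, f w) = (G.degree v : ℝ) * ((1 - x) * f v) := by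
    intro v
    have h1 := congrFun hfe v
    rw [normLap_apply] at h1
    have h2 : (0 : ℝ) < G.degree v := by exact_mod_cast hpos v
    simp only [Pi.smul_apply, smul_eq_mul] at h1
    field_simp at h1
    linarith
  have hfpos : 0 < ∑ v, (G.degree v : ℝ) * f v ^ 2 := by
    obtain ⟨v, hv⟩ := Function.ne_iff.1 hfne
    refine sum_pos' (fun i _ => by positivity) ⟨v, mem_univ v, ?_⟩
    have h2 : (0 : ℝ) < G.degree v := by exact_mod_cast hpos v
    have : f v ≠ 0 := by simpa using hv
    positivity
  have key := h f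
  have h3 : ∑ v, (1 / (G.degree v : ℝ)) * (∑ w ∈ G.neighborFinset v, f w) ^ 2 =
      (1 - x) ^ 2 * ∑ v, (G.degree v : ℝ) * f v ^ 2 := by
    rw [mul_sum]
    refine sum_congr rfl fun v _ => ?_
    rw [hsum v]
    have h2 : (0 : ℝ) < G.degree v := by exact_mod_cast hpos v
    field_simp
  rw [h3] at key
  have h4 : γ ^ 2 ≤ (1 - x) ^ 2 := le_of_mul_le_mul_right key hfpos
  have h5 := sq_le_sq.1 h4
  rw [abs_of_nonneg hγ] at h5
  show γ ≤ |x - 1|
  rw [abs_sub_comm]
  exact h5

/-- The symmetric normalized adjacency matrix `D^{-1/2} A D^{-1/2}`. -/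
noncomputable def symAdj : Matrix V V ℝ :=
  Matrix.of fun v w => if G.Adj v w then 1 / (√(G.degree v) * √(G.degree w)) else 0

lemma symAdj_isHermitian : (symAdj G).IsHermitian := by
  ext v w
  simp only [symAdj, Matrix.conjTranspose_apply, Matrix.of_apply, star_trivial]
  rw [G.adj_comm, mul_comm]

/-- If `γ` is smaller than the gap, then the quadratic form inequality is strict. -/
lemma quad_of_lt_gap (hpos : ∀ v, 0 < G.degree v) {γ : ℝ} (hγ : 0 ≤ γ) (hlt : γ < gap G)
    (f : V → ℝ) (hf : f ≠ 0) :
    γ ^ 2 * ∑ v, (G.degree v : ℝ) * f v ^ 2 <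
      ∑ v, (1 / (G.degree v : ℝ)) * (∑ w ∈ G.neighborFinset v, f w) ^ 2 := by
  have hA := symAdj_isHermitian G
  set b := hA.eigenvectorBasis with hb
  -- eigenvalues are larger than γ in absolute value
  have hdp : ∀ v, (0 : ℝ) < G.degree v := fun v => by exact_mod_cast hpos v
  have hsp : ∀ v, 0 < √(G.degree v : ℝ) := fun v => Real.sqrt_pos.2 (hdp v)
  have hev : ∀ i, γ < |hA.eigenvalues i| := by
    intro i
    have hmul := hA.mulVec_eigenvectorBasis i
    set u : V → ℝ := ⇑(hA.eigenvectorBasis i) with hu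
    have hune : u ≠ 0 := by
      intro h0
      have h1 := (hA.eigenvectorBasis).orthonormal.ne_zero i
      apply h1
      ext v
      exact congrFun h0 v
    have h2 : normLap G (fun v => u v / √(G.degree v : ℝ)) =
        (1 - hA.eigenvalues i) • (fun v => u v / √(G.degree v : ℝ)) := by
      funext v
      rw [normLap_apply]
      have h3 := congrFun hmul v
      simp only [Pi.smul_apply, smul_eq_mul] at h3 ⊢
      have h4 : (symAdj G).mulVec u v =
          (1 / √(G.degree v : ℝ)) * ∑ w ∈ G.neighborFinset v, u w / √(G.degree w : ℝ) := by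
        rw [Matrix.mulVec, dotProduct, mul_sum, ← sum_filter_add_sum_filter_not univ
          (fun w => G.Adj v w)]
        have h5 : ∑ x with ¬G.Adj v x, symAdj G v x * u x = 0 := by
          refine sum_eq_zero fun w hw => ?_
          simp only [mem_filter, mem_univ, true_and] at hw
          simp [symAdj, hw]
        rw [h5, add_zero, SimpleGraph.neighborFinset_eq_filter]
        refine sum_congr rfl fun w hw => ?_
        simp only [mem_filter, mem_univ, true_and] at hw
        simp only [symAdj, Matrix.of_apply, if_pos hw]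
        have := hsp v
        have := hsp w
        field_simp
      have h3' : (symAdj G).mulVec u v = hA.eigenvalues i * u v := by
        simpa [hu] using h3
      rw [h4] at h3'
      have h6 : (G.degree v : ℝ) = √(G.degree v : ℝ) * √(G.degree v : ℝ) :=
        (Real.mul_self_sqrt (hdp v).le).symm
      have h7 : ∑ w ∈ G.neighborFinset v, u w / √(G.degree w : ℝ) =
          √(G.degree v : ℝ) * (hA.eigenvalues i * u v) := by
        rw [← h3']
        have := hsp v
        field_simp
      rw [h7]
      have h8 := hsp v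
      have h9 : 1 / (G.degree v : ℝ) * (√(G.degree v : ℝ) * (hA.eigenvalues i * u v)) =
          hA.eigenvalues i * (u v / √(G.degree v : ℝ)) := by
        rw [h6]
        rw [Real.sqrt_mul_self (hsp v).le]
        field_simp
      rw [h9]
      ring
    have h10 : (fun v => u v / √(G.degree v : ℝ)) ≠ 0 := by
      intro h0
      apply hune
      funext v
      have := congrFun h0 v
      have h8 := hsp v
      simp only [Pi.zero_apply, div_eq_zero_iff] at this
      rcases this with h | h
      · exact h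
      · exact absurd h h8.ne'
    have h11 := gap_le_of_eigen G h10 h2
    have h12 : |1 - hA.eigenvalues i - 1| = |hA.eigenvalues i| := by
      rw [show 1 - hA.eigenvalues i - 1 = -hA.eigenvalues i by ring, abs_neg]
    rw [h12] at h11
    linarith
  -- transform
  set g : EuclideanSpace ℝ V := WithLp.toLp 2 (fun v => √(G.degree v : ℝ) * f v) with hg
  have hgne : g ≠ 0 := by
    intro h0
    apply hf
    funext v
    have h1 : g v = 0 := by rw [h0]; rfl
    simp only [hg, PiLp.toLp_apply] at h1
    have h8 := hsp v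
    rcases mul_eq_zero.1 h1 with h | h
    · exact absurd h h8.ne'
    · exact h
  set Sg : EuclideanSpace ℝ V := WithLp.toLp 2 ((symAdj G).mulVec g) with hSg
  have hnormg : ‖g‖ ^ 2 = ∑ v, (G.degree v : ℝ) * f v ^ 2 := by
    rw [EuclideanSpace.norm_sq_eq]
    refine sum_congr rfl fun v _ => ?_
    simp only [hg, PiLp.toLp_apply, Real.norm_eq_abs, sq_abs, mul_pow]
    rw [Real.sq_sqrt (hdp v).le]
  have hSgv : ∀ v, Sg v = (1 / √(G.degree v : ℝ)) * ∑ w ∈ G.neighborFinset v, f w := by
    intro v
    simp only [hSg, PiLp.toLp_apply]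
    rw [Matrix.mulVec, dotProduct, mul_sum, ← sum_filter_add_sum_filter_not univ
          (fun w => G.Adj v w)]
    have h5 : ∑ x with ¬G.Adj v x, symAdj G v x * g x = 0 := by
      refine sum_eq_zero fun w hw => ?_
      simp only [mem_filter, mem_univ, true_and] at hw
      simp [symAdj, hw]
    rw [h5, add_zero, SimpleGraph.neighborFinset_eq_filter]
    refine sum_congr rfl fun w hw => ?_
    simp only [mem_filter, mem_univ, true_and] at hw
    simp only [symAdj, Matrix.of_apply, if_pos hw, hg, PiLp.toLp_apply]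
    have := hsp v
    have := hsp w
    field_simp
  have hnormSg : ‖Sg‖ ^ 2 = ∑ v, (1 / (G.degree v : ℝ)) *
      (∑ w ∈ G.neighborFinset v, f w) ^ 2 := by
    rw [EuclideanSpace.norm_sq_eq]
    refine sum_congr rfl fun v _ => ?_
    rw [hSgv v, Real.norm_eq_abs, sq_abs, mul_pow, div_pow, Real.sq_sqrt (hdp v).le, one_pow]
  rw [← hnormg, ← hnormSg]
  have hinner : ∀ i, inner ℝ (b i) Sg = hA.eigenvalues i * inner ℝ (b i) g := by
    intro i
    have hmul := hA.mulVec_eigenvectorBasis i
    have e1 : inner ℝ (b i) Sg = (symAdj G).mulVec g ⬝ᵥ (b i).ofLp := by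
      rw [EuclideanSpace.inner_eq_star_dotProduct]
      simp [hSg]
    have e2 : inner ℝ (b i) g = g.ofLp ⬝ᵥ (b i).ofLp := by
      rw [EuclideanSpace.inner_eq_star_dotProduct]
      simp
    rw [e1, e2]
    have hT : (symAdj G).transpose = symAdj G := by
      have := symAdj_isHermitian G
      rw [Matrix.IsHermitian, Matrix.conjTranspose_eq_transpose_of_trivial] at this
      exact this
    have e3 : (symAdj G).mulVec g ⬝ᵥ (b i).ofLp = g.ofLp ⬝ᵥ (symAdj G).mulVec (b i).ofLp := by
      rw [dotProduct_comm, Matrix.dotProduct_mulVec, ← Matrix.mulVec_transpose, hT,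
        dotProduct_comm]
    rw [e3, hb, hmul]
    simp
  have hN1 : ‖Sg‖ ^ 2 = ∑ i, (hA.eigenvalues i) ^ 2 * (inner ℝ (b i) g) ^ 2 := by
    rw [← b.sum_sq_norm_inner_right Sg]
    refine sum_congr rfl fun i _ => ?_
    rw [hinner i, Real.norm_eq_abs, sq_abs, mul_pow]
  have hN2 : ‖g‖ ^ 2 = ∑ i, (inner ℝ (b i) g) ^ 2 := by
    rw [← b.sum_sq_norm_inner_right g]
    refine sum_congr rfl fun i _ => ?_
    rw [Real.norm_eq_abs, sq_abs]
  rw [hN1, hN2, mul_sum]
  have hex : ∃ i, inner ℝ (b i) g ≠ 0 := by
    by_contra hcon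
    push Not at hcon
    have : ‖g‖ ^ 2 = 0 := by
      rw [hN2]
      exact sum_eq_zero fun i _ => by rw [hcon i]; simp
    apply hgne
    have h0 : ‖g‖ = 0 := by
      nlinarith [norm_nonneg g]
    exact norm_eq_zero.1 h0
  obtain ⟨i, hi⟩ := hex
  have hle : ∀ j, γ ^ 2 < hA.eigenvalues j ^ 2 := fun j => by
    have := hev j
    rw [← sq_abs (hA.eigenvalues j)]
    nlinarith
  refine sum_lt_sum (fun j _ => ?_) ⟨i, mem_univ i, ?_⟩
  · exact mul_le_mul_of_nonneg_right (hle j).le (sq_nonneg _)
  · exact mul_lt_mul_of_pos_right (hle i) (by positivity)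

end Variational

end Pool.Agent.H17
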