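import Mathlib
import Pool.Agent.H17.GapBasic

/-!
# Families of graphs, designs and the suprema of the gap
-/

namespace Pool.Agent.H17

open Finset

open Classical in
/-- The family `G_{=d}`: connected `d`-regular graphs with at least three vertices. -/
def InRegular (d : ℕ) {V : Type} [Fintype V] (G : SimpleGraph V) : Prop :=
  3 ≤ Fintype.card V ∧ G.Connected ∧ ∀ v, G.degree v = d

open Classical in
/-- The family `G_{≥d}`: connected graphs of minimum degree at least `d` with at least three
vertices. -/
def InMinDegree (d : ℕ) {V : Type} [Fintype V] (G : SimpleGraph V) : Prop :=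
  3 ≤ Fintype.card V ∧ G.Connected ∧ ∀ v, d ≤ G.degree v

/-- `gap(G_{=d})`: the supremum of the gap over all `d`-regular connected graphs. -/
noncomputable def gapRegular (d : ℕ) : ℝ :=
  sSup {g : ℝ | ∃ (V : Type) (_ : Fintype V) (G : SimpleGraph V), InRegular d G ∧ g = gap G}

/-- `gap(G_{≥d})`: the supremum of the gap over all connected graphs of minimum degree `≥ d`. -/
noncomputable def gapMinDegree (d : ℕ) : ℝ :=
  sSup {g : ℝ | ∃ (V : Type) (_ : Fintype V) (G : SimpleGraph V), InMinDegree d G ∧ g = gap G}

/-- The incidence graph of an incidence relation between points and blocks. -/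
def incidenceGraph {P B : Type} (I : P → B → Prop) : SimpleGraph (P ⊕ B) where
  Adj x y :=
    match x, y with
    | Sum.inl p, Sum.inr b => I p b
    | Sum.inr b, Sum.inl p => I p b
    | _, _ => False
  symm := ⟨fun x y h => by
    match x, y with
    | Sum.inl p, Sum.inr b => exact h
    | Sum.inr b, Sum.inl p => exact h
    | Sum.inl p, Sum.inl q => exact h
    | Sum.inr b, Sum.inr c => exact h⟩
  loopless := ⟨fun x h => by
    match x with
    | Sum.inl p => exact h
    | Sum.inr b => exact h⟩

open Classical in
/-- A `(v, k, lam)` design: `v` points, blocks of size `k` (repeated blocks are allowed), every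
pair of distinct points lies in exactly `lam` blocks. -/
def IsDesign {P B : Type} [Fintype P] [Fintype B] (v k lam : ℕ) (I : P → B → Prop) : Prop :=
  Fintype.card P = v ∧
  (∀ b, (univ.filter fun p => I p b).card = k) ∧
  ∀ p q, p ≠ q → (univ.filter fun b => I p b ∧ I q b).card = lam

/-- `G` is the incidence graph of a design with blocks of size `k`. -/
def IsDesignIncidenceGraph (k : ℕ) {V : Type} (G : SimpleGraph V) : Prop :=
  ∃ (P B : Type) (_ : Fintype P) (_ : Fintype B) (I : P → B → Prop) (v lam : ℕ),
    IsDesign v k lam I ∧ Nonempty (G ≃g incidenceGraph I)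

/-- There is a finite projective plane of order `n`. -/
def PlaneExists (n : ℕ) : Prop :=
  ∃ (P L : Type) (_ : Membership P L) (_ : Finite P) (_ : Finite L)
    (_ : Configuration.ProjectivePlane P L), Configuration.ProjectivePlane.order P L = n

section Lemmas

open Classical

variable {V : Type} [Fintype V] (G : SimpleGraph V)

lemma gap_le_one [Nonempty V] (hpos : ∀ v, 0 < G.degree v) : gap G ≤ 1 := by
  have h : gap G ≤ |(0 : ℝ) - 1| :=
    csInf_le (bddBelow_gap G) ⟨0, zero_mem_spectrum G hpos, rfl⟩
  norm_num at h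
  exact h

lemma spectrum_subset_of_iso {W : Type} [Fintype W] (H : SimpleGraph W) (e : G ≃g H) :
    spectrum ℝ (normLap G) ⊆ spectrum ℝ (normLap H) := by
  intro x hx
  rw [← Module.End.hasEigenvalue_iff_mem_spectrum] at hx ⊢
  obtain ⟨f, hf⟩ := hx.exists_hasEigenvector
  have hfe := Module.End.mem_eigenspace_iff.1 hf.1
  refine Module.End.hasEigenvalue_of_hasEigenvector (x := fun w => f (e.symm w))
    ⟨Module.End.mem_eigenspace_iff.2 ?_, ?_⟩
  · funext w
    have h1 := congrFun hfe (e.symm w)
    rw [normLap_apply] at h1 ⊢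
    have hdeg : G.degree (e.symm w) = H.degree w := by
      have := e.degree_eq (e.symm w)
      rw [← this]
      simp
    have hsum : ∑ u ∈ G.neighborFinset (e.symm w), f u =
        ∑ u ∈ H.neighborFinset w, f (e.symm u) := by
      symm
      refine sum_bij (fun u _ => e.symm u) ?_ ?_ ?_ ?_
      · intro u hu
        rw [SimpleGraph.mem_neighborFinset] at hu ⊢
        exact e.symm.map_adj_iff.2 hu
      · intro u _ u' _ h
        exact e.symm.injective h
      · intro u hu
        refine ⟨e u, ?_, by simp⟩
        rw [SimpleGraph.mem_neighborFinset] at hu ⊢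
        have := e.map_adj_iff.2 hu
        simpa using this
      · intro u _; rfl
    rw [hdeg, hsum] at h1
    simpa using h1
  · intro h0
    apply hf.2
    funext v
    have := congrFun h0 (e v)
    simpa using this

lemma gap_iso {W : Type} [Fintype W] (H : SimpleGraph W) (e : G ≃g H) : gap G = gap H := by
  have h : spectrum ℝ (normLap G) = spectrum ℝ (normLap H) :=
    Set.Subset.antisymm (spectrum_subset_of_iso G H e) (spectrum_subset_of_iso H G e.symm)
  rw [gap, gap, h]

lemma degree_iso {W : Type} [Fintype W] (H : SimpleGraph W) (e : G ≃g H) (w : W) :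
    H.degree w = G.degree (e.symm w) := by
  have := e.degree_eq (e.symm w)
  rw [← this]
  simp

lemma InRegular.iso {d : ℕ} {G : SimpleGraph V} {W : Type} [Fintype W] {H : SimpleGraph W}
    (e : G ≃g H) (h : InRegular d G) : InRegular d H :=
  ⟨by rw [← Fintype.card_congr e.toEquiv]; exact h.1, e.connected_iff.1 h.2.1, fun w => by
    rw [degree_iso G H e w]; exact h.2.2 _⟩

lemma InMinDegree.iso {d : ℕ} {G : SimpleGraph V} {W : Type} [Fintype W] {H : SimpleGraph W}
    (e : G ≃g H) (h : InMinDegree d G) : InMinDegree d H :=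
  ⟨by rw [← Fintype.card_congr e.toEquiv]; exact h.1, e.connected_iff.1 h.2.1, fun w => by
    rw [degree_iso G H e w]; exact h.2.2 _⟩

lemma InMinDegree.pos {d : ℕ} (hd : 0 < d) (h : InMinDegree d G) (v : V) : 0 < G.degree v :=
  lt_of_lt_of_le hd (h.2.2 v)

lemma bddAbove_minDegree {d : ℕ} (hd : 0 < d) :
    BddAbove {g : ℝ | ∃ (V : Type) (_ : Fintype V) (G : SimpleGraph V),
      InMinDegree d G ∧ g = gap G} := by
  refine ⟨1, ?_⟩
  rintro g ⟨V, _, G, hG, rfl⟩
  have : Nonempty V := hG.2.1.nonempty
  exact gap_le_one G fun v => InMinDegree.pos G hd hG v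

lemma le_gapMinDegree {d : ℕ} (hd : 0 < d) (h : InMinDegree d G) : gap G ≤ gapMinDegree d :=
  le_csSup (bddAbove_minDegree hd) ⟨V, _, G, h, rfl⟩

lemma InRegular.inMinDegree {d : ℕ} (h : InRegular d G) : InMinDegree d G :=
  ⟨h.1, h.2.1, fun v => (h.2.2 v).ge⟩

end Lemmas

end Pool.Agent.H17
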