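import Mathlib
import Pool.Agent.H17.Families

/-!
# Gap of incidence graphs
-/

namespace Pool.Agent.H17

open Finset Classical

set_option linter.unusedSectionVars false

section

variable {P B : Type} [Fintype P] [Fintype B] (I : P → B → Prop)

lemma inc_adj_lr (p : P) (b : B) : (incidenceGraph I).Adj (Sum.inl p) (Sum.inr b) ↔ I p b :=
  Iff.rfl

lemma inc_adj_rl (p : P) (b : B) : (incidenceGraph I).Adj (Sum.inr b) (Sum.inl p) ↔ I p b :=
  Iff.rfl

lemma inc_adj_ll (p q : P) : ¬ (incidenceGraph I).Adj (Sum.inl p) (Sum.inl q) := fun h => h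

lemma inc_adj_rr (b c : B) : ¬ (incidenceGraph I).Adj (Sum.inr b) (Sum.inr c) := fun h => h

lemma inc_sum_inl (p : P) {R : Type*} [AddCommMonoid R] (f : P ⊕ B → R) :
    ∑ w ∈ (incidenceGraph I).neighborFinset (Sum.inl p), f w =
      ∑ b, if I p b then f (Sum.inr b) else 0 := by
  rw [SimpleGraph.neighborFinset_eq_filter, sum_filter, Fintype.sum_sum_type]
  simp only [inc_adj_ll, inc_adj_lr, if_false, sum_const_zero, zero_add]

lemma inc_sum_inr (b : B) {R : Type*} [AddCommMonoid R] (f : P ⊕ B → R) :
    ∑ w ∈ (incidenceGraph I).neighborFinset (Sum.inr b), f w =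
      ∑ p, if I p b then f (Sum.inl p) else 0 := by
  rw [SimpleGraph.neighborFinset_eq_filter, sum_filter, Fintype.sum_sum_type]
  simp only [inc_adj_rr, inc_adj_rl, if_false, sum_const_zero, add_zero]

lemma inc_degree_inl (p : P) :
    (incidenceGraph I).degree (Sum.inl p) = (univ.filter fun b => I p b).card := by
  rw [← SimpleGraph.card_neighborFinset_eq_degree, card_eq_sum_ones, inc_sum_inl, card_filter]

lemma inc_degree_inr (b : B) :
    (incidenceGraph I).degree (Sum.inr b) = (univ.filter fun p => I p b).card := by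
  rw [← SimpleGraph.card_neighborFinset_eq_degree, card_eq_sum_ones, inc_sum_inr, card_filter]

/-- expansion of the quadratic form of an incidence relation -/
lemma inc_quad {R : Type*} [CommRing R] (f : P → R) :
    ∑ b, (∑ p, if I p b then f p else 0) ^ 2 =
      ∑ p, ∑ q, f p * f q * ((univ.filter fun b => I p b ∧ I q b).card : R) := by
  have h1 : ∀ b, (∑ p, if I p b then f p else 0) ^ 2 =
      ∑ p, ∑ q, if I p b ∧ I q b then f p * f q else 0 := by
    intro b
    rw [sq, sum_mul_sum]
    refine sum_congr rfl fun p _ => sum_congr rfl fun q _ => ?_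
    by_cases hp : I p b <;> by_cases hq : I q b <;> simp [hp, hq]
  simp only [h1]
  rw [sum_comm]
  refine sum_congr rfl fun p _ => ?_
  rw [sum_comm]
  refine sum_congr rfl fun q _ => ?_
  rw [← sum_filter, sum_const, nsmul_eq_mul, mul_comm]

/-- Lower bound for the gap of a regular incidence graph. -/
lemma le_gap_incidence [Nonempty P] (k : ℕ) (hk : 0 < k)
    (hdP : ∀ p, (univ.filter fun b => I p b).card = k)
    (hdB : ∀ b, (univ.filter fun p => I p b).card = k) (c : ℝ) (hc : 0 ≤ c)
    (hP : ∀ f : P → ℝ, c * ∑ p, f p ^ 2 ≤ ∑ b, (∑ p, if I p b then f p else 0) ^ 2)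
    (hB : ∀ f : B → ℝ, c * ∑ b, f b ^ 2 ≤ ∑ p, (∑ b, if I p b then f b else 0) ^ 2) :
    √c / k ≤ gap (incidenceGraph I) := by
  have hdeg : ∀ v, (incidenceGraph I).degree v = k := by
    rintro (p | b)
    · rw [inc_degree_inl, hdP]
    · rw [inc_degree_inr, hdB]
  have hk' : (0 : ℝ) < k := by exact_mod_cast hk
  refine le_gap _ (fun v => by rw [hdeg]; exact hk) (by positivity) ?_
  intro f
  simp only [hdeg]
  rw [div_pow, Real.sq_sqrt hc, Fintype.sum_sum_type, Fintype.sum_sum_type]
  simp only [inc_sum_inl, inc_sum_inr]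
  simp only [← mul_sum]
  have h1 := hP (fun p => f (Sum.inl p))
  have h2 := hB (fun b => f (Sum.inr b))
  have h3 : c / (k : ℝ) ^ 2 * (k * ∑ p, f (Sum.inl p) ^ 2 + k * ∑ b, f (Sum.inr b) ^ 2) =
      1 / k * (c * ∑ p, f (Sum.inl p) ^ 2 + c * ∑ b, f (Sum.inr b) ^ 2) := by
    field_simp
  rw [h3]
  have h4 : (0 : ℝ) ≤ 1 / k := by positivity
  have h5 := mul_le_mul_of_nonneg_left (add_le_add h1 h2) h4
  linarith

end

section Plane

/-- double counting in a projective plane -/
lemma quad_const {R : Type*} [CommRing R] (X : Type) [Fintype X] (n : ℕ) (m : X → X → ℕ)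
    (f : X → R) (hm1 : ∀ x, m x x = n + 1) (hm2 : ∀ x y, x ≠ y → m x y = 1) :
    ∑ x, ∑ y, f x * f y * (m x y : R) = n * ∑ x, f x ^ 2 + (∑ x, f x) ^ 2 := by
  have h5 : ∀ u w : X, f u * f w * (m u w : R) =
      f u * f w + (if u = w then n * f u ^ 2 else 0) := by
    intro u w
    by_cases huw : u = w
    · subst huw
      rw [hm1]
      push_cast
      simp; ring
    · rw [if_neg huw, hm2 u w huw]; simp
  simp only [h5, sum_add_distrib]
  rw [sq, ← sum_mul_sum]
  simp only [sum_ite_eq, mem_univ, if_true]
  rw [← mul_sum]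
  ring

/-- The incidence graph of a projective plane of order `n` is connected, `(n+1)`-regular and its
gap is at least `√n / (n+1)`. -/
theorem plane_gap {P L : Type} [Membership P L] [Fintype P] [Fintype L]
    [Configuration.ProjectivePlane P L] (n : ℕ)
    (hn : Configuration.ProjectivePlane.order P L = n) :
    √n / (n + 1) ≤ gap (incidenceGraph fun (p : P) (l : L) => p ∈ l) ∧
      InRegular (n + 1) (incidenceGraph fun (p : P) (l : L) => p ∈ l) := by
  have h1 : 1 < n := by
    rw [← hn]; exact Configuration.ProjectivePlane.one_lt_order P L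
  have hdP : ∀ p : P, (univ.filter fun l : L => p ∈ l).card = n + 1 := by
    intro p
    have := Configuration.ProjectivePlane.lineCount_eq (L := L) p
    rw [hn, Configuration.lineCount, Nat.card_eq_fintype_card, Fintype.card_subtype] at this
    exact this
  have hdB : ∀ l : L, (univ.filter fun p : P => p ∈ l).card = n + 1 := by
    intro l
    have := Configuration.ProjectivePlane.pointCount_eq (P := P) l
    rw [hn, Configuration.pointCount, Nat.card_eq_fintype_card, Fintype.card_subtype] at this
    exact this
  have hcardP := Configuration.ProjectivePlane.card_points P L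
  have hne : Nonempty P := by
    rw [← Fintype.card_pos_iff, hcardP]; positivity
  have hpp : ∀ p q : P, p ≠ q → (univ.filter fun l : L => p ∈ l ∧ q ∈ l).card = 1 := by
    intro p q hpq
    rw [card_eq_one]
    refine ⟨Configuration.HasLines.mkLine hpq, ?_⟩
    have hax := Configuration.HasLines.mkLine_ax (L := L) hpq
    ext l
    simp only [mem_filter, mem_univ, true_and, mem_singleton]
    constructor
    · intro h
      exact (Configuration.Nondegenerate.eq_or_eq h.1 h.2 hax.1 hax.2).resolve_left hpq
    · rintro rfl; exact hax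
  have hll : ∀ l m : L, l ≠ m → (univ.filter fun p : P => p ∈ l ∧ p ∈ m).card = 1 := by
    intro l m hlm
    rw [card_eq_one]
    refine ⟨Configuration.HasPoints.mkPoint hlm, ?_⟩
    have hax := Configuration.HasPoints.mkPoint_ax (P := P) hlm
    ext p
    simp only [mem_filter, mem_univ, true_and, mem_singleton]
    constructor
    · intro h
      exact (Configuration.Nondegenerate.eq_or_eq h.1 hax.1 h.2 hax.2).resolve_right hlm
    · rintro rfl; exact hax
  refine ⟨?_, ?_⟩
  · have := le_gap_incidence (fun (p : P) (l : L) => p ∈ l) (n + 1) (by omega) hdP hdB (n : ℝ)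
      (by positivity) ?_ ?_
    · push_cast at this; exact this
    · intro f
      rw [inc_quad, quad_const P n (fun p q => (univ.filter fun l : L => p ∈ l ∧ q ∈ l).card) f
        (fun p => by simp only [and_self]; exact hdP p) hpp]
      nlinarith [sq_nonneg (∑ x, f x)]
    · intro f
      have := inc_quad (fun (l : L) (p : P) => p ∈ l) f
      rw [this, quad_const L n (fun l m => (univ.filter fun p : P => p ∈ l ∧ p ∈ m).card) f
        (fun l => by simp only [and_self]; exact hdB l) hll]
      nlinarith [sq_nonneg (∑ x, f x)]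
  · refine ⟨?_, ?_, ?_⟩
    · rw [Fintype.card_sum, hcardP, hn]
      nlinarith
    · -- connectedness
      have hconn : ∀ p q : P, (incidenceGraph fun (p : P) (l : L) => p ∈ l).Reachable
          (Sum.inl p) (Sum.inl q) := by
        intro p q
        by_cases hpq : p = q
        · subst hpq; exact SimpleGraph.Reachable.refl _
        · have hax := Configuration.HasLines.mkLine_ax (L := L) hpq
          have a1 : (incidenceGraph fun (p : P) (l : L) => p ∈ l).Adj (Sum.inl p)
            (Sum.inr (Configuration.HasLines.mkLine hpq)) := hax.1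
          have a2 : (incidenceGraph fun (p : P) (l : L) => p ∈ l).Adj
            (Sum.inr (Configuration.HasLines.mkLine hpq)) (Sum.inl q) := hax.2
          exact a1.reachable.trans a2.reachable
      have hline : ∀ l : L, ∃ p : P, (incidenceGraph fun (p : P) (l : L) => p ∈ l).Reachable
          (Sum.inr l) (Sum.inl p) := by
        intro l
        have : 0 < (univ.filter fun p : P => p ∈ l).card := by rw [hdB]; omega
        obtain ⟨p, hp⟩ := card_pos.1 this
        have a1 : (incidenceGraph fun (p : P) (l : L) => p ∈ l).Adj (Sum.inr l) (Sum.inl p) :=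
          (mem_filter.1 hp).2
        exact ⟨p, a1.reachable⟩
      obtain ⟨p₀⟩ := hne
      have : Nonempty (P ⊕ L) := ⟨Sum.inl p₀⟩
      refine SimpleGraph.Connected.mk ?_
      rintro (p | l) (q | m)
      · exact hconn p q
      · obtain ⟨q, hq⟩ := hline m
        exact (hconn p q).trans hq.symm
      · obtain ⟨p, hp⟩ := hline l
        exact hp.trans (hconn p q)
      · obtain ⟨p, hp⟩ := hline l
        obtain ⟨q, hq⟩ := hline m
        exact hp.trans ((hconn p q).trans hq.symm)
    · rintro (p | l)
      · rw [inc_degree_inl]; exact hdP p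
      · rw [inc_degree_inr]; exact hdB l

/-- Planes over finite fields. -/
theorem planeExists_prime (p : ℕ) (hp : p.Prime) : PlaneExists p := by
  have : Fact p.Prime := ⟨hp⟩
  let _ : Fintype (Projectivization (ZMod p) (Fin 3 → ZMod p)) := Fintype.ofFinite _
  refine ⟨Projectivization (ZMod p) (Fin 3 → ZMod p), Projectivization (ZMod p) (Fin 3 → ZMod p),
    inferInstance, inferInstance, inferInstance, inferInstance, ?_⟩
  have h1 : Fintype.card (Projectivization (ZMod p) (Fin 3 → ZMod p)) = p ^ 2 + p + 1 := by
    rw [← Nat.card_eq_fintype_card, Projectivization.card_of_finrank (ZMod p) (Fin 3 → ZMod p) (n := 3)]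
    · simp [Finset.sum_range_succ]; ring
    · simp
  have h2 := Configuration.ProjectivePlane.card_points
    (Projectivization (ZMod p) (Fin 3 → ZMod p)) (Projectivization (ZMod p) (Fin 3 → ZMod p))
  rw [h1] at h2
  nlinarith

end Plane

end Pool.Agent.H17
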