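import Mathlib
import Pool.Agent.H17.Incidence

/-!
# Incidence graphs of designs
-/

namespace Pool.Agent.H17

open Finset Classical

set_option linter.unusedSectionVars false

section

variable {P B : Type} [Fintype P] [Fintype B] {I : P → B → Prop} {v k lam : ℕ}

lemma design_replication (h : IsDesign v k lam I) (p : P) :
    (univ.filter fun b => I p b).card * (k - 1) = lam * (v - 1) := by
  obtain ⟨hv, hk, hl⟩ := h
  have h1 : ∑ q ∈ univ.erase p, (univ.filter fun b => I p b ∧ I q b).card = lam * (v - 1) := by
    rw [sum_congr rfl (g := fun _ => lam)]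
    · rw [sum_const, card_erase_of_mem (mem_univ _), card_univ, hv, smul_eq_mul, mul_comm]
    · intro q hq
      exact hl p q (Ne.symm (ne_of_mem_erase hq))
  have h2 : ∑ q ∈ univ.erase p, (univ.filter fun b => I p b ∧ I q b).card =
      ∑ b ∈ univ.filter (fun b => I p b), ((univ.erase p).filter fun q => I q b).card := by
    simp only [card_filter]
    rw [sum_comm]
    rw [sum_filter]
    refine sum_congr rfl fun b _ => ?_
    by_cases hb : I p b
    · simp [hb]
    · simp [hb]
  have h3 : ∀ b ∈ univ.filter (fun b => I p b),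
      ((univ.erase p).filter fun q => I q b).card = k - 1 := by
    intro b hb
    have hpb : I p b := (mem_filter.1 hb).2
    have : (univ.erase p).filter (fun q => I q b) = (univ.filter fun q => I q b).erase p := by
      ext q; simp [and_comm]
    rw [this, card_erase_of_mem (by simp [hpb]), hk]
  rw [← h1, h2, sum_congr rfl h3, sum_const, smul_eq_mul]

lemma design_double (h : IsDesign v k lam I) :
    ∑ p, (univ.filter fun b => I p b).card = Fintype.card B * k := by
  obtain ⟨hv, hk, hl⟩ := h
  have : ∑ p, (univ.filter fun b => I p b).card = ∑ b, (univ.filter fun p => I p b).card := by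
    simp only [card_filter]
    rw [sum_comm]
  rw [this, sum_congr rfl fun b _ => hk b, sum_const, card_univ, smul_eq_mul]

/-- If there are more blocks than points the gap is `0`. -/
lemma gap_le_zero_of_card_lt (hlt : Fintype.card P < Fintype.card B) :
    gap (incidenceGraph I) ≤ 0 := by
  let T : (B → ℝ) →ₗ[ℝ] (P → ℝ) :=
    { toFun := fun f p => ∑ b, if I p b then f b else 0
      map_add' := by
        intro f g; funext p
        simp only [Pi.add_apply, ← sum_add_distrib]
        exact sum_congr rfl fun b _ => by split_ifs <;> simp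
      map_smul' := by
        intro c f; funext p
        simp only [Pi.smul_apply, smul_eq_mul, mul_sum, RingHom.id_apply]
        exact sum_congr rfl fun b _ => by split_ifs <;> simp }
  have hker : LinearMap.ker T ≠ ⊥ := by
    apply LinearMap.ker_ne_bot_of_finrank_lt
    simpa using hlt
  obtain ⟨f, hf, hf0⟩ := (Submodule.ne_bot_iff _).1 hker
  rw [LinearMap.mem_ker] at hf
  set g : P ⊕ B → ℝ := Sum.elim (fun _ => 0) f with hg
  have hg0 : g ≠ 0 := by
    intro h0
    apply hf0
    funext b
    exact congrFun h0 (Sum.inr b)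
  have heig : normLap (incidenceGraph I) g = (1 : ℝ) • g := by
    funext w
    rw [normLap_apply]
    rcases w with p | b
    · rw [inc_sum_inl]
      have : (∑ b, if I p b then g (Sum.inr b) else 0) = 0 := by
        have := congrFun hf p
        simpa [T, hg] using this
      rw [this]; simp
    · rw [inc_sum_inr]
      simp [hg]
  have := gap_le_of_eigen (incidenceGraph I) hg0 heig
  simpa using this

/-- Either the gap vanishes or the design is symmetric. -/
lemma design_main {d : ℕ} (hd : 3 ≤ d) (h : IsDesign v d lam I)
    (hG : InMinDegree d (incidenceGraph I)) :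
    gap (incidenceGraph I) ≤ 0 ∨
      (Fintype.card P = Fintype.card B ∧ (∀ p, (univ.filter fun b => I p b).card = d) ∧
        1 ≤ lam ∧ d * (d - 1) = lam * (v - 1) ∧ d ≤ v ∧
        (lam : ℝ) ≤ d ∧ gap (incidenceGraph I) ≤ √((d : ℝ) - lam) / d) := by
  have hrep := design_replication h
  have hdouble := design_double h
  have h' := h
  obtain ⟨hv, hk, hl⟩ := h
  have hr : ∀ p, d ≤ (univ.filter fun b => I p b).card := by
    intro p
    have := hG.2.2 (Sum.inl p)
    rwa [inc_degree_inl] at this
  -- there is a block and it has at least three points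
  have hBne : Nonempty B := by
    by_contra hB
    have hB' : IsEmpty B := not_nonempty_iff.1 hB
    have hcard : 3 ≤ Fintype.card (P ⊕ B) := hG.1
    rw [Fintype.card_sum, Fintype.card_eq_zero (α := B)] at hcard
    have : Nonempty P := by rw [← Fintype.card_pos_iff]; omega
    obtain ⟨p⟩ := this
    have h1 := hr p
    have : (univ.filter fun b => I p b).card = 0 := by
      rw [card_eq_zero]; ext b; exact (IsEmpty.false b).elim
    omega
  obtain ⟨b₀⟩ := hBne
  have hdv : d ≤ v := by
    rw [← hv, ← hk b₀]; exact card_filter_le _ _ |>.trans (le_of_eq card_univ)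
  by_cases hlt : Fintype.card P < Fintype.card B
  · exact Or.inl (gap_le_zero_of_card_lt hlt)
  · right
    -- all replication numbers are equal to d
    have hsum : Fintype.card P * d ≤ ∑ p, (univ.filter fun b => I p b).card := by
      have := sum_le_sum (s := univ) fun p _ => hr p
      simpa using this
    have hle : Fintype.card P ≤ Fintype.card B := by
      rw [hdouble] at hsum
      exact Nat.le_of_mul_le_mul_right hsum (by omega)
    have hPB : Fintype.card P = Fintype.card B := by omega
    have hrd : ∀ p, (univ.filter fun b => I p b).card = d := by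
      have h1 : ∑ p : P, d = ∑ p, (univ.filter fun b => I p b).card := by
        rw [hdouble, sum_const, card_univ, smul_eq_mul, hPB]
      intro p
      have := (sum_eq_sum_iff_of_le (fun p _ => hr p)).1 h1 p (mem_univ p)
      exact this.symm
    have hPne : Nonempty P := by
      rw [← Fintype.card_pos_iff]; omega
    obtain ⟨p₀⟩ := hPne
    have hrep0 := hrep p₀
    rw [hrd] at hrep0
    have hlam : 1 ≤ lam := by
      by_contra h0
      have h0' : lam = 0 := by omega
      rw [h0', zero_mul] at hrep0
      have : 0 < d * (d - 1) := Nat.mul_pos (by omega) (by omega)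
      omega
    -- two distinct points
    have htwo : 1 < Fintype.card P := by omega
    obtain ⟨p, q, hpq⟩ := Fintype.one_lt_card_iff.1 htwo
    have hpqc := hl p q hpq
    have hlamd : lam ≤ d := by
      rw [← hpqc, ← hrd p]
      apply card_le_card
      intro b hb
      simp only [mem_filter, mem_univ, true_and] at hb ⊢
      exact hb.1
    have hlamd' : (lam : ℝ) ≤ d := by exact_mod_cast hlamd
    refine ⟨hPB, hrd, hlam, hrep0, hdv, hlamd', ?_⟩
    by_contra hcon
    push Not at hcon
    have hdpos : (0 : ℝ) < d := by exact_mod_cast (by omega : 0 < d)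
    have hpos : ∀ w, 0 < (incidenceGraph I).degree w := fun w =>
      InMinDegree.pos _ (by omega) hG w
    have hdeg : ∀ w, (incidenceGraph I).degree w = d := by
      rintro (p | b)
      · rw [inc_degree_inl, hrd]
      · rw [inc_degree_inr, hk]
    set f : P ⊕ B → ℝ := Sum.elim (fun x => (if x = p then 1 else 0) - (if x = q then 1 else 0))
      (fun _ => 0) with hf
    have hf0 : f ≠ 0 := by
      intro h0
      have := congrFun h0 (Sum.inl p)
      simp [hf, hpq] at this
    have key := quad_of_lt_gap (incidenceGraph I) hpos (γ := √((d : ℝ) - lam) / d)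
      (by positivity) hcon f hf0
    simp only [hdeg] at key
    rw [div_pow, Real.sq_sqrt (by linarith), Fintype.sum_sum_type, Fintype.sum_sum_type] at key
    simp only [inc_sum_inl, inc_sum_inr] at key
    have e1 : ∑ x, (d : ℝ) * f (Sum.inl x) ^ 2 = 2 * d := by
      simp only [hf, Sum.elim_inl]
      rw [← mul_sum]
      have : ∀ x : P, ((if x = p then (1 : ℝ) else 0) - (if x = q then 1 else 0)) ^ 2 =
          (if x = p then 1 else 0) + (if x = q then 1 else 0) := by
        intro x
        by_cases h1 : x = p
        · have h2 : x ≠ q := by rw [h1]; exact hpq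
          simp [h1, hpq]
        · by_cases h2 : x = q
          · simp [h2, Ne.symm hpq]
          · simp [h1, h2]
      rw [sum_congr rfl fun x _ => this x, sum_add_distrib]
      simp; ring
    have e2 : ∑ b, (d : ℝ) * f (Sum.inr b) ^ 2 = 0 := by
      simp [hf]
    have e3 : ∑ p, 1 / (d : ℝ) * (∑ b, if I p b then f (Sum.inr b) else 0) ^ 2 = 0 := by
      simp [hf]
    have e4 : ∑ b, 1 / (d : ℝ) * (∑ x, if I x b then f (Sum.inl x) else 0) ^ 2 =
        2 * ((d : ℝ) - lam) / d := by
      rw [← mul_sum]
      have h1 : ∀ b, (∑ x, if I x b then f (Sum.inl x) else 0) =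
          (if I p b then (1 : ℝ) else 0) - (if I q b then 1 else 0) := by
        intro b
        have h2 : ∀ x, (if I x b then f (Sum.inl x) else 0) =
            (if x = p then (if I p b then (1 : ℝ) else 0) else 0) -
              (if x = q then (if I q b then (1 : ℝ) else 0) else 0) := by
          intro x
          simp only [hf, Sum.elim_inl]
          by_cases h3 : x = p
          · subst h3
            simp [hpq]
          · by_cases h4 : x = q
            · subst h4
              by_cases h5 : I x b <;> simp [h3, h5]
            · simp [h3, h4]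
        rw [sum_congr rfl fun x _ => h2 x, sum_sub_distrib]
        simp
      have h2 : ∑ b, (∑ x, if I x b then f (Sum.inl x) else 0) ^ 2 = 2 * ((d : ℝ) - lam) := by
        have h3 : ∀ b, (∑ x, if I x b then f (Sum.inl x) else 0) ^ 2 =
            (if I p b then (1 : ℝ) else 0) + (if I q b then 1 else 0) -
              2 * (if I p b ∧ I q b then 1 else 0) := by
          intro b
          rw [h1]
          by_cases h4 : I p b <;> by_cases h5 : I q b <;> simp [h4, h5] <;> norm_num
        rw [sum_congr rfl fun b _ => h3 b, sum_sub_distrib, sum_add_distrib, ← mul_sum]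
        have h6 : ∑ b, (if I p b then (1 : ℝ) else 0) = d := by
          rw [← hrd p, card_filter]; push_cast; rfl
        have h7 : ∑ b, (if I q b then (1 : ℝ) else 0) = d := by
          rw [← hrd q, card_filter]; push_cast; rfl
        have h8 : ∑ b, (if I p b ∧ I q b then (1 : ℝ) else 0) = lam := by
          rw [← hpqc, card_filter]; push_cast; rfl
        rw [h6, h7, h8]; ring
      rw [h2]; ring
    rw [e1, e2, e3, e4] at key
    have e5 : ((d : ℝ) - lam) / d ^ 2 * (2 * d + 0) = 0 + 2 * (d - lam) / d := by
      field_simp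
      ring
    rw [e5] at key
    exact lt_irrefl _ key

/-- A symmetric design with `lam = 1` and block size at least three is a projective plane. -/
lemma plane_of_design {d : ℕ} (hd : 3 ≤ d) (h : IsDesign v d 1 I)
    (hPB : Fintype.card P = Fintype.card B) (hr : ∀ p, (univ.filter fun b => I p b).card = d)
    (hcount : d * (d - 1) = v - 1) (hdv : d ≤ v) :
    PlaneExists (d - 1) := by
  obtain ⟨hv, hk, hl⟩ := h
  let mem : Membership P B := ⟨fun b p => I p b⟩
  have hmem : ∀ (p : P) (b : B), p ∈ b ↔ I p b := fun p b => Iff.rfl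
  have hdd : 2 * d ≤ d * (d - 1) := by
    rw [mul_comm 2 d]; exact Nat.mul_le_mul_left d (by omega)
  have heq : ∀ {p₁ p₂ : P} {l₁ l₂ : B}, p₁ ∈ l₁ → p₂ ∈ l₁ → p₁ ∈ l₂ → p₂ ∈ l₂ →
      p₁ = p₂ ∨ l₁ = l₂ := by
    intro p₁ p₂ l₁ l₂ h1 h2 h3 h4
    by_contra hcon
    push Not at hcon
    have h5 := hl p₁ p₂ hcon.1
    rw [card_eq_one] at h5
    obtain ⟨l, hl⟩ := h5
    have h6 : l₁ ∈ ({l} : Finset B) := by
      rw [← hl]; exact mem_filter.2 ⟨mem_univ _, h1, h2⟩
    have h7 : l₂ ∈ ({l} : Finset B) := by
      rw [← hl]; exact mem_filter.2 ⟨mem_univ _, h3, h4⟩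
    rw [mem_singleton] at h6 h7
    exact hcon.2 (h6.trans h7.symm)
  have hnd : Configuration.Nondegenerate P B :=
    { exists_point := by
        intro l
        by_contra hcon
        push Not at hcon
        have : (univ.filter fun p => I p l) = univ := by
          ext p; simp only [mem_filter, mem_univ, true_and, iff_true]; exact hcon p
        have h2 := hk l
        rw [this, card_univ] at h2
        omega
      exists_line := by
        intro p
        by_contra hcon
        push Not at hcon
        have : (univ.filter fun b => I p b) = univ := by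
          ext b; simp only [mem_filter, mem_univ, true_and, iff_true]; exact hcon b
        have h2 := hr p
        rw [this, card_univ] at h2
        omega
      eq_or_eq := heq }
  have hex : ∀ {p₁ p₂ : P}, p₁ ≠ p₂ → ∃ l : B, p₁ ∈ l ∧ p₂ ∈ l := by
    intro p₁ p₂ hne
    have h5 := hl p₁ p₂ hne
    have h6 : 0 < (univ.filter fun b => I p₁ b ∧ I p₂ b).card := by omega
    obtain ⟨l, hl⟩ := card_pos.1 h6
    exact ⟨l, (mem_filter.1 hl).2⟩
  let hHL : Configuration.HasLines P B :=
    { hnd with
      mkLine := fun h => (hex h).choose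
      mkLine_ax := fun h => (hex h).choose_spec }
  let hHP : Configuration.HasPoints P B := Configuration.HasLines.hasPoints hPB
  -- configuration
  have hPpos : 0 < Fintype.card P := by omega
  have hconf : ∃ (p₁ p₂ p₃ : P) (l₁ l₂ l₃ : B),
      p₁ ∉ l₂ ∧ p₁ ∉ l₃ ∧ p₂ ∉ l₁ ∧ p₂ ∈ l₂ ∧ p₂ ∈ l₃ ∧ p₃ ∉ l₁ ∧ p₃ ∈ l₂ ∧ p₃ ∉ l₃ := by
    have hBpos : 0 < Fintype.card B := by omega
    obtain ⟨l₁⟩ := Fintype.card_pos_iff.1 hBpos
    obtain ⟨p₂, hp₂⟩ := hnd.exists_point l₁
    have h2 : 1 < (univ.filter fun b => I p₂ b).card := by rw [hr]; omega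
    obtain ⟨l₂, hl₂, l₃, hl₃, hl23⟩ := one_lt_card.1 h2
    have hl₂' : p₂ ∈ l₂ := (mem_filter.1 hl₂).2
    have hl₃' : p₂ ∈ l₃ := (mem_filter.1 hl₃).2
    -- p₃ on l₂, different from p₂ and not on l₁
    have hl12 : l₁ ≠ l₂ := by rintro rfl; exact hp₂ hl₂'
    have h3 : ∃ p₃, p₃ ∈ l₂ ∧ p₃ ≠ p₂ ∧ p₃ ∉ l₁ := by
      by_contra hcon
      push Not at hcon
      have h4 : (univ.filter fun p => I p l₂) ⊆ insert p₂ (univ.filter fun p => I p l₁ ∧ I p l₂) := by
        intro p hp
        have hp' : p ∈ l₂ := (mem_filter.1 hp).2
        rw [mem_insert]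
        by_cases hpp : p = p₂
        · exact Or.inl hpp
        · exact Or.inr (mem_filter.2 ⟨mem_univ _, hcon p hp' hpp, hp'⟩)
      have h5 : (univ.filter fun p => I p l₁ ∧ I p l₂).card ≤ 1 := by
        rw [card_le_one]
        intro a ha b hb
        have ha' := (mem_filter.1 ha).2
        have hb' := (mem_filter.1 hb).2
        exact (heq ha'.1 hb'.1 ha'.2 hb'.2).resolve_right hl12
      have h6 := (card_le_card h4).trans (card_insert_le _ _)
      rw [hk] at h6
      omega
    obtain ⟨p₃, h31, h32, h33⟩ := h3
    have h34 : p₃ ∉ l₃ := by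
      intro h
      rcases heq h31 hl₂' h hl₃' with h' | h'
      · exact h32 h'
      · exact hl23 h'
    have h4 : ∃ p₁, p₁ ∉ l₂ ∧ p₁ ∉ l₃ := by
      by_contra hcon
      push Not at hcon
      have h5 : (univ : Finset P) ⊆ (univ.filter fun p => I p l₂) ∪ (univ.filter fun p => I p l₃) := by
        intro p _
        rw [mem_union]
        by_cases hp : p ∈ l₂
        · exact Or.inl (mem_filter.2 ⟨mem_univ _, hp⟩)
        · exact Or.inr (mem_filter.2 ⟨mem_univ _, hcon p hp⟩)
      have h6 := (card_le_card h5).trans (card_union_le _ _)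
      rw [hk, hk, card_univ, hv] at h6
      omega
    obtain ⟨p₁, h41, h42⟩ := h4
    exact ⟨p₁, p₂, p₃, l₁, l₂, l₃, h41, h42, hp₂, hl₂', hl₃', h33, h31, h34⟩
  let hPP : Configuration.ProjectivePlane P B :=
    { hHP, hHL with exists_config := hconf }
  refine ⟨P, B, mem, inferInstance, inferInstance, hPP, ?_⟩
  obtain ⟨p⟩ := Fintype.card_pos_iff.1 hPpos
  have h1 := Configuration.ProjectivePlane.lineCount_eq (L := B) p
  rw [Configuration.lineCount, Nat.card_eq_fintype_card, Fintype.card_subtype] at h1
  have h2 : (univ.filter fun b => p ∈ b).card = d := hr p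
  omega

/-- If there is no projective plane of order `d - 1`, then the gap of the incidence graph of a
design with blocks of size `d` (lying in the family `G_{≥d}`) is at most `√(d-2) / d`. -/
theorem design_gap_le {d : ℕ} (hd : 3 ≤ d) (hno : ¬ PlaneExists (d - 1))
    (h : IsDesign v d lam I) (hG : InMinDegree d (incidenceGraph I)) :
    gap (incidenceGraph I) ≤ √((d : ℝ) - 2) / d := by
  have hd' : (3 : ℝ) ≤ d := by exact_mod_cast hd
  rcases design_main hd h hG with h0 | ⟨hPB, hr, hlam, hcount, hdv, hlamd, hgap⟩
  · exact h0.trans (by positivity)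
  · by_cases h1 : lam = 1
    · subst h1
      exact absurd (plane_of_design hd h hPB hr (by rw [hcount, one_mul]) hdv) hno
    · have h2 : 2 ≤ lam := by omega
      have h2' : (2 : ℝ) ≤ lam := by exact_mod_cast h2
      refine hgap.trans ?_
      have : √((d : ℝ) - lam) ≤ √((d : ℝ) - 2) := Real.sqrt_le_sqrt (by linarith)
      exact div_le_div_of_nonneg_right this (by linarith)

end

end Pool.Agent.H17
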