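import Mathlib

/-!
# Graphs whose adjacency matrix is bounded below by `-(2 - s)`: abstract clique structure
-/

namespace Pool.Agent.H17.Exact

open Finset Classical

set_option linter.unusedSectionVars false

variable {V : Type} [Fintype V] (H : SimpleGraph V) (s : ℝ)

/-- the matrix `A(H) + (2 - s) I` -/
noncomputable def M (x y : V) : ℝ := if x = y then 2 - s else if H.Adj x y then 1 else 0

/-- sum of entries over a block -/
noncomputable def e (S T : Finset V) : ℝ := ∑ x ∈ S, ∑ y ∈ T, M H s x y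

/-- the bilinear form -/
noncomputable def B (f g : V → ℝ) : ℝ := ∑ x, ∑ y, f x * g y * M H s x y

/-- positive semidefinite -/
def Psd : Prop := ∀ f : V → ℝ, 0 ≤ B H s f f

/-- indicator function -/
noncomputable def ind (S : Finset V) : V → ℝ := fun v => if v ∈ S then 1 else 0

lemma M_comm (x y : V) : M H s x y = M H s y x := by
  unfold M
  by_cases h : x = y
  · subst h; rfl
  · rw [if_neg h, if_neg (Ne.symm h), H.adj_comm]

lemma e_comm (S T : Finset V) : e H s S T = e H s T S := by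
  unfold e
  rw [sum_comm]
  exact sum_congr rfl fun x _ => sum_congr rfl fun y _ => M_comm H s _ _

lemma B_add_left (f g h : V → ℝ) : B H s (f + g) h = B H s f h + B H s g h := by
  simp only [B, Pi.add_apply, add_mul, sum_add_distrib]

lemma B_add_right (f g h : V → ℝ) : B H s f (g + h) = B H s f g + B H s f h := by
  simp only [B, Pi.add_apply, mul_add, add_mul, sum_add_distrib]

lemma B_smul_left (c : ℝ) (f h : V → ℝ) : B H s (c • f) h = c * B H s f h := by
  simp only [B, Pi.smul_apply, smul_eq_mul, mul_sum]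
  exact sum_congr rfl fun u _ => sum_congr rfl fun v _ => by ring

lemma B_smul_right (c : ℝ) (f h : V → ℝ) : B H s f (c • h) = c * B H s f h := by
  simp only [B, Pi.smul_apply, smul_eq_mul, mul_sum]
  exact sum_congr rfl fun u _ => sum_congr rfl fun v _ => by ring

lemma B_ind (S T : Finset V) : B H s (ind S) (ind T) = e H s S T := by
  simp only [B, ind, e]
  rw [← sum_subset (subset_univ S)]
  · refine sum_congr rfl fun u hu => ?_
    rw [← sum_subset (subset_univ T)]
    · exact sum_congr rfl fun v hv => by simp [hu, hv]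
    · intro v _ hv; simp [hv]
  · intro u _ hu; simp [hu]

variable {H s}

lemma psd4 (h : Psd H s) (a b c d : ℝ) (S₁ S₂ S₃ S₄ : Finset V) :
    0 ≤ a ^ 2 * e H s S₁ S₁ + b ^ 2 * e H s S₂ S₂ + c ^ 2 * e H s S₃ S₃ + d ^ 2 * e H s S₄ S₄ +
      2 * a * b * e H s S₁ S₂ + 2 * a * c * e H s S₁ S₃ + 2 * a * d * e H s S₁ S₄ +
      2 * b * c * e H s S₂ S₃ + 2 * b * d * e H s S₂ S₄ + 2 * c * d * e H s S₃ S₄ := by
  have h1 := h (a • ind S₁ + b • ind S₂ + c • ind S₃ + d • ind S₄)
  simp only [B_add_left, B_add_right, B_smul_left, B_smul_right, B_ind] at h1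
  rw [e_comm H s S₂ S₁, e_comm H s S₃ S₁, e_comm H s S₄ S₁, e_comm H s S₃ S₂, e_comm H s S₄ S₂,
    e_comm H s S₄ S₃] at h1
  linarith

lemma psd3 (h : Psd H s) (a b c : ℝ) (S₁ S₂ S₃ : Finset V) :
    0 ≤ a ^ 2 * e H s S₁ S₁ + b ^ 2 * e H s S₂ S₂ + c ^ 2 * e H s S₃ S₃ +
      2 * a * b * e H s S₁ S₂ + 2 * a * c * e H s S₁ S₃ + 2 * b * c * e H s S₂ S₃ := by
  have h1 := psd4 h a b c 0 S₁ S₂ S₃ ∅
  linarith

/-- pairwise adjacent -/
def Clq (H : SimpleGraph V) (S : Finset V) : Prop := ∀ x ∈ S, ∀ y ∈ S, x ≠ y → H.Adj x y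

lemma Clq.mono {S T : Finset V} (h : Clq H T) (hST : S ⊆ T) : Clq H S :=
  fun x hx y hy hxy => h x (hST hx) y (hST hy) hxy

lemma e_singleton (x : V) : e H s {x} {x} = 2 - s := by simp [e, M]

lemma e_full {S T : Finset V} (h : ∀ x ∈ S, ∀ y ∈ T, H.Adj x y) :
    e H s S T = S.card * T.card := by
  have : e H s S T = ∑ x ∈ S, ∑ y ∈ T, (1 : ℝ) := by
    refine sum_congr rfl fun x hx => sum_congr rfl fun y hy => ?_
    have h1 := h x hx y hy
    rw [M, if_neg h1.ne, if_pos h1]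
  rw [this]; simp

lemma e_zero {S T : Finset V} (h : ∀ x ∈ S, ∀ y ∈ T, x ≠ y ∧ ¬ H.Adj x y) :
    e H s S T = 0 := by
  refine sum_eq_zero fun x hx => sum_eq_zero fun y hy => ?_
  have h1 := h x hx y hy
  rw [M, if_neg h1.1, if_neg h1.2]

lemma e_nonneg_of_disj {S T : Finset V} (h : ∀ x ∈ S, x ∉ T) : 0 ≤ e H s S T := by
  refine sum_nonneg fun x hx => sum_nonneg fun y hy => ?_
  have h1 : x ≠ y := by rintro rfl; exact h x hx hy
  rw [M, if_neg h1]
  split_ifs <;> norm_num

lemma e_le_one {x y : V} (h : x ≠ y) : e H s {x} {y} ≤ 1 := by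
  simp only [e, sum_singleton, M, if_neg h]
  split_ifs <;> norm_num

lemma e_clique {S : Finset V} (h : Clq H S) :
    e H s S S = (S.card : ℝ) ^ 2 + (1 - s) * S.card := by
  have : e H s S S = ∑ x ∈ S, ∑ y ∈ S, ((1 : ℝ) + if x = y then 1 - s else 0) := by
    refine sum_congr rfl fun x hx => sum_congr rfl fun y hy => ?_
    by_cases hxy : x = y
    · rw [M, if_pos hxy, if_pos hxy]; ring
    · rw [M, if_neg hxy, if_pos (h x hx y hy hxy), if_neg hxy]; ring
  rw [this]
  simp only [sum_add_distrib, sum_ite_eq]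
  simp
  ring

lemma e_le_mul {S T : Finset V} (k : ℕ)
    (h : ∀ x ∈ S, x ∉ T ∧ (T.filter (H.Adj x)).card ≤ k) : e H s S T ≤ k * S.card := by
  have : ∀ x ∈ S, ∑ y ∈ T, M H s x y ≤ k := by
    intro x hx
    obtain ⟨h1, h2⟩ := h x hx
    have h3 : ∑ y ∈ T, M H s x y = ∑ y ∈ T, if H.Adj x y then (1 : ℝ) else 0 := by
      refine sum_congr rfl fun y hy => ?_
      have hxy : x ≠ y := by rintro rfl; exact h1 hy
      rw [M, if_neg hxy]
    rw [h3, ← sum_filter, sum_const, nsmul_eq_mul, mul_one]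
    exact_mod_cast h2
  calc e H s S T ≤ ∑ x ∈ S, (k : ℝ) := sum_le_sum this
    _ = k * S.card := by rw [sum_const, nsmul_eq_mul, mul_comm]

/-- T5 -/
lemma T5 (h : Psd H s) (hs : 0 < s) {C : Finset V} (hC : Clq H C) {x : V} (hx : x ∉ C)
    (hcard : 8 ≤ C.card) :
    (C.filter (H.Adj x)).card ≤ 2 ∨ (C.filter (fun w => ¬ H.Adj x w)).card ≤ 1 := by
  by_contra hcon
  push Not at hcon
  obtain ⟨h1, h2⟩ := hcon
  set S := C.filter (H.Adj x) with hS
  set T := C.filter (fun w => ¬ H.Adj x w) with hT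
  have hsum : S.card + T.card = C.card := by
    rw [hS, hT, card_filter_add_card_filter_not]
  have hcl : Clq H S := hC.mono (filter_subset _ _)
  have hcl' : Clq H T := hC.mono (filter_subset _ _)
  have e1 : e H s S T = S.card * T.card := by
    refine e_full fun u hu v hv => ?_
    rw [hS, mem_filter] at hu
    rw [hT, mem_filter] at hv
    refine hC u hu.1 v hv.1 ?_
    rintro rfl
    exact hv.2 hu.2
  have e2 : e H s {x} S = (1 : ℕ) * S.card := by
    rw [e_full, card_singleton]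
    intro u hu v hv
    rw [mem_singleton] at hu
    subst hu
    rw [hS, mem_filter] at hv
    exact hv.2
  have e3 : e H s {x} T = 0 := by
    refine e_zero fun u hu v hv => ?_
    rw [mem_singleton] at hu
    subst hu
    rw [hT, mem_filter] at hv
    refine ⟨?_, hv.2⟩
    rintro rfl
    exact hx hv.1
  have h3 := psd3 h ((S.card : ℝ) + T.card + 1) (-((T.card : ℝ) + 1)) (S.card : ℝ) {x} S T
  rw [e_singleton, e_clique hcl, e_clique hcl', e1, e2, e3] at h3
  set a : ℝ := (S.card : ℝ) with ha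
  set b : ℝ := (T.card : ℝ) with hb
  have ha3 : (3 : ℝ) ≤ a := by rw [ha]; exact_mod_cast h1
  have hb2 : (2 : ℝ) ≤ b := by rw [hb]; exact_mod_cast h2
  have hab : (8 : ℝ) ≤ a + b := by rw [ha, hb]; exact_mod_cast (by omega : 8 ≤ S.card + T.card)
  have h4 : (a + b + 1) * (2 * (a + b + 1) - a * (b + 1)) -
      s * ((a + b + 1) ^ 2 + (b + 1) ^ 2 * a + a ^ 2 * b) ≥ 0 := by
    push_cast at h3
    linarith [h3]
  have h5 : 2 * (a + b + 1) - a * (b + 1) ≤ 0 := by
    nlinarith [mul_nonneg (sub_nonneg.2 ha3) (sub_nonneg.2 hb2)]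
  have h6 : 0 < s * ((a + b + 1) ^ 2 + (b + 1) ^ 2 * a + a ^ 2 * b) := by positivity
  have h7 : (a + b + 1) * (2 * (a + b + 1) - a * (b + 1)) ≤ 0 :=
    mul_nonpos_of_nonneg_of_nonpos (by positivity) h5
  linarith

/-- T2C -/
lemma T2C (h : Psd H s) (hs : 0 < s) {z x : V} (hzx : H.Adj z x) {A B : Finset V}
    (hA : Clq H A) (hB : Clq H B) (hAc : A.card = 4) (hBc : B.card = 4)
    (hzA : ∀ a ∈ A, H.Adj z a) (hxA : ∀ a ∈ A, H.Adj x a)
    (hzB : ∀ a ∈ B, H.Adj z a) (hxB : ∀ a ∈ B, H.Adj x a)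
    (hAB : ∀ a ∈ A, ∀ b ∈ B, a ≠ b ∧ ¬ H.Adj a b) : False := by
  have h1 := psd3 h 5 (-2) (-2) {z, x} A B
  have hcl : Clq H {z, x} := by
    intro u hu v hv huv
    simp only [mem_insert, mem_singleton] at hu hv
    rcases hu with rfl | rfl <;> rcases hv with rfl | rfl
    · exact absurd rfl huv
    · exact hzx
    · exact hzx.symm
    · exact absurd rfl huv
  have hc : ({z, x} : Finset V).card = 2 := card_pair hzx.ne
  have e1 : e H s {z, x} A = 2 * 4 := by
    rw [e_full, hc, hAc]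
    · norm_num
    · intro u hu v hv
      simp only [mem_insert, mem_singleton] at hu
      rcases hu with rfl | rfl
      · exact hzA v hv
      · exact hxA v hv
  have e2 : e H s {z, x} B = 2 * 4 := by
    rw [e_full, hc, hBc]
    · norm_num
    · intro u hu v hv
      simp only [mem_insert, mem_singleton] at hu
      rcases hu with rfl | rfl
      · exact hzB v hv
      · exact hxB v hv
  rw [e_clique hcl, e_clique hA, e_clique hB, e1, e2, e_zero hAB, hc, hAc, hBc] at h1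
  push_cast at h1
  linarith

/-- T3 -/
lemma T3 (h : Psd H s) (hs : 0 < s) {z : V} {A B C : Finset V}
    (hA : Clq H A) (hB : Clq H B) (hC : Clq H C) (hAc : A.card = 7) (hBc : B.card = 7)
    (hCc : C.card = 7)
    (hzA : ∀ a ∈ A, H.Adj z a) (hzB : ∀ a ∈ B, H.Adj z a) (hzC : ∀ a ∈ C, H.Adj z a)
    (hAB : e H s A B ≤ 7) (hAC : e H s A C ≤ 7) (hBC : e H s B C ≤ 7) : False := by
  have h1 := psd4 h 10 (-1) (-1) (-1) {z} A B C
  have key : ∀ A : Finset V, A.card = 7 → (∀ a ∈ A, H.Adj z a) → e H s {z} A = 7 := by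
    intro A hAc hzA
    rw [e_full, card_singleton, hAc]
    · norm_num
    · intro u hu v hv
      rw [mem_singleton] at hu
      subst hu
      exact hzA v hv
  rw [e_singleton, e_clique hA, e_clique hB, e_clique hC, key A hAc hzA, key B hBc hzB,
    key C hCc hzC, hAc, hBc, hCc] at h1
  push_cast at h1
  linarith

/-- T7 -/
lemma T7 (h : Psd H s) (hs : 0 < s) {x x' x'' : V} (h1 : x ≠ x') (h2 : x ≠ x'') (h3 : x' ≠ x'')
    (n1 : ¬ H.Adj x x') (n2 : ¬ H.Adj x x'') {Y : Finset V} (hY : Clq H Y) (hYc : Y.card = 8)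
    (hxY : ∀ y ∈ Y, H.Adj x y) (hxY' : ∀ y ∈ Y, H.Adj x' y) (hxY'' : ∀ y ∈ Y, H.Adj x'' y) :
    False := by
  have h4 := psd4 h 18 9 9 (-4) {x} {x'} {x''} Y
  have key : ∀ x : V, (∀ y ∈ Y, H.Adj x y) → e H s {x} Y = 8 := by
    intro x hx
    rw [e_full, card_singleton, hYc]
    · norm_num
    · intro u hu v hv
      rw [mem_singleton] at hu
      subst hu
      exact hx v hv
  have e1 : e H s {x} {x'} = 0 := by
    refine e_zero fun u hu v hv => ?_
    rw [mem_singleton] at hu hv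
    subst hu hv
    exact ⟨h1, n1⟩
  have e2 : e H s {x} {x''} = 0 := by
    refine e_zero fun u hu v hv => ?_
    rw [mem_singleton] at hu hv
    subst hu hv
    exact ⟨h2, n2⟩
  have e3 : e H s {x'} {x''} ≤ 1 := e_le_one h3
  rw [e_singleton, e_singleton, e_singleton, e_clique hY, key x hxY, key x' hxY', key x'' hxY'',
    e1, e2, hYc] at h4
  push_cast at h4
  linarith

/-- T8 -/
lemma T8 (h : Psd H s) (hs : 0 < s) {x x' : V} (h1 : x ≠ x') (n1 : ¬ H.Adj x x')
    {Y : Finset V} (hY : Clq H Y) (hYc : 0 < Y.card) (hsY : 2 ≤ s * ((Y.card : ℝ) + 1))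
    (hxY : ∀ y ∈ Y, H.Adj x y) (hxY' : ∀ y ∈ Y, H.Adj x' y) : False := by
  have h4 := psd3 h ((Y.card : ℝ) + 1) ((Y.card : ℝ) + 1) (-2) {x} {x'} Y
  have key : ∀ x : V, (∀ y ∈ Y, H.Adj x y) → e H s {x} Y = Y.card := by
    intro x hx
    rw [e_full, card_singleton]
    · norm_num
    · intro u hu v hv
      rw [mem_singleton] at hu
      subst hu
      exact hx v hv
  have e1 : e H s {x} {x'} = 0 := by
    refine e_zero fun u hu v hv => ?_
    rw [mem_singleton] at hu hv
    subst hu hv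
    exact ⟨h1, n1⟩
  rw [e_singleton, e_singleton, e_clique hY, key x hxY, key x' hxY', e1] at h4
  set q : ℝ := (Y.card : ℝ) with hq
  have hq1 : (1 : ℝ) ≤ q := by rw [hq]; exact_mod_cast hYc
  have h5 : 0 ≤ (q + 1) * (4 - 2 * (s * (q + 1))) - 4 * s * q := by linarith
  have h6 : (q + 1) * (4 - 2 * (s * (q + 1))) ≤ 0 :=
    mul_nonpos_of_nonneg_of_nonpos (by positivity) (by linarith)
  have h7 : 0 < 4 * s * q := by positivity
  linarith

/-- S5, case I -/
lemma S5a (h : Psd H s) (hs : 0 < s) {z : V} {A B : Finset V}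
    (hA : Clq H A) (hB : Clq H B) (hA0 : 0 < A.card) (hB0 : 0 < B.card)
    (hzA : ∀ a ∈ A, H.Adj z a) (hzB : ∀ a ∈ B, H.Adj z a)
    (hAB : ∀ a ∈ A, a ∉ B ∧ (B.filter (H.Adj a)).card ≤ 1)
    (hlt : 1 / (A.card : ℝ) + 3 / (B.card : ℝ) < s) : False := by
  have hA1 : (0 : ℝ) < A.card := by exact_mod_cast hA0
  have hB1 : (0 : ℝ) < B.card := by exact_mod_cast hB0
  have h1 := psd3 h 1 (-(1 / (A.card : ℝ))) (-(1 / (B.card : ℝ))) {z} A B
  have key : ∀ A : Finset V, (∀ a ∈ A, H.Adj z a) → e H s {z} A = A.card := by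
    intro A hzA
    rw [e_full, card_singleton]
    · norm_num
    · intro u hu v hv
      rw [mem_singleton] at hu
      subst hu
      exact hzA v hv
  have h2 := e_le_mul (s := s) 1 hAB
  rw [e_singleton, e_clique hA, e_clique hB, key A hzA, key B hzB] at h1
  set a : ℝ := (A.card : ℝ) with ha
  set b : ℝ := (B.card : ℝ) with hb
  have h3 : 2 * -(1 / a) * -(1 / b) * e H s A B ≤ 2 / b := by
    have : 2 * -(1 / a) * -(1 / b) * e H s A B = 2 / (a * b) * e H s A B := by
      field_simp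
    rw [this]
    have h4 : 2 / (a * b) * e H s A B ≤ 2 / (a * b) * ((1 : ℕ) * a) :=
      mul_le_mul_of_nonneg_left h2 (by positivity)
    refine h4.trans (le_of_eq ?_)
    push_cast
    field_simp
  have h5 : (-(1 / a)) ^ 2 * (a ^ 2 + (1 - s) * a) = 1 + (1 - s) / a := by
    field_simp
  have h6 : (-(1 / b)) ^ 2 * (b ^ 2 + (1 - s) * b) = 1 + (1 - s) / b := by
    field_simp
  have h7 : 2 * 1 * -(1 / a) * a = -2 := by field_simp
  have h8 : 2 * 1 * -(1 / b) * b = -2 := by field_simp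
  rw [h5, h6, h7, h8] at h1
  have h9 : (1 - s) / a ≤ 1 / a := div_le_div_of_nonneg_right (by linarith) hA1.le
  have h10 : (1 - s) / b ≤ 1 / b := div_le_div_of_nonneg_right (by linarith) hB1.le
  have h11 : 1 / b + 2 / b = 3 / b := by ring
  linarith

/-- S5, case II -/
lemma S5b (h : Psd H s) (hs : 0 < s) {z x : V} (hzx : H.Adj z x) {A B : Finset V}
    (hA : Clq H A) (hB : Clq H B) (hA0 : 0 < A.card) (hB0 : 0 < B.card)
    (hzA : ∀ a ∈ A, H.Adj z a) (hxB : ∀ a ∈ B, H.Adj x a)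
    (hxA : ∀ a ∈ A, x ≠ a ∧ ¬ H.Adj x a) (hzB : ∀ a ∈ B, z ≠ a ∧ ¬ H.Adj z a)
    (hlt : 1 / (A.card : ℝ) + 1 / (B.card : ℝ) < 2 * s) : False := by
  have hA1 : (0 : ℝ) < A.card := by exact_mod_cast hA0
  have hB1 : (0 : ℝ) < B.card := by exact_mod_cast hB0
  have h1 := psd4 h 1 (-1) (-(1 / (A.card : ℝ))) (1 / (B.card : ℝ)) {z} {x} A B
  have key : ∀ z : V, ∀ A : Finset V, (∀ a ∈ A, H.Adj z a) → e H s {z} A = A.card := by
    intro z A hzA
    rw [e_full, card_singleton]
    · norm_num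
    · intro u hu v hv
      rw [mem_singleton] at hu
      subst hu
      exact hzA v hv
  have key0 : ∀ z : V, ∀ A : Finset V, (∀ a ∈ A, z ≠ a ∧ ¬ H.Adj z a) → e H s {z} A = 0 := by
    intro z A hzA
    refine e_zero ?_
    intro u hu v hv
    rw [mem_singleton] at hu
    subst hu
    exact hzA v hv
  have e1 : e H s {z} {x} = 1 := by
    rw [key z {x} (by intro a ha; rw [mem_singleton] at ha; subst ha; exact hzx), card_singleton]
    norm_num
  have hdisj : ∀ a ∈ A, a ∉ B := by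
    intro a ha hb
    exact (hzB a hb).2 (hzA a ha)
  have h2 := e_nonneg_of_disj (H := H) (s := s) hdisj
  rw [e_singleton, e_singleton, e_clique hA, e_clique hB, key z A hzA, key x B hxB,
    key0 x A hxA, key0 z B hzB, e1] at h1
  set a : ℝ := (A.card : ℝ) with ha
  set b : ℝ := (B.card : ℝ) with hb
  have h3 : 2 * -(1 / a) * (1 / b) * e H s A B ≤ 0 := by
    have : 2 * -(1 / a) * (1 / b) * e H s A B = -(2 / (a * b) * e H s A B) := by
      field_simp
    rw [this]
    have : 0 ≤ 2 / (a * b) * e H s A B := mul_nonneg (by positivity) h2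
    linarith
  have h5 : (-(1 / a)) ^ 2 * (a ^ 2 + (1 - s) * a) = 1 + (1 - s) / a := by
    field_simp
  have h6 : (1 / b) ^ 2 * (b ^ 2 + (1 - s) * b) = 1 + (1 - s) / b := by
    field_simp
  have h7 : 2 * 1 * -(1 / a) * a = -2 := by field_simp
  have h8 : 2 * -1 * (1 / b) * b = -2 := by field_simp
  rw [h5, h6, h7, h8] at h1
  have h9 : (1 - s) / a ≤ 1 / a := div_le_div_of_nonneg_right (by linarith) hA1.le
  have h10 : (1 - s) / b ≤ 1 / b := div_le_div_of_nonneg_right (by linarith) hB1.le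
  linarith

end Pool.Agent.H17.Exact
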