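import Mathlib
import Pool.Agent.H17.ExactA

/-!
# The cluster through a pencil of cliques
-/

namespace Pool.Agent.H17.Exact

open Finset Classical

set_option linter.unusedSectionVars false

variable {V : Type} [Fintype V] {H : SimpleGraph V} {s : ℝ}

/-- vertices missing at most one vertex of `C` -/
noncomputable def St (H : SimpleGraph V) (C : Finset V) : Finset V :=
  univ.filter fun v => (C.filter fun w => w ≠ v ∧ ¬ H.Adj v w).card ≤ 1

lemma mem_St {C : Finset V} {v : V} :
    v ∈ St H C ↔ (C.filter fun w => w ≠ v ∧ ¬ H.Adj v w).card ≤ 1 := by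
  simp [St]

lemma subset_St {C : Finset V} (hC : Clq H C) : C ⊆ St H C := by
  intro v hv
  rw [mem_St]
  have : (C.filter fun w => w ≠ v ∧ ¬ H.Adj v w) = ∅ := by
    rw [filter_eq_empty_iff]
    intro w hw h1
    exact h1.2 (hC v hv w hw (Ne.symm h1.1))
  rw [this]; simp

/-- a vertex outside `St C` has at most two neighbours in `C` -/
lemma nbr_le_two_of_notMem_St (h : Psd H s) (hs : 0 < s) {C : Finset V} (hC : Clq H C)
    (hcard : 8 ≤ C.card) {x : V} (hx : x ∉ St H C) : (C.filter (H.Adj x)).card ≤ 2 := by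
  have hxC : x ∉ C := fun h' => hx (subset_St hC h')
  rcases T5 h hs hC hxC hcard with h1 | h1
  · exact h1
  · exfalso
    apply hx
    rw [mem_St]
    refine le_trans (card_le_card ?_) h1
    intro w hw
    rw [mem_filter] at hw ⊢
    exact ⟨hw.1, hw.2.2⟩

lemma card_insert_pair_le (z x : V) : ({z, x} : Finset V).card ≤ 2 := card_le_two

/-- related cliques are almost contained in `St` -/
lemma related_card (h : Psd H s) (hs : 0 < s) {C C' : Finset V} (hC : Clq H C) (hC' : Clq H C')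
    {z : V} (hz : z ∈ C) (hz' : z ∈ C') (hint : ∀ x ∈ C, x ∈ C' → x = z)
    (hcard : 8 ≤ C.card) (hcard' : 8 ≤ C'.card) {x : V} (hx : x ∈ C') (hxz : x ≠ z)
    (hx3 : 3 ≤ (C.filter (H.Adj x)).card) :
    (C \ St H C').card ≤ 4 := by
  by_contra hcon
  push Not at hcon
  have hxC : x ∉ C := fun h' => hxz (hint x h' hx)
  have hzx : H.Adj z x := hC' z hz' x hx (Ne.symm hxz)
  have h1 : (C.filter (fun w => ¬ H.Adj x w)).card ≤ 1 := by
    rcases T5 h hs hC hxC hcard with h1 | h1
    · omega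
    · exact h1
  set U := C \ St H C' with hU
  have h2 : 4 ≤ (U.filter (H.Adj x)).card := by
    have h3 := card_filter_add_card_filter_not (s := U) (H.Adj x)
    have h4 : (U.filter (fun w => ¬ H.Adj x w)).card ≤ 1 := by
      refine le_trans (card_le_card ?_) h1
      intro w hw
      rw [mem_filter] at hw ⊢
      exact ⟨(mem_sdiff.1 hw.1).1, hw.2⟩
    omega
  obtain ⟨B, hBs, hBc⟩ := exists_subset_card_eq h2
  have hA : 4 ≤ (C' \ {z, x}).card := by
    have h3 := le_card_sdiff {z, x} C'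
    have h4 := card_insert_pair_le z x
    omega
  obtain ⟨A, hAs, hAc⟩ := exists_subset_card_eq hA
  have hB' : ∀ b ∈ B, b ∈ C ∧ b ∉ St H C' ∧ H.Adj x b := by
    intro b hb
    have h3 := hBs hb
    rw [mem_filter, hU, mem_sdiff] at h3
    exact ⟨h3.1.1, h3.1.2, h3.2⟩
  have hA' : ∀ a ∈ A, a ∈ C' ∧ a ≠ z ∧ a ≠ x := by
    intro a ha
    have h3 := hAs ha
    rw [mem_sdiff] at h3
    simp only [mem_insert, mem_singleton, not_or] at h3
    exact ⟨h3.1, h3.2.1, h3.2.2⟩
  have hBz : ∀ b ∈ B, b ≠ z := by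
    rintro b hb rfl
    exact (hB' b hb).2.1 (subset_St hC' hz')
  refine T2C h hs hzx (A := A) (B := B) (hC'.mono fun a ha => (hA' a ha).1)
    (hC.mono fun b hb => (hB' b hb).1) hAc hBc
    (fun a ha => hC' z hz' a (hA' a ha).1 (Ne.symm (hA' a ha).2.1))
    (fun a ha => hC' x hx a (hA' a ha).1 (Ne.symm (hA' a ha).2.2))
    (fun b hb => hC z hz b (hB' b hb).1 (Ne.symm (hBz b hb)))
    (fun b hb => (hB' b hb).2.2) ?_
  intro a ha b hb
  have h3 := hB' b hb
  have h4 := hA' a ha
  refine ⟨?_, ?_⟩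
  · rintro rfl
    exact hBz a hb (hint a h3.1 h4.1)
  · intro hab
    have h5 := nbr_le_two_of_notMem_St h hs hC' hcard' h3.2.1
    have h6 : ({z, x, a} : Finset V) ⊆ C'.filter (H.Adj b) := by
      intro w hw
      simp only [mem_insert, mem_singleton] at hw
      rw [mem_filter]
      rcases hw with rfl | rfl | rfl
      · exact ⟨hz', (hC _ hz b h3.1 (Ne.symm (hBz b hb))).symm⟩
      · exact ⟨hx, h3.2.2.symm⟩
      · exact ⟨h4.1, hab.symm⟩
    have h7 := card_le_card h6
    rw [card_eq_three.2 ⟨z, x, a, Ne.symm hxz, Ne.symm h4.2.1, Ne.symm h4.2.2, rfl⟩] at h7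
    omega

/-- at most one missing neighbour in `St C` -/
lemma St_matching (h : Psd H s) (hs : 0 < s) {C : Finset V} (hC : Clq H C)
    (hcard : 14 ≤ C.card) {x x' x'' : V} (hx : x ∈ St H C) (hx' : x' ∈ St H C)
    (hx'' : x'' ∈ St H C) (h1 : x ≠ x') (h2 : x ≠ x'')
    (n1 : ¬ H.Adj x x') (n2 : ¬ H.Adj x x'') : x' = x'' := by
  by_contra h3
  have key : ∀ x ∈ St H C, ∃ m, ∀ w ∈ C, w ≠ x → w ≠ m → H.Adj x w := by
    intro x hx
    rw [mem_St, card_le_one] at hx
    by_cases hex : ∃ m ∈ C, m ≠ x ∧ ¬ H.Adj x m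
    · obtain ⟨m, hm, hm1, hm2⟩ := hex
      refine ⟨m, fun w hw hwx hwm => ?_⟩
      by_contra hadj
      exact hwm (hx w (mem_filter.2 ⟨hw, hwx, hadj⟩) m (mem_filter.2 ⟨hm, hm1, hm2⟩))
    · push Not at hex
      exact ⟨x, fun w hw hwx _ => hex w hw hwx⟩
  obtain ⟨m, hm⟩ := key x hx
  obtain ⟨m', hm'⟩ := key x' hx'
  obtain ⟨m'', hm''⟩ := key x'' hx''
  have h4 : 8 ≤ (C \ {x, x', x'', m, m', m''}).card := by
    have h5 := le_card_sdiff {x, x', x'', m, m', m''} C
    have h6 : ({x, x', x'', m, m', m''} : Finset V).card ≤ 6 := by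
      refine le_trans (card_insert_le _ _) ?_
      have := card_insert_le x' {x'', m, m', m''}
      have := card_insert_le x'' {m, m', m''}
      have := card_insert_le m {m', m''}
      have := card_insert_pair_le m' m''
      omega
    omega
  obtain ⟨Y, hYs, hYc⟩ := exists_subset_card_eq h4
  have hY' : ∀ y ∈ Y, y ∈ C ∧ y ≠ x ∧ y ≠ x' ∧ y ≠ x'' ∧ y ≠ m ∧ y ≠ m' ∧ y ≠ m'' := by
    intro y hy
    have h5 := hYs hy
    rw [mem_sdiff] at h5
    simp only [mem_insert, mem_singleton, not_or] at h5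
    tauto
  refine T7 h hs h1 h2 h3 n1 n2 (Y := Y) (hC.mono fun y hy => (hY' y hy).1) hYc
    (fun y hy => hm y (hY' y hy).1 (hY' y hy).2.1 (hY' y hy).2.2.2.2.1)
    (fun y hy => hm' y (hY' y hy).1 (hY' y hy).2.2.1 (hY' y hy).2.2.2.2.2.1)
    (fun y hy => hm'' y (hY' y hy).1 (hY' y hy).2.2.2.1 (hY' y hy).2.2.2.2.2.2)

/-- `St C` is a clique if it is large -/
lemma St_clique (h : Psd H s) (hs : 0 < s) {C : Finset V} (hC : Clq H C)
    (hcard : 14 ≤ C.card) (hbig : 4 ≤ s * ((St H C).card : ℝ)) : Clq H (St H C) := by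
  intro x hx x' hx' hne
  by_contra hadj
  -- maximal clique
  set D := St H C \ {x, x'} with hD
  obtain ⟨Y, hY, hYmax⟩ := exists_max_image (D.powerset.filter fun Y => Clq H Y) card
    ⟨∅, by
      rw [mem_filter]
      refine ⟨empty_mem_powerset _, ?_⟩
      intro u hu
      exact absurd hu (notMem_empty u)⟩
  rw [mem_filter, mem_powerset] at hY
  obtain ⟨hYD, hYcl⟩ := hY
  have hDSt : ∀ u ∈ D, u ∈ St H C ∧ u ≠ x ∧ u ≠ x' := by
    intro u hu
    rw [hD, mem_sdiff] at hu
    simp only [mem_insert, mem_singleton, not_or] at hu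
    exact ⟨hu.1, hu.2.1, hu.2.2⟩
  have hmiss : ∀ v ∈ D \ Y, ∃ y ∈ Y, ¬ H.Adj v y := by
    intro v hv
    rw [mem_sdiff] at hv
    by_contra hcon
    push Not at hcon
    have h1 : insert v Y ∈ D.powerset.filter fun Y => Clq H Y := by
      rw [mem_filter, mem_powerset]
      refine ⟨insert_subset hv.1 hYD, ?_⟩
      intro a ha b hb hab
      rw [mem_insert] at ha hb
      rcases ha with rfl | ha <;> rcases hb with rfl | hb
      · exact absurd rfl hab
      · exact hcon b hb
      · exact (hcon a ha).symm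
      · exact hYcl a ha b hb hab
    have h2 := hYmax _ h1
    rw [card_insert_of_notMem hv.2] at h2
    omega
  choose! φ hφ1 hφ2 using hmiss
  have hcardle : (D \ Y).card ≤ Y.card := by
    refine card_le_card_of_injOn φ (fun v hv => hφ1 v hv) ?_
    intro v hv w hw hvw
    have hv' : v ∈ D \ Y := hv
    have hw' : w ∈ D \ Y := hw
    have h1 := hφ1 v hv'
    have h2 := hφ2 v hv'
    have h3 := hφ2 w hw'
    rw [← hvw] at h3
    have hvne : φ v ≠ v := by
      intro h4
      rw [h4] at h1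
      exact (mem_sdiff.1 hv').2 h1
    have hwne : φ v ≠ w := by
      intro h4
      rw [h4] at h1
      exact (mem_sdiff.1 hw').2 h1
    exact St_matching h hs hC hcard (hDSt _ (hYD h1)).1 (hDSt _ (mem_sdiff.1 hv').1).1
      (hDSt _ (mem_sdiff.1 hw').1).1 hvne hwne (fun h5 => h2 h5.symm) (fun h5 => h3 h5.symm)
  have h1 : (D \ Y).card + Y.card = D.card := by
    rw [card_sdiff_add_card_eq_card hYD]
  have h2 : (St H C).card ≤ D.card + 2 := by
    have h3 := le_card_sdiff {x, x'} (St H C)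
    have h4 := card_insert_pair_le x x'
    rw [← hD] at h3
    omega
  have h3 : (St H C).card ≤ 2 * Y.card + 2 := by omega
  have h3' : ((St H C).card : ℝ) ≤ 2 * ((Y.card : ℝ) + 1) := by
    have : ((St H C).card : ℝ) ≤ ((2 * Y.card + 2 : ℕ) : ℝ) := by exact_mod_cast h3
    push_cast at this
    linarith
  have h4 : 2 ≤ s * ((Y.card : ℝ) + 1) := by
    have := mul_le_mul_of_nonneg_left h3' hs.le
    linarith
  have h14 : 14 ≤ (St H C).card := hcard.trans (card_le_card (subset_St hC))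
  refine T8 h hs hne hadj hYcl (by omega) h4 ?_ ?_
  · intro y hy
    have h5 := hDSt y (hYD hy)
    by_contra h6
    exact h5.2.2 (St_matching h hs hC hcard hx hx' h5.1 hne (Ne.symm h5.2.1) hadj h6).symm
  · intro y hy
    have h5 := hDSt y (hYD hy)
    by_contra h6
    exact h5.2.1 (St_matching h hs hC hcard hx' hx h5.1 (Ne.symm hne) (Ne.symm h5.2.2)
      (fun h7 => hadj h7.symm) h6).symm

/-- relation between cliques -/
def Rel (H : SimpleGraph V) (z : V) (C C' : Finset V) : Prop :=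
  (∃ x ∈ C', x ≠ z ∧ 3 ≤ (C.filter (H.Adj x)).card) ∧
    (∃ x ∈ C, x ≠ z ∧ 3 ≤ (C'.filter (H.Adj x)).card)

lemma Rel.symm {z : V} {C C' : Finset V} (h : Rel H z C C') : Rel H z C' C := ⟨h.2, h.1⟩

lemma e_le_seven {z : V} {C C' : Finset V}
    (hz' : z ∈ C') (hint : ∀ x ∈ C, x ∈ C' → x = z) (hCz : ∀ x ∈ C, x ≠ z → H.Adj z x)
    (hno : ∀ x ∈ C, x ≠ z → (C'.filter (H.Adj x)).card ≤ 2) {A A' : Finset V}
    (hA : A ⊆ C.erase z) (hA' : A' ⊆ C'.erase z) (hAc : A.card = 7) :
    e H s A A' ≤ 7 := by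
  have h1 := e_le_mul (H := H) (s := s) (S := A) (T := A') 1 ?_
  · rw [hAc] at h1
    push_cast at h1
    linarith
  · intro x hx
    have h2 := hA hx
    rw [mem_erase] at h2
    refine ⟨?_, ?_⟩
    · intro h3
      have h4 := hA' h3
      rw [mem_erase] at h4
      exact h2.1 (hint x h2.2 h4.2)
    · have h3 := hno x h2.2 h2.1
      have h4 : (A'.filter (H.Adj x)) ⊆ (C'.filter (H.Adj x)).erase z := by
        intro w hw
        rw [mem_filter] at hw
        have h5 := hA' hw.1
        rw [mem_erase] at h5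
        rw [mem_erase, mem_filter]
        exact ⟨h5.1, h5.2, hw.2⟩
      have h5 := card_le_card h4
      rw [card_erase_of_mem (mem_filter.2 ⟨hz', (hCz x h2.2 h2.1).symm⟩)] at h5
      omega

lemma e_le_seven_of_not_rel {z : V} {C C' : Finset V} (hC : Clq H C) (hC' : Clq H C')
    (hz : z ∈ C) (hz' : z ∈ C') (hint : ∀ x ∈ C, x ∈ C' → x = z)
    (hno : ¬ Rel H z C C') {A A' : Finset V}
    (hA : A ⊆ C.erase z) (hA' : A' ⊆ C'.erase z) (hAc : A.card = 7) (hAc' : A'.card = 7) :
    e H s A A' ≤ 7 := by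
  unfold Rel at hno
  rw [not_and_or] at hno
  rcases hno with h1 | h1
  · push Not at h1
    rw [e_comm]
    exact e_le_seven hz (fun x h2 h3 => hint x h3 h2)
      (fun x hx hxz => hC' z hz' x hx (Ne.symm hxz))
      (fun x hx hxz => by have := h1 x hx hxz; omega) hA' hA hAc'
  · push Not at h1
    exact e_le_seven hz' hint (fun x hx hxz => hC z hz x hx (Ne.symm hxz))
      (fun x hx hxz => by have := h1 x hx hxz; omega) hA hA' hAc

/-- no three pairwise unrelated cliques -/
lemma no_three (h : Psd H s) (hs : 0 < s) {z : V} {C₁ C₂ C₃ : Finset V}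
    (h1 : Clq H C₁) (h2 : Clq H C₂) (h3 : Clq H C₃) (hz1 : z ∈ C₁) (hz2 : z ∈ C₂) (hz3 : z ∈ C₃)
    (hc1 : 8 ≤ C₁.card) (hc2 : 8 ≤ C₂.card) (hc3 : 8 ≤ C₃.card)
    (hi12 : ∀ x ∈ C₁, x ∈ C₂ → x = z) (hi13 : ∀ x ∈ C₁, x ∈ C₃ → x = z)
    (hi23 : ∀ x ∈ C₂, x ∈ C₃ → x = z)
    (n12 : ¬ Rel H z C₁ C₂) (n13 : ¬ Rel H z C₁ C₃) (n23 : ¬ Rel H z C₂ C₃) : False := by
  have key : ∀ C : Finset V, z ∈ C → 8 ≤ C.card → ∃ A ⊆ C.erase z, A.card = 7 := by
    intro C hz hc
    apply exists_subset_card_eq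
    rw [card_erase_of_mem hz]
    omega
  have key2 : ∀ C : Finset V, Clq H C → z ∈ C → ∀ A ⊆ C.erase z, ∀ a ∈ A, H.Adj z a := by
    intro C hC hz A hA a ha
    have := hA ha
    rw [mem_erase] at this
    exact hC z hz a this.2 (Ne.symm this.1)
  obtain ⟨A₁, hA1, hA1c⟩ := key C₁ hz1 hc1
  obtain ⟨A₂, hA2, hA2c⟩ := key C₂ hz2 hc2
  obtain ⟨A₃, hA3, hA3c⟩ := key C₃ hz3 hc3
  exact T3 h hs (h1.mono (hA1.trans (erase_subset _ _))) (h2.mono (hA2.trans (erase_subset _ _)))
    (h3.mono (hA3.trans (erase_subset _ _))) hA1c hA2c hA3c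
    (key2 C₁ h1 hz1 A₁ hA1) (key2 C₂ h2 hz2 A₂ hA2) (key2 C₃ h3 hz3 A₃ hA3)
    (e_le_seven_of_not_rel h1 h2 hz1 hz2 hi12 n12 hA1 hA2 hA1c hA2c)
    (e_le_seven_of_not_rel h1 h3 hz1 hz3 hi13 n13 hA1 hA3 hA1c hA3c)
    (e_le_seven_of_not_rel h2 h3 hz2 hz3 hi23 n23 hA2 hA3 hA2c hA3c)

/-- some clique is related to about half of the others -/
lemma exists_hub {R : Finset V} {rel : V → V → Prop} (hR : 1 ≤ R.card)
    (h3 : ∀ a ∈ R, ∀ b ∈ R, ∀ c ∈ R, a ≠ b → a ≠ c → b ≠ c →
      rel a b ∨ rel a c ∨ rel b c) :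
    ∃ y ∈ R, R.card ≤ 2 * (R.filter fun x => x ≠ y ∧ rel y x).card + 2 := by
  obtain ⟨y, hy⟩ := card_pos.1 hR
  by_cases hcase : R.card ≤ 2 * (R.filter fun x => x ≠ y ∧ rel y x).card + 2
  · exact ⟨y, hy, hcase⟩
  · push Not at hcase
    set U := R.filter (fun x => x ≠ y ∧ ¬ rel y x) with hU
    have hsplit : (R.filter fun x => x ≠ y ∧ rel y x).card + U.card + 1 = R.card := by
      have h4 : R = insert y ((R.filter fun x => x ≠ y ∧ rel y x) ∪ U) := by
        ext w
        simp only [hU, mem_insert, mem_union, mem_filter]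
        constructor
        · intro hw
          by_cases h5 : w = y
          · exact Or.inl h5
          · by_cases h6 : rel y w
            · exact Or.inr (Or.inl ⟨hw, h5, h6⟩)
            · exact Or.inr (Or.inr ⟨hw, h5, h6⟩)
        · rintro (h5 | h5 | h5)
          · rw [h5]; exact hy
          · exact h5.1
          · exact h5.1
      have h5 : y ∉ (R.filter fun x => x ≠ y ∧ rel y x) ∪ U := by
        simp [hU]
      have h6 : Disjoint (R.filter fun x => x ≠ y ∧ rel y x) U := by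
        rw [disjoint_left]
        intro w hw hw'
        rw [mem_filter] at hw
        rw [hU, mem_filter] at hw'
        exact hw'.2.2 hw.2.2
      have h7 := congrArg card h4
      rw [card_insert_of_notMem h5, card_union_of_disjoint h6] at h7
      omega
    have hUpos : 0 < U.card := by omega
    obtain ⟨u, hu⟩ := card_pos.1 hUpos
    have hu' := hu
    rw [hU, mem_filter] at hu'
    refine ⟨u, hu'.1, ?_⟩
    have h4 : U.erase u ⊆ R.filter fun x => x ≠ u ∧ rel u x := by
      intro w hw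
      rw [mem_erase, hU, mem_filter] at hw
      rw [mem_filter]
      refine ⟨hw.2.1, hw.1, ?_⟩
      rcases h3 y hy u hu'.1 w hw.2.1 (Ne.symm hu'.2.1) (Ne.symm hw.2.2.1) (Ne.symm hw.1)
        with h5 | h5 | h5
      · exact absurd h5 hu'.2.2
      · exact absurd h5 hw.2.2.2
      · exact h5
    have h5 := card_le_card h4
    rw [card_erase_of_mem hu] at h5
    omega

/-- The main structural statement: a pencil of `≥ d - 2` cliques of size `≥ 2d/5` through `z`
forces a big clique containing `z` such that every outside vertex has at most two neighbours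
in it. -/
theorem pencil_clique {d : ℕ} (hd : 2000 ≤ d) (hs : s = 1 / ((d : ℝ) + 1)) (h : Psd H s)
    {z : V} {R : Finset V} {C : V → Finset V} (hR : d ≤ R.card + 2)
    (hz : ∀ y ∈ R, z ∈ C y) (hC : ∀ y ∈ R, Clq H (C y))
    (hint : ∀ y ∈ R, ∀ y' ∈ R, y ≠ y' → ∀ x ∈ C y, x ∈ C y' → x = z)
    (hsize : ∀ y ∈ R, 2 * d ≤ 5 * (C y).card) :
    ∃ Z : Finset V, z ∈ Z ∧ Clq H Z ∧ d ^ 2 ≤ 6 * Z.card ∧
      ∀ v, v ∉ Z → (Z.filter (H.Adj v)).card ≤ 2 := by
  have hs0 : 0 < s := by rw [hs]; positivity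
  have hsize8 : ∀ y ∈ R, 14 ≤ (C y).card := fun y hy => by have := hsize y hy; omega
  obtain ⟨y₀, hy₀, hhub⟩ := exists_hub (R := R) (rel := fun a b => Rel H z (C a) (C b))
    (by omega) (by
      intro a ha b hb c hc hab hac hbc
      by_contra hcon
      push Not at hcon
      exact no_three h hs0 (hC a ha) (hC b hb) (hC c hc) (hz a ha) (hz b hb) (hz c hc)
        (by have := hsize8 a ha; omega) (by have := hsize8 b hb; omega)
        (by have := hsize8 c hc; omega) (hint a ha b hb hab) (hint a ha c hc hac)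
        (hint b hb c hc hbc) hcon.1 hcon.2.1 hcon.2.2)
  set N := R.filter fun x => x ≠ y₀ ∧ Rel H z (C y₀) (C x) with hN
  set Z := St H (C y₀) with hZ
  have hbig : d ^ 2 ≤ 6 * Z.card := by
    have h1 : (N.biUnion fun y => (C y ∩ Z).erase z).card ≤ Z.card := by
      apply card_le_card
      intro w hw
      rw [mem_biUnion] at hw
      obtain ⟨y, _, hw⟩ := hw
      exact (mem_inter.1 (mem_of_mem_erase hw)).2
    rw [card_biUnion] at h1
    · have h2 : ∀ y ∈ N, 2 * d ≤ 5 * ((C y ∩ Z).erase z).card + 25 := by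
        intro y hy
        rw [hN, mem_filter] at hy
        obtain ⟨hyR, hyne, hrel⟩ := hy
        obtain ⟨⟨x, _⟩, ⟨x', hx', hx'z, hx'3⟩⟩ := hrel
        have h3 := related_card h hs0 (hC y hyR) (hC y₀ hy₀) (hz y hyR) (hz y₀ hy₀)
          (hint y hyR y₀ hy₀ hyne) (by have := hsize8 y hyR; omega)
          (by have := hsize8 y₀ hy₀; omega) hx' hx'z hx'3
        rw [← hZ] at h3
        have h4 : (C y \ Z).card + (C y ∩ Z).card = (C y).card := card_sdiff_add_card_inter _ _
        have h5 := pred_card_le_card_erase (s := C y ∩ Z) (a := z)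
        have h6 := hsize y hyR
        omega
      have h3 : N.card * (2 * d) ≤ 5 * Z.card + 25 * N.card := by
        calc N.card * (2 * d) = ∑ y ∈ N, (2 * d) := by rw [sum_const, smul_eq_mul]
          _ ≤ ∑ y ∈ N, (5 * ((C y ∩ Z).erase z).card + 25) := sum_le_sum h2
          _ = 5 * ∑ y ∈ N, ((C y ∩ Z).erase z).card + 25 * N.card := by
              rw [sum_add_distrib, mul_sum, sum_const, smul_eq_mul, mul_comm N.card]
          _ ≤ 5 * Z.card + 25 * N.card := Nat.add_le_add_right (Nat.mul_le_mul_left 5 h1) _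
      have h4 : d ≤ 2 * N.card + 4 := by omega
      have h3' : (N.card : ℝ) * (2 * d) ≤ 5 * Z.card + 25 * N.card := by exact_mod_cast h3
      have h4' : (d : ℝ) ≤ 2 * N.card + 4 := by exact_mod_cast h4
      have hdR : (2000 : ℝ) ≤ d := by exact_mod_cast hd
      have h5 : ((d : ℝ)) ^ 2 ≤ 6 * Z.card := by
        nlinarith [mul_nonneg (sub_nonneg.2 h4') (sub_nonneg.2 (by linarith : (25 : ℝ) ≤ 2 * d))]
      exact_mod_cast h5
    · intro y hy y' hy' hne
      rw [Function.onFun, disjoint_left]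
      intro w hw hw'
      rw [mem_erase, mem_inter] at hw hw'
      have h3 : y ∈ R := (mem_filter.1 hy).1
      have h4 : y' ∈ R := (mem_filter.1 hy').1
      exact hw.1 (hint y h3 y' h4 hne w hw.2.1 hw'.2.1)
  have hbigR : 4 ≤ s * (Z.card : ℝ) := by
    rw [hs]
    have h1 : ((d : ℝ)) ^ 2 ≤ 6 * Z.card := by exact_mod_cast hbig
    have h2 : (2000 : ℝ) ≤ d := by exact_mod_cast hd
    rw [one_div, inv_mul_eq_div, le_div_iff₀ (by linarith)]
    nlinarith
  have hcl := St_clique h hs0 (hC y₀ hy₀) (hsize8 y₀ hy₀) hbigR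
  refine ⟨Z, subset_St (hC y₀ hy₀) (hz y₀ hy₀), hcl, hbig, ?_⟩
  intro v hv
  have hZ8 : 8 ≤ Z.card := by
    have h1 := card_le_card (subset_St (hC y₀ hy₀))
    have h2 := hsize8 y₀ hy₀
    rw [← hZ] at h1
    omega
  rcases T5 h hs0 hcl hv hZ8 with h1 | h1
  · exact h1
  · exfalso
    apply hv
    rw [hZ, mem_St]
    refine le_trans (card_le_card ?_) h1
    intro w hw
    rw [mem_filter] at hw ⊢
    exact ⟨subset_St (hC y₀ hy₀) hw.1, hw.2.2⟩

/-- Transitivity of adjacency. -/
theorem adj_mem_cluster {d : ℕ} (hd : 2000 ≤ d) (hs : s = 1 / ((d : ℝ) + 1)) (h : Psd H s)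
    {z x : V} (hzx : H.Adj z x) {Z X : Finset V} (hz : z ∈ Z) (hx : x ∈ X)
    (hZ : Clq H Z) (hX : Clq H X) (hZc : d ^ 2 ≤ 6 * Z.card) (hXc : d ^ 2 ≤ 6 * X.card)
    (hZ2 : ∀ v, v ∉ Z → (Z.filter (H.Adj v)).card ≤ 2)
    (hX2 : ∀ v, v ∉ X → (X.filter (H.Adj v)).card ≤ 2) : x ∈ Z := by
  by_contra hxZ
  have hs0 : 0 < s := by rw [hs]; positivity
  have hdR : (2000 : ℝ) ≤ d := by exact_mod_cast hd
  have hd2 : 6 * (5 * d + 100) ≤ d ^ 2 := by
    have h0 := Nat.mul_le_mul_right d hd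
    rw [sq]
    omega
  have hZ5 : 5 * d + 100 ≤ Z.card := by omega
  have hX5 : 5 * d + 100 ≤ X.card := by omega
  have h1 := hZ2 x hxZ
  by_cases hzX : z ∈ X
  · -- case I
    have hA : (Z \ X).card + 2 ≥ Z.card := by
      have h2 : (Z \ X).card + (Z ∩ X).card = Z.card := card_sdiff_add_card_inter _ _
      have h3 : (Z ∩ X).card ≤ 2 := by
        refine le_trans (card_le_card ?_) h1
        intro w hw
        rw [mem_inter] at hw
        rw [mem_filter]
        refine ⟨hw.1, hX x hx w hw.2 ?_⟩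
        rintro rfl
        exact hxZ hw.1
      omega
    have hB : (X \ Z).card + 2 ≥ X.card := by
      have h2 : (X \ Z).card + (X ∩ Z).card = X.card := card_sdiff_add_card_inter _ _
      have h3 : (X ∩ Z).card ≤ 2 := by
        refine le_trans (card_le_card ?_) h1
        intro w hw
        rw [mem_inter] at hw
        rw [mem_filter]
        refine ⟨hw.2, hX x hx w hw.1 ?_⟩
        rintro rfl
        exact hxZ hw.2
      omega
    refine S5a h hs0 (z := z) (A := Z \ X) (B := X \ Z) (hZ.mono sdiff_subset)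
      (hX.mono sdiff_subset) (by omega) (by omega) ?_ ?_ ?_ ?_
    · intro a ha
      rw [mem_sdiff] at ha
      refine hZ z hz a ha.1 ?_
      rintro rfl
      exact ha.2 hzX
    · intro a ha
      rw [mem_sdiff] at ha
      refine hX z hzX a ha.1 ?_
      rintro rfl
      exact ha.2 hz
    · intro a ha
      rw [mem_sdiff] at ha
      refine ⟨fun h2 => (mem_sdiff.1 h2).2 ha.1, ?_⟩
      have h2 := hX2 a ha.2
      have h3 : (X \ Z).filter (H.Adj a) ⊆ (X.filter (H.Adj a)).erase z := by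
        intro w hw
        rw [mem_filter, mem_sdiff] at hw
        rw [mem_erase, mem_filter]
        refine ⟨?_, hw.1.1, hw.2⟩
        rintro rfl
        exact hw.1.2 hz
      have h4 := card_le_card h3
      have h5 : z ∈ X.filter (H.Adj a) := by
        rw [mem_filter]
        refine ⟨hzX, hZ a ha.1 z hz ?_⟩
        rintro rfl
        exact ha.2 hzX
      rw [card_erase_of_mem h5] at h4
      omega
    · have hA' : 5 * (d : ℝ) + 5 ≤ ((Z \ X).card : ℝ) := by
        exact_mod_cast (by omega : 5 * d + 5 ≤ (Z \ X).card)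
      have hB' : 5 * (d : ℝ) + 5 ≤ ((X \ Z).card : ℝ) := by
        exact_mod_cast (by omega : 5 * d + 5 ≤ (X \ Z).card)
      have h2 : 1 / ((Z \ X).card : ℝ) ≤ 1 / (5 * (d : ℝ) + 5) :=
        one_div_le_one_div_of_le (by linarith) hA'
      have h3 : 3 / ((X \ Z).card : ℝ) ≤ 3 / (5 * (d : ℝ) + 5) :=
        div_le_div_of_nonneg_left (by norm_num) (by linarith) hB'
      have h4 : 1 / (5 * (d : ℝ) + 5) + 3 / (5 * (d : ℝ) + 5) < s := by
        rw [hs, ← add_div, div_lt_div_iff₀ (by linarith) (by linarith)]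
        linarith
      linarith
  · -- case II
    have h1' := hX2 z hzX
    set A := Z.filter (fun w => w ≠ z ∧ ¬ H.Adj x w) with hA
    set B := X.filter (fun w => w ≠ x ∧ ¬ H.Adj z w) with hB
    have hAc : Z.card ≤ A.card + 3 := by
      have h2 : Z ⊆ A ∪ (insert z (Z.filter (H.Adj x))) := by
        intro w hw
        simp only [hA, mem_union, mem_filter, mem_insert]
        tauto
      have h3 := (card_le_card h2).trans (card_union_le _ _)
      have h4 := card_insert_le z (Z.filter (H.Adj x))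
      omega
    have hBc : X.card ≤ B.card + 3 := by
      have h2 : X ⊆ B ∪ (insert x (X.filter (H.Adj z))) := by
        intro w hw
        simp only [hB, mem_union, mem_filter, mem_insert]
        tauto
      have h3 := (card_le_card h2).trans (card_union_le _ _)
      have h4 := card_insert_le x (X.filter (H.Adj z))
      omega
    refine S5b h hs0 hzx (A := A) (B := B) (hZ.mono (filter_subset _ _))
      (hX.mono (filter_subset _ _)) (by omega) (by omega) ?_ ?_ ?_ ?_ ?_
    · intro a ha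
      rw [hA, mem_filter] at ha
      exact hZ z hz a ha.1 (Ne.symm ha.2.1)
    · intro a ha
      rw [hB, mem_filter] at ha
      exact hX x hx a ha.1 (Ne.symm ha.2.1)
    · intro a ha
      rw [hA, mem_filter] at ha
      refine ⟨?_, ha.2.2⟩
      rintro rfl
      exact hxZ ha.1
    · intro a ha
      rw [hB, mem_filter] at ha
      refine ⟨?_, ha.2.2⟩
      rintro rfl
      exact hzX ha.1
    · have hA' : 5 * (d : ℝ) + 5 ≤ (A.card : ℝ) := by
        exact_mod_cast (by omega : 5 * d + 5 ≤ A.card)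
      have hB' : 5 * (d : ℝ) + 5 ≤ (B.card : ℝ) := by
        exact_mod_cast (by omega : 5 * d + 5 ≤ B.card)
      have h2 : 1 / (A.card : ℝ) ≤ 1 / (5 * (d : ℝ) + 5) :=
        one_div_le_one_div_of_le (by linarith) hA'
      have h3 : 1 / (B.card : ℝ) ≤ 1 / (5 * (d : ℝ) + 5) :=
        one_div_le_one_div_of_le (by linarith) hB'
      have h4 : 1 / (5 * (d : ℝ) + 5) + 1 / (5 * (d : ℝ) + 5) < 2 * s := by
        rw [hs, ← add_div, mul_one_div, div_lt_div_iff₀ (by linarith) (by linarith)]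
        linarith
      linarith

end Pool.Agent.H17.Exact
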