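import Mathlib
import Pool.Agent.H17.BruckRyser

/-!
# Seven-regular graphs: the quadratic form `A² - 5 I` is never positive definite
-/

namespace Pool.Agent.H17.Seven

open Finset Classical

variable {V : Type} [Fintype V] (G : SimpleGraph V)

/-- number of common neighbours -/
noncomputable def cn (u v : V) : ℕ := (G.neighborFinset u ∩ G.neighborFinset v).card

/-- the matrix `A² - 5 I` -/
noncomputable def M (u v : V) : ℤ := (cn G u v : ℤ) - if u = v then 5 else 0

/-- the bilinear form -/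
noncomputable def B (f g : V → ℤ) : ℤ := ∑ u, ∑ v, f u * g v * M G u v

/-- indicator function -/
noncomputable def ind (S : Finset V) : V → ℤ := fun v => if v ∈ S then 1 else 0

lemma B_add_left (f g h : V → ℤ) : B G (f + g) h = B G f h + B G g h := by
  simp only [B, Pi.add_apply, add_mul, sum_add_distrib]

lemma B_add_right (f g h : V → ℤ) : B G f (g + h) = B G f g + B G f h := by
  simp only [B, Pi.add_apply, mul_add, add_mul, sum_add_distrib]

lemma B_smul_left (c : ℤ) (f h : V → ℤ) : B G (c • f) h = c * B G f h := by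
  simp only [B, Pi.smul_apply, smul_eq_mul, mul_sum]
  exact sum_congr rfl fun u _ => sum_congr rfl fun v _ => by ring

lemma B_smul_right (c : ℤ) (f h : V → ℤ) : B G f (c • h) = c * B G f h := by
  simp only [B, Pi.smul_apply, smul_eq_mul, mul_sum]
  exact sum_congr rfl fun u _ => sum_congr rfl fun v _ => by ring

lemma cn_comm (u v : V) : cn G u v = cn G v u := by rw [cn, cn, inter_comm]

lemma M_comm (u v : V) : M G u v = M G v u := by
  rw [M, M, cn_comm]; simp only [eq_comm]

lemma B_comm (f g : V → ℤ) : B G f g = B G g f := by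
  rw [B, B, sum_comm]
  exact sum_congr rfl fun u _ => sum_congr rfl fun v _ => by rw [M_comm]; ring

lemma B_ind (S T : Finset V) : B G (ind S) (ind T) = ∑ u ∈ S, ∑ v ∈ T, M G u v := by
  simp only [B, ind]
  rw [← sum_subset (subset_univ S)]
  · refine sum_congr rfl fun u hu => ?_
    rw [← sum_subset (subset_univ T)]
    · exact sum_congr rfl fun v hv => by simp [hu, hv]
    · intro v _ hv; simp [hv]
  · intro u _ hu; simp [hu]

lemma sum_cn_eq {R : Type*} [CommRing R] (f : V → R) :
    ∑ v, (∑ w ∈ G.neighborFinset v, f w) ^ 2 = ∑ u, ∑ w, f u * f w * (cn G u w : R) := by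
  have h1 : ∀ v, (∑ w ∈ G.neighborFinset v, f w) ^ 2 =
      ∑ u, ∑ w, if u ∈ G.neighborFinset v ∧ w ∈ G.neighborFinset v then f u * f w else 0 := by
    intro v
    rw [sq, sum_mul_sum]
    rw [← sum_subset (subset_univ (G.neighborFinset v))]
    · refine sum_congr rfl fun u hu => ?_
      rw [← sum_subset (subset_univ (G.neighborFinset v))]
      · exact sum_congr rfl fun w hw => by simp only [hu, hw, and_self, if_true]
      · intro w _ hw
        simp only [hw, and_false, if_false]
    · intro u _ hu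
      exact sum_eq_zero fun w _ => by simp only [hu, false_and, if_false]
  simp only [h1]
  rw [sum_comm]
  refine sum_congr rfl fun u _ => ?_
  rw [sum_comm]
  refine sum_congr rfl fun w _ => ?_
  rw [← sum_filter, sum_const, nsmul_eq_mul, mul_comm, cn]
  congr 3
  ext v
  simp only [mem_filter, mem_univ, true_and, mem_inter, SimpleGraph.mem_neighborFinset]
  rw [G.adj_comm u v, G.adj_comm w v]

lemma B_self (f : V → ℤ) :
    B G f f = ∑ v, (∑ w ∈ G.neighborFinset v, f w) ^ 2 - 5 * ∑ v, f v ^ 2 := by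
  rw [sum_cn_eq, B]
  simp only [M, mul_sub, sum_sub_distrib]
  congr 1
  rw [mul_sum]
  refine sum_congr rfl fun u _ => ?_
  rw [sum_eq_single u]
  · simp; ring
  · intro w _ hw; simp [Ne.symm hw]
  · simp

variable (hreg : ∀ v, G.degree v = 7)
variable (hPD : ∀ f : V → ℤ, f ≠ 0 → 0 < B G f f)

include hreg in
lemma cn_self (v : V) : cn G v v = 7 := by
  rw [cn, inter_self, SimpleGraph.card_neighborFinset_eq_degree, hreg]

include hreg in
lemma M_self (v : V) : M G v v = 2 := by
  rw [M, cn_self G hreg]; simp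

lemma M_ne {u v : V} (h : u ≠ v) : M G u v = cn G u v := by
  rw [M]; simp [h]

include hreg hPD in
lemma cn_le_one {u v : V} (h : u ≠ v) : cn G u v ≤ 1 := by
  have h1 := hPD (ind {u} + (-1 : ℤ) • ind {v}) (fun h0 => by
    have := congrFun h0 u
    simp [ind, h] at this)
  simp only [B_add_left, B_add_right, B_smul_left, B_smul_right, B_ind, sum_singleton] at h1
  rw [M_self G hreg, M_self G hreg, M_comm G v u, M_ne G h] at h1
  have : (cn G u v : ℤ) < 2 := by linarith
  omega

lemma one_le_cn {u v y : V} (hu : u ∈ G.neighborFinset y) (hv : v ∈ G.neighborFinset y) :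
    1 ≤ cn G u v := by
  rw [cn, Nat.succ_le_iff, card_pos]
  refine ⟨y, ?_⟩
  simp only [mem_inter, SimpleGraph.mem_neighborFinset] at *
  exact ⟨hu.symm, hv.symm⟩

include hreg hPD in
lemma cn_eq_one {u v y : V} (h : u ≠ v) (hu : u ∈ G.neighborFinset y)
    (hv : v ∈ G.neighborFinset y) : cn G u v = 1 :=
  le_antisymm (cn_le_one G hreg hPD h) (one_le_cn G hu hv)

include hreg hPD in
/-- two distinct vertices have at most one common neighbour -/
lemma common_unique {u v y z : V} (h : u ≠ v) (hyu : G.Adj y u) (hyv : G.Adj y v)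
    (hzu : G.Adj z u) (hzv : G.Adj z v) : y = z := by
  by_contra hne
  have h1 := cn_le_one G hreg hPD h
  rw [cn] at h1
  have h2 : ({y, z} : Finset V) ⊆ G.neighborFinset u ∩ G.neighborFinset v := by
    intro w hw
    simp only [mem_insert, mem_singleton] at hw
    simp only [mem_inter, SimpleGraph.mem_neighborFinset]
    rcases hw with rfl | rfl
    · exact ⟨hyu.symm, hyv.symm⟩
    · exact ⟨hzu.symm, hzv.symm⟩
  have h3 := card_le_card h2
  rw [card_pair hne] at h3
  omega

/-- `A x y`: the neighbours of `y` which have a common neighbour with `x`. -/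
noncomputable def AA (x y : V) : Finset V := (G.neighborFinset y).filter fun z => cn G x z = 1

/-- its cardinality -/
noncomputable def a (x y : V) : ℕ := (AA G x y).card

lemma a_eq_sum (hc : ∀ u v, u ≠ v → cn G u v ≤ 1) {x y : V} (hxy : ¬ G.Adj x y) :
    a G x y = ∑ z ∈ G.neighborFinset y, cn G x z := by
  rw [a, AA, card_filter]
  refine sum_congr rfl fun z hz => ?_
  have hzx : x ≠ z := by
    rintro rfl
    rw [SimpleGraph.mem_neighborFinset] at hz
    exact hxy hz.symm
  have := hc x z hzx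
  split_ifs with h <;> omega

lemma sum_cn_symm (x y : V) :
    ∑ z ∈ G.neighborFinset y, cn G x z = ∑ z ∈ G.neighborFinset x, cn G y z := by
  have h : ∀ x y : V, ∑ z ∈ G.neighborFinset y, cn G x z =
      ∑ z ∈ G.neighborFinset y, ∑ m ∈ G.neighborFinset x, if G.Adj m z then 1 else 0 := by
    intro x y
    refine sum_congr rfl fun z _ => ?_
    rw [cn, ← card_filter]
    congr 1
    ext m
    simp only [mem_inter, mem_filter, SimpleGraph.mem_neighborFinset]
    rw [G.adj_comm z m]
  rw [h, h, sum_comm]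
  exact sum_congr rfl fun u _ => sum_congr rfl fun v _ => by rw [G.adj_comm]

lemma a_symm (hc : ∀ u v, u ≠ v → cn G u v ≤ 1) {x y : V} (hxy : ¬ G.Adj x y) :
    a G x y = a G y x := by
  rw [a_eq_sum G hc hxy, a_eq_sum G hc (fun h => hxy h.symm), sum_cn_symm]

include hreg in
lemma sum_cn_all (z : V) : ∑ x, cn G x z = 49 := by
  have h1 : ∀ x, cn G x z = ∑ m ∈ G.neighborFinset z, if G.Adj m x then 1 else 0 := by
    intro x
    rw [cn, ← card_filter]
    congr 1
    ext m
    simp only [mem_inter, mem_filter, SimpleGraph.mem_neighborFinset]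
    rw [G.adj_comm x m, and_comm]
  simp only [h1]
  rw [sum_comm]
  have h2 : ∀ m ∈ G.neighborFinset z, (∑ x, if G.Adj m x then 1 else 0) = 7 := by
    intro m _
    rw [← card_filter, ← hreg m, ← SimpleGraph.card_neighborFinset_eq_degree,
      SimpleGraph.neighborFinset_eq_filter]
  rw [sum_congr rfl h2, sum_const, SimpleGraph.card_neighborFinset_eq_degree, hreg]
  norm_num

include hreg hPD in
lemma sum_a (y : V) : ∑ x ∈ univ.filter (fun x => ¬ G.Adj x y), a G x y = 252 := by
  have hc : ∀ u v, u ≠ v → cn G u v ≤ 1 := fun u v h => cn_le_one G hreg hPD h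
  have h1 : ∑ x, ∑ z ∈ G.neighborFinset y, cn G x z = 343 := by
    rw [sum_comm, sum_congr rfl fun z _ => sum_cn_all G hreg z, sum_const,
      SimpleGraph.card_neighborFinset_eq_degree, hreg]
    norm_num
  rw [← sum_filter_add_sum_filter_not univ (fun x => G.Adj x y)] at h1
  have h2 : ∑ x ∈ univ.filter (fun x => G.Adj x y), ∑ z ∈ G.neighborFinset y, cn G x z = 91 := by
    have h3 : ∀ x ∈ univ.filter (fun x => G.Adj x y),
        ∑ z ∈ G.neighborFinset y, cn G x z = 13 := by
      intro x hx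
      have hxy : x ∈ G.neighborFinset y := by
        rw [SimpleGraph.mem_neighborFinset]
        simpa using (mem_filter.1 hx).2.symm
      rw [← add_sum_erase _ _ hxy, cn_self G hreg]
      have h4 : ∀ z ∈ (G.neighborFinset y).erase x, cn G x z = 1 := by
        intro z hz
        rw [mem_erase] at hz
        exact cn_eq_one G hreg hPD (Ne.symm hz.1) hxy hz.2
      rw [sum_congr rfl h4, sum_const, card_erase_of_mem hxy,
        SimpleGraph.card_neighborFinset_eq_degree, hreg]
      norm_num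
    rw [sum_congr rfl h3, sum_const]
    have h5 : (univ.filter (fun x => G.Adj x y)) = G.neighborFinset y := by
      ext x
      simp only [mem_filter, mem_univ, true_and, SimpleGraph.mem_neighborFinset]
      exact G.adj_comm x y
    rw [h5, SimpleGraph.card_neighborFinset_eq_degree, hreg]
    norm_num
  rw [h2] at h1
  have h6 : ∑ x ∈ univ.filter (fun x => ¬ G.Adj x y), a G x y =
      ∑ x ∈ univ.filter (fun x => ¬ G.Adj x y), ∑ z ∈ G.neighborFinset y, cn G x z :=
    sum_congr rfl fun x hx => a_eq_sum G hc (mem_filter.1 hx).2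
  rw [h6]
  omega

/-- The key inequality. -/
lemma key_quad (hreg : ∀ v, G.degree v = 7) (hPD : ∀ f : V → ℤ, f ≠ 0 → 0 < B G f f)
    {x w y : V} (hxw : x ≠ w) (hx : ¬ G.Adj x y) (hw : ¬ G.Adj w y) (α β : ℤ)
    (hαβ : α ≠ 0 ∨ β ≠ 0) :
    0 < α ^ 2 * ((a G x y : ℤ) - 4) ^ 2 + β ^ 2 * ((a G w y : ℤ) - 4) ^ 2 +
      2 * α * β * (8 * ((cn G x w : ℤ) - ((AA G x y ∩ AA G w y).card : ℤ)) +
        (a G x y : ℤ) * (a G w y : ℤ)) := by
  set N := G.neighborFinset y with hN
  set A := AA G x y with hA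
  set A' := AA G w y with hA'
  have hxN : x ∉ N := by
    rw [hN, SimpleGraph.mem_neighborFinset]; exact fun h => hx h.symm
  have hwN : w ∉ N := by
    rw [hN, SimpleGraph.mem_neighborFinset]; exact fun h => hw h.symm
  have hAN : A ⊆ N := filter_subset _ _
  have hA'N : A' ⊆ N := filter_subset _ _
  have hNcard : N.card = 7 := by
    rw [hN, SimpleGraph.card_neighborFinset_eq_degree, hreg]
  -- values of the form
  have hMN : ∀ z ∈ N, ∀ z' ∈ N, M G z z' = 1 + if z = z' then 1 else 0 := by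
    intro z hz z' hz'
    by_cases h : z = z'
    · subst h; rw [M_self G hreg]; simp
    · rw [M_ne G h, cn_eq_one G hreg hPD h hz hz']; simp [h]
  have hTT : ∀ T T' : Finset V, T ⊆ N → T' ⊆ N →
      B G (ind T) (ind T') = (T.card : ℤ) * T'.card + (T ∩ T').card := by
    intro T T' hT hT'
    rw [B_ind]
    have h1 : ∀ u ∈ T, ∑ v ∈ T', M G u v = T'.card + if u ∈ T' then 1 else 0 := by
      intro u hu
      rw [sum_congr rfl fun v hv => hMN u (hT hu) v (hT' hv), sum_add_distrib]
      simp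
    rw [sum_congr rfl h1, sum_add_distrib, sum_const, nsmul_eq_mul]
    congr 1
    rw [sum_ite_mem]
    simp
  have hXT : ∀ (x : V), x ∉ N → ∀ T ⊆ N,
      B G (ind {x}) (ind T) = ((T ∩ AA G x y).card : ℤ) := by
    intro x hxN T hT
    rw [B_ind, sum_singleton]
    have h1 : ∀ v ∈ T, M G x v = if v ∈ AA G x y then 1 else 0 := by
      intro v hv
      have hne : x ≠ v := fun h => hxN (h ▸ hT hv)
      rw [M_ne G hne]
      have h2 := cn_le_one G hreg hPD hne
      by_cases h3 : cn G x v = 1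
      · rw [if_pos, h3]
        · rfl
        · exact mem_filter.2 ⟨hT hv, h3⟩
      · rw [if_neg]
        · have : cn G x v = 0 := by omega
          rw [this]; rfl
        · intro h4
          exact h3 (mem_filter.1 h4).2
    rw [sum_congr rfl h1, sum_ite_mem]
    simp
  have hself : ∀ x : V, B G (ind {x}) (ind {x}) = 2 := by
    intro x
    rw [B_ind, sum_singleton, sum_singleton, M_self G hreg]
  have hXW : B G (ind {x}) (ind {w}) = cn G x w := by
    rw [B_ind, sum_singleton, sum_singleton, M_ne G hxw]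
  have e1 : B G (ind {x}) (ind A) = a G x y := by
    rw [hXT x hxN A hAN, inter_self]; rfl
  have e2 : B G (ind {x}) (ind A') = (A ∩ A').card := by
    rw [hXT x hxN A' hA'N, inter_comm]
  have e3 : B G (ind {x}) (ind N) = a G x y := by
    rw [hXT x hxN N subset_rfl, inter_eq_right.2 hAN]; rfl
  have e4 : B G (ind {w}) (ind A) = (A ∩ A').card := by
    rw [hXT w hwN A hAN]
  have e5 : B G (ind {w}) (ind A') = a G w y := by
    rw [hXT w hwN A' hA'N, inter_self]; rfl
  have e6 : B G (ind {w}) (ind N) = a G w y := by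
    rw [hXT w hwN N subset_rfl, inter_eq_right.2 hA'N]; rfl
  have e7 : B G (ind A) (ind A) = (a G x y : ℤ) * a G x y + a G x y := by
    rw [hTT A A hAN hAN, inter_self]; rfl
  have e8 : B G (ind A) (ind A') = (a G x y : ℤ) * a G w y + (A ∩ A').card := by
    rw [hTT A A' hAN hA'N]; rfl
  have e9 : B G (ind A) (ind N) = (a G x y : ℤ) * 7 + a G x y := by
    rw [hTT A N hAN subset_rfl, inter_eq_left.2 hAN, hNcard]; rfl
  have e10 : B G (ind A') (ind A') = (a G w y : ℤ) * a G w y + a G w y := by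
    rw [hTT A' A' hA'N hA'N, inter_self]; rfl
  have e11 : B G (ind A') (ind N) = (a G w y : ℤ) * 7 + a G w y := by
    rw [hTT A' N hA'N subset_rfl, inter_eq_left.2 hA'N, hNcard]; rfl
  have e12 : B G (ind N) (ind N) = 56 := by
    rw [hTT N N subset_rfl subset_rfl, inter_self, hNcard]; norm_num
  -- test vector
  set c : ℤ := α * a G x y + β * a G w y with hc
  have hpos := hPD ((8 * α) • ind {x} + ((8 * β) • ind {w} + ((-8 * α) • ind A +
    ((-8 * β) • ind A' + c • ind N)))) (by
      intro h0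
      rcases hαβ with h | h
      · have := congrFun h0 x
        have hxA : x ∉ A := fun h => hxN (hAN h)
        have hxA' : x ∉ A' := fun h => hxN (hA'N h)
        simp [ind, hxw, hxN, hxA, hxA'] at this
        exact h this
      · have := congrFun h0 w
        have hwA : w ∉ A := fun h => hwN (hAN h)
        have hwA' : w ∉ A' := fun h => hwN (hA'N h)
        simp [ind, hxw.symm, hwN, hwA, hwA'] at this
        exact h this)
  simp only [B_add_left, B_add_right, B_smul_left, B_smul_right] at hpos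
  rw [B_comm G (ind {w}) (ind {x}), B_comm G (ind A) (ind {x}), B_comm G (ind A) (ind {w}),
    B_comm G (ind A') (ind {x}), B_comm G (ind A') (ind {w}), B_comm G (ind A') (ind A),
    B_comm G (ind N) (ind {x}), B_comm G (ind N) (ind {w}), B_comm G (ind N) (ind A),
    B_comm G (ind N) (ind A'), hself, hself, hXW, e1, e2, e3, e4, e5, e6, e7, e8, e9, e10,
    e11, e12] at hpos
  rw [hc] at hpos
  nlinarith [hpos]

lemma a_le_seven (hreg : ∀ v, G.degree v = 7) (x y : V) : a G x y ≤ 7 := by
  rw [a, AA]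
  refine (card_filter_le _ _).trans ?_
  rw [SimpleGraph.card_neighborFinset_eq_degree, hreg]

lemma exists_other (hreg : ∀ v, G.degree v = 7) (hPD : ∀ f : V → ℤ, f ≠ 0 → 0 < B G f f)
    (x y : V) : ∃ w, x ≠ w ∧ ¬ G.Adj w y ∧ 1 ≤ a G w y := by
  by_contra hcon
  push Not at hcon
  have h1 := sum_a G hreg hPD y
  have h2 : ∑ w ∈ univ.filter (fun x => ¬ G.Adj x y), a G w y ≤
      ∑ w ∈ univ.filter (fun x => ¬ G.Adj x y), if w = x then 7 else 0 := by
    refine sum_le_sum fun w hw => ?_
    split_ifs with h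
    · exact a_le_seven G hreg w y
    · have := hcon w (Ne.symm h) (mem_filter.1 hw).2
      omega
  have h3 : ∑ w ∈ univ.filter (fun x => ¬ G.Adj x y), (if w = x then 7 else 0) ≤ 7 := by
    rw [sum_ite_eq']
    split_ifs <;> omega
  omega

lemma key (hreg : ∀ v, G.degree v = 7) (hPD : ∀ f : V → ℤ, f ≠ 0 → 0 < B G f f)
    {x w y : V} (hxw : x ≠ w) (hx : ¬ G.Adj x y) (hw : ¬ G.Adj w y) :
    (8 * ((cn G x w : ℤ) - ((AA G x y ∩ AA G w y).card : ℤ)) +
        (a G x y : ℤ) * (a G w y : ℤ)) ^ 2 <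
      ((a G x y : ℤ) - 4) ^ 2 * ((a G w y : ℤ) - 4) ^ 2 := by
  set s := 8 * ((cn G x w : ℤ) - ((AA G x y ∩ AA G w y).card : ℤ)) +
        (a G x y : ℤ) * (a G w y : ℤ) with hs
  have h0 := key_quad G hreg hPD hxw hx hw 0 1 (Or.inr one_ne_zero)
  simp only [ne_eq, OfNat.ofNat_ne_zero, not_false_eq_true, zero_pow, zero_mul, one_pow, one_mul,
    zero_add, mul_zero, add_zero] at h0
  set q := ((a G w y : ℤ) - 4) ^ 2 with hq
  set p := ((a G x y : ℤ) - 4) ^ 2 with hp
  have h1 := key_quad G hreg hPD hxw hx hw q (-s) (Or.inl h0.ne')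
  rw [← hs, ← hp, ← hq] at h1
  have h2 : q ^ 2 * p + (-s) ^ 2 * q + 2 * q * (-s) * s = q * (p * q - s ^ 2) := by ring
  rw [h2] at h1
  have h3 := (mul_pos_iff_of_pos_left h0).1 h1
  linarith

/-- possible values of `a` -/
lemma a_values (hreg : ∀ v, G.degree v = 7) (hPD : ∀ f : V → ℤ, f ≠ 0 → 0 < B G f f)
    {x y : V} (hx : ¬ G.Adj x y) :
    a G x y = 0 ∨ a G x y = 1 ∨ a G x y = 2 ∨ a G x y = 6 ∨ a G x y = 7 := by
  obtain ⟨w, hxw, hw, haw⟩ := exists_other G hreg hPD x y
  have hk := key G hreg hPD hxw hx hw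
  have h7 := a_le_seven G hreg x y
  have h7' := a_le_seven G hreg w y
  generalize hk' : ((cn G x w : ℤ) - ((AA G x y ∩ AA G w y).card : ℤ)) = k at hk
  generalize a G x y = n at *
  generalize a G w y = m at *
  have key2 : ∀ t r : ℤ, t ^ 2 < r ^ 2 → 0 ≤ r → -r < t ∧ t < r := by
    intro t r h hr
    exact abs_lt_of_sq_lt_sq' h hr
  interval_cases n
  · simp
  · simp
  · simp
  · exfalso
    interval_cases m <;> norm_num at hk
    · obtain ⟨h1, h2⟩ := key2 (8 * k + 3) 3 (by nlinarith) (by norm_num); omega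
    · obtain ⟨h1, h2⟩ := key2 (8 * k + 6) 2 (by nlinarith) (by norm_num); omega
    · obtain ⟨h1, h2⟩ := key2 (8 * k + 9) 1 (by nlinarith) (by norm_num); omega
    · nlinarith [sq_nonneg (8 * k + 12)]
    · obtain ⟨h1, h2⟩ := key2 (8 * k + 15) 1 (by nlinarith) (by norm_num); omega
    · obtain ⟨h1, h2⟩ := key2 (8 * k + 18) 2 (by nlinarith) (by norm_num); omega
    · obtain ⟨h1, h2⟩ := key2 (8 * k + 21) 3 (by nlinarith) (by norm_num); omega
  · exfalso
    norm_num at hk
    nlinarith [sq_nonneg (8 * k + 4 * m)]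
  · exfalso
    interval_cases m <;> norm_num at hk
    · obtain ⟨h1, h2⟩ := key2 (8 * k + 5) 3 (by nlinarith) (by norm_num); omega
    · obtain ⟨h1, h2⟩ := key2 (8 * k + 10) 2 (by nlinarith) (by norm_num); omega
    · obtain ⟨h1, h2⟩ := key2 (8 * k + 15) 1 (by nlinarith) (by norm_num); omega
    · nlinarith [sq_nonneg (8 * k + 20)]
    · obtain ⟨h1, h2⟩ := key2 (8 * k + 25) 1 (by nlinarith) (by norm_num); omega
    · obtain ⟨h1, h2⟩ := key2 (8 * k + 30) 2 (by nlinarith) (by norm_num); omega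
    · obtain ⟨h1, h2⟩ := key2 (8 * k + 35) 3 (by nlinarith) (by norm_num); omega
  · simp
  · simp

/-- at most one exceptional point for each line -/
lemma exc_unique (hreg : ∀ v, G.degree v = 7) (hPD : ∀ f : V → ℤ, f ≠ 0 → 0 < B G f f)
    {x w y : V} (hx : ¬ G.Adj x y) (hw : ¬ G.Adj w y)
    (hax : a G x y = 2 ∨ a G x y = 6) (haw : a G w y = 2 ∨ a G w y = 6) : x = w := by
  by_contra hxw
  have hk := key G hreg hPD hxw hx hw
  generalize hk' : ((cn G x w : ℤ) - ((AA G x y ∩ AA G w y).card : ℤ)) = k at hk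
  have key2 : ∀ t r : ℤ, t ^ 2 < r ^ 2 → 0 ≤ r → -r < t ∧ t < r := by
    intro t r h hr
    exact abs_lt_of_sq_lt_sq' h hr
  rcases hax with h1 | h1 <;> rcases haw with h2 | h2 <;> rw [h1, h2] at hk <;> norm_num at hk
  · obtain ⟨h1, h2⟩ := key2 (8 * k + 4) 4 (by nlinarith) (by norm_num); omega
  · obtain ⟨h1, h2⟩ := key2 (8 * k + 12) 4 (by nlinarith) (by norm_num); omega
  · obtain ⟨h1, h2⟩ := key2 (8 * k + 12) 4 (by nlinarith) (by norm_num); omega
  · obtain ⟨h1, h2⟩ := key2 (8 * k + 36) 4 (by nlinarith) (by norm_num); omega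

/-- second neighbourhood -/
noncomputable def N2 (w : V) : Finset V := univ.filter fun z => z ≠ w ∧ cn G w z = 1

lemma card_N2 (hreg : ∀ v, G.degree v = 7) (hPD : ∀ f : V → ℤ, f ≠ 0 → 0 < B G f f) (w : V) :
    (N2 G w).card = 42 := by
  have h1 := sum_cn_all G hreg w
  rw [← add_sum_erase _ _ (mem_univ w), cn_self G hreg] at h1
  have h2 : ∑ x ∈ univ.erase w, cn G x w = (N2 G w).card := by
    rw [N2, card_filter, ← sum_subset (subset_univ (univ.erase w))]
    · refine sum_congr rfl fun x hx => ?_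
      rw [mem_erase] at hx
      have := cn_le_one G hreg hPD hx.1
      rw [cn_comm G w x]
      by_cases h : cn G x w = 1
      · simp [h, hx.1]
      · have h0 : cn G x w = 0 := by omega
        simp [h0]
    · intro x _ hx
      simp only [mem_erase, mem_univ, and_true, not_not] at hx
      simp [hx]
  omega

lemma mem_N2 {w z : V} : z ∈ N2 G w ↔ z ≠ w ∧ cn G w z = 1 := by
  simp [N2]

lemma sum_sq_a (hreg : ∀ v, G.degree v = 7) (hPD : ∀ f : V → ℤ, f ≠ 0 → 0 < B G f f) (w : V) :
    840 < ∑ v ∈ univ.filter (fun v => ¬ G.Adj v w), (a G v w : ℤ) ^ 2 := by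
  have hc : ∀ u v, u ≠ v → cn G u v ≤ 1 := fun u v h => cn_le_one G hreg hPD h
  have hpos := hPD ((-21 : ℤ) • ind {w} + ind (N2 G w)) (fun h0 => by
    have := congrFun h0 w
    simp [ind, N2] at this)
  rw [B_self] at hpos
  set f : V → ℤ := (-21 : ℤ) • ind {w} + ind (N2 G w) with hf
  have hfw : f w = -21 := by simp [hf, ind, N2]
  have hfz : ∀ z, z ≠ w → f z = cn G w z := by
    intro z hz
    have := hc w z (Ne.symm hz)
    by_cases h : cn G w z = 1
    · simp [hf, ind, N2, hz, h]
    · have h0 : cn G w z = 0 := by omega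
      simp [hf, ind, N2, hz, h0]
  have hsq : ∑ v, f v ^ 2 = 483 := by
    rw [← add_sum_erase _ _ (mem_univ w), hfw]
    have h2 : ∑ x ∈ univ.erase w, f x ^ 2 = (N2 G w).card := by
      rw [N2, card_filter, Nat.cast_sum, ← sum_subset (subset_univ (univ.erase w))]
      · refine sum_congr rfl fun x hx => ?_
        rw [mem_erase] at hx
        rw [hfz x hx.1]
        have := hc w x (Ne.symm hx.1)
        by_cases h : cn G w x = 1
        · simp [h, hx.1]
        · have h0 : cn G w x = 0 := by omega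
          simp [h0]
      · intro x _ hx
        simp only [mem_erase, mem_univ, and_true, not_not] at hx
        simp [hx]
    rw [h2, card_N2 G hreg hPD w]
    norm_num
  have hv1 : ∀ v, G.Adj v w → ∑ u ∈ G.neighborFinset v, f u = -15 := by
    intro v hv
    have hw : w ∈ G.neighborFinset v := by rw [SimpleGraph.mem_neighborFinset]; exact hv
    rw [← add_sum_erase _ _ hw, hfw]
    have h4 : ∀ z ∈ (G.neighborFinset v).erase w, f z = 1 := by
      intro z hz
      rw [mem_erase] at hz
      rw [hfz z hz.1, cn_eq_one G hreg hPD (Ne.symm hz.1) hw hz.2]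
      rfl
    rw [sum_congr rfl h4, sum_const, card_erase_of_mem hw,
        SimpleGraph.card_neighborFinset_eq_degree, hreg]
    norm_num
  have hv2 : ∀ v, ¬ G.Adj v w → ∑ u ∈ G.neighborFinset v, f u = a G v w := by
    intro v hv
    rw [a_symm G hc hv, a_eq_sum G hc (fun h => hv h.symm), Nat.cast_sum]
    refine sum_congr rfl fun z hz => ?_
    apply hfz
    rintro rfl
    rw [SimpleGraph.mem_neighborFinset] at hz
    exact hv hz
  have hsum : ∑ v, (∑ u ∈ G.neighborFinset v, f u) ^ 2 =
      1575 + ∑ v ∈ univ.filter (fun v => ¬ G.Adj v w), (a G v w : ℤ) ^ 2 := by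
    rw [← sum_filter_add_sum_filter_not univ (fun x => G.Adj x w)]
    congr 1
    · rw [sum_congr rfl (g := fun _ => (225 : ℤ))]
      · rw [sum_const]
        have h5 : (univ.filter (fun x => G.Adj x w)) = G.neighborFinset w := by
          ext x
          simp only [mem_filter, mem_univ, true_and, SimpleGraph.mem_neighborFinset]
          exact G.adj_comm x w
        rw [h5, SimpleGraph.card_neighborFinset_eq_degree, hreg]
        norm_num
      · intro v hv
        rw [hv1 v (mem_filter.1 hv).2]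
        norm_num
    · exact sum_congr rfl fun v hv => by rw [hv2 v (mem_filter.1 hv).2]
  rw [hsum, hsq] at hpos
  linarith

/-- the lines all of whose points are collinear with `w` -/
lemma two_le_card_full (hreg : ∀ v, G.degree v = 7)
    (hPD : ∀ f : V → ℤ, f ≠ 0 → 0 < B G f f) (w : V) :
    2 ≤ (univ.filter (fun v => ¬ G.Adj v w ∧ a G v w = 7)).card := by
  have h1 := sum_sq_a G hreg hPD w
  have h2 := sum_a G hreg hPD w
  have h2' : ∑ v ∈ univ.filter (fun v => ¬ G.Adj v w), (a G v w : ℤ) = 252 := by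
    exact_mod_cast h2
  have h3 : 588 < ∑ v ∈ univ.filter (fun v => ¬ G.Adj v w),
      ((a G v w : ℤ) ^ 2 - a G v w) := by
    rw [sum_sub_distrib]; linarith
  have hval : ∀ v ∈ univ.filter (fun v => ¬ G.Adj v w), ((a G v w : ℤ) ^ 2 - a G v w) ≤
      (if a G v w = 7 then 42 else 0) + (if a G v w = 2 ∨ a G v w = 6 then 30 else 0) := by
    intro v hv
    rcases a_values G hreg hPD (mem_filter.1 hv).2 with h | h | h | h | h <;> rw [h] <;> norm_num
  have h4 := sum_le_sum hval
  rw [sum_add_distrib] at h4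
  have h5 : ∑ v ∈ univ.filter (fun v => ¬ G.Adj v w),
      (if a G v w = 2 ∨ a G v w = 6 then (30 : ℤ) else 0) ≤ 30 := by
    rw [← sum_filter, sum_const, nsmul_eq_mul]
    have : (filter (fun v => a G v w = 2 ∨ a G v w = 6)
        (univ.filter (fun v => ¬ G.Adj v w))).card ≤ 1 := by
      rw [card_le_one]
      intro x hx z hz
      simp only [mem_filter, mem_univ, true_and] at hx hz
      exact exc_unique G hreg hPD hx.1 hz.1 hx.2 hz.2
    have : ((filter (fun v => a G v w = 2 ∨ a G v w = 6)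
        (univ.filter (fun v => ¬ G.Adj v w))).card : ℤ) ≤ 1 := by exact_mod_cast this
    linarith
  have h6 : ∑ v ∈ univ.filter (fun v => ¬ G.Adj v w), (if a G v w = 7 then (42 : ℤ) else 0) =
      42 * (univ.filter (fun v => ¬ G.Adj v w ∧ a G v w = 7)).card := by
    rw [← sum_filter, sum_const, nsmul_eq_mul, filter_filter]
    ring
  have h7 : (13 : ℤ) < (univ.filter (fun v => ¬ G.Adj v w ∧ a G v w = 7)).card := by
    by_contra hcon
    push Not at hcon
    linarith
  have : 13 < (univ.filter (fun v => ¬ G.Adj v w ∧ a G v w = 7)).card := by exact_mod_cast h7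
  omega

/-- two distinct lines through `w` contain pairs of collinear points -/
lemma a_ge_six_exists (hreg : ∀ v, G.degree v = 7)
    (hPD : ∀ f : V → ℤ, f ≠ 0 → 0 < B G f f) {w y y' : V} (hyw : G.Adj y w) (hy'w : G.Adj y' w)
    (hyy' : y ≠ y') : ∃ z, G.Adj y z ∧ z ≠ w ∧ 6 ≤ a G z y' := by
  have hc : ∀ u v, u ≠ v → cn G u v ≤ 1 := fun u v h => cn_le_one G hreg hPD h
  obtain ⟨l₁, hl₁, l₂, hl₂, hl⟩ := one_lt_card.1 (two_le_card_full G hreg hPD w)
  simp only [mem_filter, mem_univ, true_and] at hl₁ hl₂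
  -- for such a line, every line through w meets it
  have hmeet : ∀ l, ¬ G.Adj l w → a G l w = 7 → ∀ m, G.Adj m w → ∃ z, G.Adj m z ∧ G.Adj l z := by
    intro l hlw hal m hm
    have h1 : (AA G l w) = G.neighborFinset w := by
      apply eq_of_subset_of_card_le (filter_subset _ _)
      rw [SimpleGraph.card_neighborFinset_eq_degree, hreg]
      exact hal.ge
    have h2 : m ∈ AA G l w := by
      rw [h1, SimpleGraph.mem_neighborFinset]; exact hm.symm
    have h3 := (mem_filter.1 h2).2
    rw [cn] at h3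
    have h4 : 0 < (G.neighborFinset l ∩ G.neighborFinset m).card := by omega
    obtain ⟨z, hz⟩ := card_pos.1 h4
    simp only [mem_inter, SimpleGraph.mem_neighborFinset] at hz
    exact ⟨z, hz.2, hz.1⟩
  obtain ⟨z₁, hyz₁, hlz₁⟩ := hmeet l₁ hl₁.1 hl₁.2 y hyw
  obtain ⟨u₁, hyu₁, hlu₁⟩ := hmeet l₁ hl₁.1 hl₁.2 y' hy'w
  obtain ⟨z₂, hyz₂, hlz₂⟩ := hmeet l₂ hl₂.1 hl₂.2 y hyw
  obtain ⟨u₂, hyu₂, hlu₂⟩ := hmeet l₂ hl₂.1 hl₂.2 y' hy'w
  have hz₁w : z₁ ≠ w := by rintro rfl; exact hl₁.1 hlz₁
  have hu₁w : u₁ ≠ w := by rintro rfl; exact hl₁.1 hlu₁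
  have hz₂w : z₂ ≠ w := by rintro rfl; exact hl₂.1 hlz₂
  have hu₂w : u₂ ≠ w := by rintro rfl; exact hl₂.1 hlu₂
  -- points on y other than w are not on y'
  have hoff : ∀ z, G.Adj y z → z ≠ w → ¬ G.Adj z y' := by
    intro z hz hzw hzy'
    exact hyy' (common_unique G hreg hPD hzw hz hyw hzy'.symm hy'w)
  have hne₁ : z₁ ≠ u₁ := by
    rintro rfl; exact hoff z₁ hyz₁ hz₁w hyu₁.symm
  have hne₂ : z₂ ≠ u₂ := by
    rintro rfl; exact hoff z₂ hyz₂ hz₂w hyu₂.symm
  have hw' : w ∈ G.neighborFinset y' := by rw [SimpleGraph.mem_neighborFinset]; exact hy'w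
  have hcw : ∀ z, G.Adj y z → z ≠ w → w ∈ AA G z y' := by
    intro z hz hzw
    refine mem_filter.2 ⟨hw', ?_⟩
    exact cn_eq_one G hreg hPD hzw (y := y) (by rw [SimpleGraph.mem_neighborFinset]; exact hz)
      (by rw [SimpleGraph.mem_neighborFinset]; exact hyw)
  have hcu : ∀ z u l, G.Adj l z → G.Adj l u → z ≠ u → G.Adj y' u → u ∈ AA G z y' := by
    intro z u l hlz hlu hzu hu
    refine mem_filter.2 ⟨by rw [SimpleGraph.mem_neighborFinset]; exact hu, ?_⟩
    exact cn_eq_one G hreg hPD hzu (y := l) (by rw [SimpleGraph.mem_neighborFinset]; exact hlz)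
      (by rw [SimpleGraph.mem_neighborFinset]; exact hlu)
  by_contra hcon
  push Not at hcon
  have hA₁ : 2 ≤ a G z₁ y' := by
    rw [a, Nat.succ_le_iff, one_lt_card]
    exact ⟨w, hcw z₁ hyz₁ hz₁w, u₁, hcu z₁ u₁ l₁ hlz₁ hlu₁ hne₁ hyu₁, hu₁w.symm⟩
  have hA₂ : 2 ≤ a G z₂ y' := by
    rw [a, Nat.succ_le_iff, one_lt_card]
    exact ⟨w, hcw z₂ hyz₂ hz₂w, u₂, hcu z₂ u₂ l₂ hlz₂ hlu₂ hne₂ hyu₂, hu₂w.symm⟩
  have hv₁ := a_values G hreg hPD (hoff z₁ hyz₁ hz₁w)
  have hv₂ := a_values G hreg hPD (hoff z₂ hyz₂ hz₂w)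
  have hb₁ := hcon z₁ hyz₁ hz₁w
  have hb₂ := hcon z₂ hyz₂ hz₂w
  have heq : z₁ = z₂ := exc_unique G hreg hPD (hoff z₁ hyz₁ hz₁w) (hoff z₂ hyz₂ hz₂w)
    (Or.inl (by omega)) (Or.inl (by omega))
  subst heq
  have hu12 : u₁ ≠ u₂ := by
    rintro rfl
    exact hl (common_unique G hreg hPD hne₁ hlz₁ hlu₁ hlz₂ hlu₂)
  have h3 : ({w, u₁, u₂} : Finset V) ⊆ AA G z₁ y' := by
    intro v hv
    simp only [mem_insert, mem_singleton] at hv
    rcases hv with rfl | rfl | rfl
    · exact hcw z₁ hyz₁ hz₁w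
    · exact hcu z₁ _ l₁ hlz₁ hlu₁ hne₁ hyu₁
    · exact hcu z₁ _ l₂ hlz₂ hlu₂ hne₂ hyu₂
  have h4 := card_le_card h3
  rw [card_insert_of_notMem, card_pair hu12] at h4
  · have : a G z₁ y' = (AA G z₁ y').card := rfl
    omega
  · simp only [mem_insert, mem_singleton, not_or]
    exact ⟨hu₁w.symm, hu₂w.symm⟩

/-- any two lines through `w` are full with respect to each other -/
lemma a_ge_six (hreg : ∀ v, G.degree v = 7)
    (hPD : ∀ f : V → ℤ, f ≠ 0 → 0 < B G f f) {w y y' z : V} (hyw : G.Adj y w)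
    (hy'w : G.Adj y' w) (hyy' : y ≠ y') (hyz : G.Adj y z) (hzw : z ≠ w) : 6 ≤ a G z y' := by
  have hoff : ∀ y y' : V, G.Adj y w → G.Adj y' w → y ≠ y' →
      ∀ z, G.Adj y z → z ≠ w → ¬ G.Adj z y' := by
    intro y y' hyw hy'w hyy' z hz hzw hzy'
    exact hyy' (common_unique G hreg hPD hzw hz hyw hzy'.symm hy'w)
  obtain ⟨z₀, hyz₀, hz₀w, hz₀⟩ := a_ge_six_exists G hreg hPD hyw hy'w hyy'
  set U := (AA G z₀ y').erase w with hU
  have hUcard : 5 ≤ U.card := by
    have h1 : (AA G z₀ y').card - 1 ≤ U.card := pred_card_le_card_erase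
    have h2 : a G z₀ y' = (AA G z₀ y').card := rfl
    omega
  have hUprop : ∀ u ∈ U, u ≠ w ∧ G.Adj y' u ∧ cn G z₀ u = 1 := by
    intro u hu
    rw [hU, mem_erase, AA, mem_filter, SimpleGraph.mem_neighborFinset] at hu
    exact ⟨hu.1, hu.2.1, hu.2.2⟩
  have hUa : ∀ u ∈ U, 2 ≤ a G u y := by
    intro u hu
    obtain ⟨huw, hy'u, hcu⟩ := hUprop u hu
    rw [a, Nat.succ_le_iff, one_lt_card]
    refine ⟨w, mem_filter.2 ⟨by rw [SimpleGraph.mem_neighborFinset]; exact hyw, ?_⟩, z₀,
      mem_filter.2 ⟨by rw [SimpleGraph.mem_neighborFinset]; exact hyz₀, ?_⟩, hz₀w.symm⟩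
    · exact cn_eq_one G hreg hPD huw (y := y')
        (by rw [SimpleGraph.mem_neighborFinset]; exact hy'u)
        (by rw [SimpleGraph.mem_neighborFinset]; exact hy'w)
    · rw [cn_comm]; exact hcu
  set U7 := U.filter (fun u => a G u y = 7) with hU7
  have hU7card : 4 ≤ U7.card := by
    have h1 : (U.filter (fun u => ¬ a G u y = 7)).card ≤ 1 := by
      rw [card_le_one]
      intro u hu v hv
      rw [mem_filter] at hu hv
      have hu' := hUprop u hu.1
      have hv' := hUprop v hv.1
      have hou := hoff y' y hy'w hyw hyy'.symm u hu'.2.1 hu'.1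
      have hov := hoff y' y hy'w hyw hyy'.symm v hv'.2.1 hv'.1
      have hau := a_values G hreg hPD hou
      have hav := a_values G hreg hPD hov
      have hau2 := hUa u hu.1
      have hav2 := hUa v hv.1
      exact exc_unique G hreg hPD hou hov (by omega) (by omega)
    have h2 := card_filter_add_card_filter_not (s := U) (fun u => a G u y = 7)
    rw [← hU7] at h2
    omega
  -- all elements of U7 are collinear with z
  have hsub : insert w U7 ⊆ AA G z y' := by
    intro u hu
    rw [mem_insert] at hu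
    rcases hu with rfl | hu
    · refine mem_filter.2 ⟨by rw [SimpleGraph.mem_neighborFinset]; exact hy'w, ?_⟩
      exact cn_eq_one G hreg hPD hzw (y := y)
        (by rw [SimpleGraph.mem_neighborFinset]; exact hyz)
        (by rw [SimpleGraph.mem_neighborFinset]; exact hyw)
    · rw [hU7, mem_filter] at hu
      obtain ⟨huw, hy'u, hcu⟩ := hUprop u hu.1
      refine mem_filter.2 ⟨by rw [SimpleGraph.mem_neighborFinset]; exact hy'u, ?_⟩
      have h1 : (AA G u y) = G.neighborFinset y := by
        apply eq_of_subset_of_card_le (filter_subset _ _)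
        rw [SimpleGraph.card_neighborFinset_eq_degree, hreg]
        exact hu.2.ge
      have h2 : z ∈ AA G u y := by
        rw [h1, SimpleGraph.mem_neighborFinset]; exact hyz
      rw [cn_comm]
      exact (mem_filter.1 h2).2
  have h5 := card_le_card hsub
  rw [card_insert_of_notMem] at h5
  · have h6 : a G z y' = (AA G z y').card := rfl
    have h7 := a_values G hreg hPD (hoff y y' hyw hy'w hyy' z hyz hzw)
    omega
  · intro h
    rw [hU7, mem_filter, hU] at h
    simp at h

/-- non-collinear pairs in the second neighbourhood of `w` -/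
lemma bad_a_eq (hreg : ∀ v, G.degree v = 7)
    (hPD : ∀ f : V → ℤ, f ≠ 0 → 0 < B G f f) {w z u y y' : V} (hz : z ∈ N2 G w)
    (hu : u ∈ N2 G w) (hzu : z ≠ u) (h0 : cn G z u ≠ 1) (hyz : G.Adj y z) (hyw : G.Adj y w)
    (hyu : G.Adj y' u) (hy'w : G.Adj y' w) : a G z y' = 6 ∧ ¬ G.Adj z y' := by
  rw [mem_N2] at hz hu
  have hyy' : y ≠ y' := by
    rintro rfl
    apply h0
    exact cn_eq_one G hreg hPD hzu (y := y) (by rw [SimpleGraph.mem_neighborFinset]; exact hyz)
      (by rw [SimpleGraph.mem_neighborFinset]; exact hyu)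
  have hoff : ¬ G.Adj z y' := by
    intro hzy'
    exact hyy' (common_unique G hreg hPD hz.1 hyz hyw hzy'.symm hy'w)
  have h6 := a_ge_six G hreg hPD hyw hy'w hyy' hyz hz.1
  have hlt : a G z y' < 7 := by
    have h1 : AA G z y' ⊆ (G.neighborFinset y').erase u := by
      intro v hv
      rw [mem_erase]
      refine ⟨?_, (mem_filter.1 hv).1⟩
      rintro rfl
      exact h0 (mem_filter.1 hv).2
    have h2 := card_le_card h1
    rw [card_erase_of_mem (by rw [SimpleGraph.mem_neighborFinset]; exact hyu),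
      SimpleGraph.card_neighborFinset_eq_degree, hreg] at h2
    have h3 : a G z y' = (AA G z y').card := rfl
    omega
  exact ⟨by omega, hoff⟩

lemma exists_line {w z : V} (hz : z ∈ N2 G w) : ∃ y, G.Adj y z ∧ G.Adj y w := by
  rw [mem_N2] at hz
  have h : 0 < (G.neighborFinset w ∩ G.neighborFinset z).card := by
    have := hz.2
    rw [cn] at this
    omega
  obtain ⟨y, hy⟩ := card_pos.1 h
  simp only [mem_inter, SimpleGraph.mem_neighborFinset] at hy
  exact ⟨y, hy.2.symm, hy.1.symm⟩

/-- the partner of a bad point is unique -/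
lemma bad_partner_unique (hreg : ∀ v, G.degree v = 7)
    (hPD : ∀ f : V → ℤ, f ≠ 0 → 0 < B G f f) {w z u v : V} (hz : z ∈ N2 G w)
    (hu : u ∈ N2 G w) (hv : v ∈ N2 G w) (hzu : z ≠ u) (hzv : z ≠ v) (h0 : cn G z u ≠ 1)
    (h1 : cn G z v ≠ 1) : u = v := by
  obtain ⟨y, hyz, hyw⟩ := exists_line G hz
  obtain ⟨y₁, hy₁u, hy₁w⟩ := exists_line G hu
  obtain ⟨y₂, hy₂v, hy₂w⟩ := exists_line G hv
  have e1 := bad_a_eq G hreg hPD hu hz hzu.symm (by rwa [cn_comm]) hy₁u hy₁w hyz hyw
  have e2 := bad_a_eq G hreg hPD hv hz hzv.symm (by rwa [cn_comm]) hy₂v hy₂w hyz hyw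
  exact exc_unique G hreg hPD e1.2 e2.2 (Or.inr e1.1) (Or.inr e2.1)

/-- the set of bad points -/
noncomputable def Bd (w : V) : Finset V :=
  (N2 G w).filter fun z => ∃ u ∈ N2 G w, z ≠ u ∧ cn G z u ≠ 1

/-- on every line through `w` there is at most one bad point -/
lemma bad_on_line_unique (hreg : ∀ v, G.degree v = 7)
    (hPD : ∀ f : V → ℤ, f ≠ 0 → 0 < B G f f) {w y v v' : V} (hyw : G.Adj y w)
    (hv : v ∈ Bd G w) (hv' : v' ∈ Bd G w) (hyv : G.Adj y v) (hyv' : G.Adj y v') : v = v' := by
  rw [Bd, mem_filter] at hv hv'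
  obtain ⟨hv, p, hp, hvp, hcp⟩ := hv
  obtain ⟨hv', p', hp', hvp', hcp'⟩ := hv'
  obtain ⟨y₁, hy₁p, hy₁w⟩ := exists_line G hp
  obtain ⟨y₂, hy₂p, hy₂w⟩ := exists_line G hp'
  have e1 := bad_a_eq G hreg hPD hp hv hvp.symm (by rwa [cn_comm]) hy₁p hy₁w hyv hyw
  have e2 := bad_a_eq G hreg hPD hp' hv' hvp'.symm (by rwa [cn_comm]) hy₂p hy₂w hyv' hyw
  have hpp : p = p' := exc_unique G hreg hPD e1.2 e2.2 (Or.inr e1.1) (Or.inr e2.1)
  subst hpp
  by_contra hne
  have h1 : AA G p y ⊆ ((G.neighborFinset y).erase v).erase v' := by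
    intro x hx
    rw [mem_erase, mem_erase]
    refine ⟨?_, ?_, (mem_filter.1 hx).1⟩
    · rintro rfl
      exact hcp' (by rw [cn_comm]; exact (mem_filter.1 hx).2)
    · rintro rfl
      exact hcp (by rw [cn_comm]; exact (mem_filter.1 hx).2)
  have h2 := card_le_card h1
  rw [card_erase_of_mem, card_erase_of_mem, SimpleGraph.card_neighborFinset_eq_degree, hreg] at h2
  · have h3 : a G p y = (AA G p y).card := rfl
    omega
  · rw [SimpleGraph.mem_neighborFinset]; exact hyv
  · rw [mem_erase, SimpleGraph.mem_neighborFinset]; exact ⟨Ne.symm hne, hyv'⟩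

lemma card_Bd_le (hreg : ∀ v, G.degree v = 7)
    (hPD : ∀ f : V → ℤ, f ≠ 0 → 0 < B G f f) (w : V) : (Bd G w).card ≤ 7 := by
  have hex : ∀ z ∈ Bd G w, ∃ y, G.Adj y z ∧ G.Adj y w := fun z hz =>
    exists_line G (mem_filter.1 hz).1
  choose! φ hφ using hex
  have h1 : (Bd G w).card ≤ (G.neighborFinset w).card := by
    apply card_le_card_of_injOn φ
    · intro z hz
      simp only [SimpleGraph.coe_neighborFinset, SimpleGraph.mem_neighborSet]
      exact (hφ z hz).2.symm
    · intro z hz z' hz' h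
      refine bad_on_line_unique G hreg hPD (hφ z hz).2 hz hz' (hφ z hz).1 ?_
      rw [h]
      exact (hφ z' hz').1
  rwa [SimpleGraph.card_neighborFinset_eq_degree, hreg] at h1

/-- A point of the second neighbourhood which is not bad has all its collinear points in
`insert w (N2 w)`. -/
lemma good_closed (hreg : ∀ v, G.degree v = 7)
    (hPD : ∀ f : V → ℤ, f ≠ 0 → 0 < B G f f) {w z : V} (hz : z ∈ N2 G w) (hgood : z ∉ Bd G w) :
    N2 G z = (insert w (N2 G w)).erase z := by
  symm
  apply eq_of_subset_of_card_le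
  · intro v hv
    rw [mem_erase, mem_insert] at hv
    obtain ⟨hvz, rfl | hv⟩ := hv
    · rw [mem_N2] at hz ⊢
      exact ⟨hvz, by rw [cn_comm]; exact hz.2⟩
    · rw [mem_N2 (w := z)]
      refine ⟨hvz, ?_⟩
      by_contra h
      exact hgood (mem_filter.2 ⟨hz, v, hv, Ne.symm hvz, h⟩)
  · rw [card_N2 G hreg hPD, card_erase_of_mem (mem_insert_of_mem hz), card_insert_of_notMem,
      card_N2 G hreg hPD]
    simp [N2]

lemma no_bad (hreg : ∀ v, G.degree v = 7)
    (hPD : ∀ f : V → ℤ, f ≠ 0 → 0 < B G f f) (w : V) : Bd G w = ∅ := by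
  by_contra hne
  obtain ⟨z, hzB⟩ := nonempty_iff_ne_empty.2 hne
  have hzB' := hzB
  rw [Bd, mem_filter] at hzB'
  obtain ⟨hz, u, hu, hzu, hcu⟩ := hzB'
  have huB : u ∈ Bd G w := mem_filter.2 ⟨hu, z, hz, hzu.symm, by rwa [cn_comm]⟩
  set P := insert w (N2 G w) with hP
  have hwN : w ∉ N2 G w := by simp [N2]
  have hPcard : P.card = 43 := by rw [hP, card_insert_of_notMem hwN, card_N2 G hreg hPD]
  -- everything in P except z, u is collinear with z
  have hsub : (P.erase z).erase u ⊆ N2 G z := by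
    intro v hv
    rw [mem_erase, mem_erase, hP, mem_insert] at hv
    obtain ⟨hvu, hvz, rfl | hv⟩ := hv
    · rw [mem_N2] at hz ⊢
      exact ⟨hvz, by rw [cn_comm]; exact hz.2⟩
    · rw [mem_N2 (w := z)]
      refine ⟨hvz, ?_⟩
      by_contra h
      exact hvu (bad_partner_unique G hreg hPD hz hu hv hzu (Ne.symm hvz) hcu h).symm
  have hzP : z ∈ P := mem_insert_of_mem hz
  have huP : u ∈ P.erase z := mem_erase.2 ⟨hzu.symm, mem_insert_of_mem hu⟩
  have hcard41 : ((P.erase z).erase u).card = 41 := by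
    rw [card_erase_of_mem huP, card_erase_of_mem hzP, hPcard]
  have hdiff : (N2 G z \ (P.erase z).erase u).card = 1 := by
    rw [card_sdiff_of_subset hsub, card_N2 G hreg hPD, hcard41]
  obtain ⟨t, ht⟩ := card_eq_one.1 hdiff
  have htmem : t ∈ N2 G z \ (P.erase z).erase u := by rw [ht]; exact mem_singleton_self t
  have huN : u ∉ N2 G z := by
    rw [mem_N2]; exact fun h => hcu h.2
  have htz : t ∈ N2 G z := (mem_sdiff.1 htmem).1
  have htP : t ∉ P := by
    intro htP
    have h1 := (mem_sdiff.1 htmem).2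
    apply h1
    rw [mem_erase, mem_erase]
    refine ⟨?_, (mem_N2 G |>.1 htz).1, htP⟩
    rintro rfl
    exact huN htz
  obtain ⟨m, hmt, hmz⟩ := exists_line G htz
  have hmw : ¬ G.Adj m w := by
    intro hmw
    apply htP
    rw [hP, mem_insert]
    right
    have htw : t ≠ w := by
      rintro rfl
      exact htP (mem_insert_self _ _)
    rw [mem_N2]
    refine ⟨htw, ?_⟩
    exact cn_eq_one G hreg hPD htw.symm (y := m)
      (by rw [SimpleGraph.mem_neighborFinset]; exact hmw)
      (by rw [SimpleGraph.mem_neighborFinset]; exact hmt)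
  -- points of m other than t are bad
  have hmB : ∀ v ∈ (G.neighborFinset m).erase t, v ∈ Bd G w := by
    intro v hv
    rw [mem_erase, SimpleGraph.mem_neighborFinset] at hv
    obtain ⟨hvt, hmv⟩ := hv
    have hvw : v ≠ w := by rintro rfl; exact hmw hmv
    have hvP : v ∈ N2 G w := by
      by_cases hvz : v = z
      · subst hvz; exact hz
      · have h1 : v ∈ N2 G z := by
          rw [mem_N2]
          exact ⟨hvz, cn_eq_one G hreg hPD (Ne.symm hvz) (y := m)
            (by rw [SimpleGraph.mem_neighborFinset]; exact hmz)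
            (by rw [SimpleGraph.mem_neighborFinset]; exact hmv)⟩
        by_contra hcon
        have h2 : v ∈ N2 G z \ (P.erase z).erase u := by
          rw [mem_sdiff]
          refine ⟨h1, fun h3 => ?_⟩
          rw [mem_erase, mem_erase, hP, mem_insert] at h3
          rcases h3.2.2 with h4 | h4
          · exact hvw h4
          · exact hcon h4
        rw [ht, mem_singleton] at h2
        exact hvt h2
    by_contra hgood
    have h1 := good_closed G hreg hPD hvP hgood
    have h2 : t ∈ N2 G v := by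
      rw [mem_N2]
      exact ⟨Ne.symm hvt, cn_eq_one G hreg hPD hvt (y := m)
        (by rw [SimpleGraph.mem_neighborFinset]; exact hmv)
        (by rw [SimpleGraph.mem_neighborFinset]; exact hmt)⟩
    rw [h1, mem_erase] at h2
    exact htP h2.2
  have hum : u ∉ (G.neighborFinset m).erase t := by
    intro h
    rw [mem_erase, SimpleGraph.mem_neighborFinset] at h
    apply hcu
    exact cn_eq_one G hreg hPD hzu (y := m)
      (by rw [SimpleGraph.mem_neighborFinset]; exact hmz)
      (by rw [SimpleGraph.mem_neighborFinset]; exact h.2)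
  have hBcard : (Bd G w).card = 7 := by
    refine le_antisymm (card_Bd_le G hreg hPD w) ?_
    have h1 : insert u ((G.neighborFinset m).erase t) ⊆ Bd G w := by
      intro v hv
      rcases mem_insert.1 hv with rfl | hv
      · exact huB
      · exact hmB v hv
    have h2 := card_le_card h1
    rw [card_insert_of_notMem hum, card_erase_of_mem
      (by rw [SimpleGraph.mem_neighborFinset]; exact hmt),
      SimpleGraph.card_neighborFinset_eq_degree, hreg] at h2
    omega
  -- the partner map is an involution without fixed points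
  have hpart : ∀ x ∈ Bd G w, ∃ p ∈ Bd G w, x ≠ p ∧ cn G x p ≠ 1 := by
    intro x hx
    have hx' := hx
    rw [Bd, mem_filter] at hx'
    obtain ⟨hxN, p, hp, hxp, hcp⟩ := hx'
    exact ⟨p, mem_filter.2 ⟨hp, x, hxN, hxp.symm, by rwa [cn_comm]⟩, hxp, hcp⟩
  have hinv : ∑ x ∈ Bd G w, (1 : ZMod 2) = 0 := by
    refine sum_involution (fun x hx => (hpart x hx).choose) ?_ ?_ ?_ ?_
    · intro x hx; decide
    · intro x hx _
      exact ((hpart x hx).choose_spec.2.1).symm
    · intro x hx
      exact (hpart x hx).choose_spec.1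
    · intro x hx
      have h1 := (hpart x hx).choose_spec
      set p := (hpart x hx).choose with hp
      have h2 := (hpart p h1.1).choose_spec
      set q := (hpart p h1.1).choose with hq
      exact bad_partner_unique G hreg hPD (mem_filter.1 h1.1).1 (mem_filter.1 h2.1).1
        (mem_filter.1 hx).1 h2.2.1 h1.2.1.symm h2.2.2 (by rw [cn_comm]; exact h1.2.2)
  rw [sum_const, hBcard] at hinv
  exact absurd hinv (by decide)

lemma collinear_closed (hreg : ∀ v, G.degree v = 7)
    (hPD : ∀ f : V → ℤ, f ≠ 0 → 0 < B G f f) {w z : V} (hz : z ∈ insert w (N2 G w)) :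
    N2 G z = (insert w (N2 G w)).erase z := by
  rcases mem_insert.1 hz with rfl | hz
  · have hwN : z ∉ N2 G z := by simp [N2]
    rw [erase_insert hwN]
  · exact good_closed G hreg hPD hz (by rw [no_bad G hreg hPD]; simp)

/-- **Main combinatorial theorem.** The form `A² - 5 I` of a nonempty `7`-regular graph is never
positive definite. -/
theorem not_posDef (hreg : ∀ v, G.degree v = 7)
    (hPD : ∀ f : V → ℤ, f ≠ 0 → 0 < B G f f) (w : V) : False := by
  set P := insert w (N2 G w) with hP
  have hwN : w ∉ N2 G w := by simp [N2]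
  have hPcard : P.card = 43 := by rw [hP, card_insert_of_notMem hwN, card_N2 G hreg hPD]
  have hcol : ∀ z ∈ P, ∀ u ∈ P, z ≠ u → cn G z u = 1 := by
    intro z hz u hu hzu
    have h1 := collinear_closed G hreg hPD hz
    have h2 : u ∈ N2 G z := by
      rw [h1, mem_erase]; exact ⟨hzu.symm, hu⟩
    exact ((mem_N2 G).1 h2).2
  have hclosed : ∀ z ∈ P, ∀ m u, G.Adj m z → G.Adj m u → u ∈ P := by
    intro z hz m u hmz hmu
    by_cases hzu : z = u
    · rw [← hzu]; exact hz
    · have h1 := collinear_closed G hreg hPD hz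
      have h2 : u ∈ N2 G z := by
        rw [mem_N2]
        exact ⟨Ne.symm hzu, cn_eq_one G hreg hPD hzu (y := m)
          (by rw [SimpleGraph.mem_neighborFinset]; exact hmz)
          (by rw [SimpleGraph.mem_neighborFinset]; exact hmu)⟩
      rw [h1, mem_erase] at h2
      exact h2.2
  set L0 := univ.filter (fun m => ∃ z ∈ P, G.Adj m z) with hL0
  have hL0card : L0.card = 43 := by
    have h1 : ∑ m ∈ L0, ∑ z ∈ P, (if G.Adj m z then 1 else 0) =
        ∑ z ∈ P, ∑ m ∈ L0, (if G.Adj m z then 1 else 0) := sum_comm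
    have h2 : ∀ m ∈ L0, ∑ z ∈ P, (if G.Adj m z then 1 else 0) = 7 := by
      intro m hm
      rw [hL0, mem_filter] at hm
      obtain ⟨_, z, hz, hmz⟩ := hm
      rw [← card_filter, ← hreg m, ← SimpleGraph.card_neighborFinset_eq_degree]
      congr 1
      ext u
      rw [mem_filter, SimpleGraph.mem_neighborFinset]
      exact ⟨fun h => h.2, fun h => ⟨hclosed z hz m u hmz h, h⟩⟩
    have h3 : ∀ z ∈ P, ∑ m ∈ L0, (if G.Adj m z then 1 else 0) = 7 := by
      intro z hz
      rw [← card_filter, ← hreg z, ← SimpleGraph.card_neighborFinset_eq_degree]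
      congr 1
      ext m
      rw [mem_filter, SimpleGraph.mem_neighborFinset, hL0, mem_filter]
      exact ⟨fun h => h.2.symm, fun h => ⟨⟨mem_univ _, z, hz, h.symm⟩, h.symm⟩⟩
    rw [sum_congr rfl h2, sum_congr rfl h3, sum_const, sum_const, hPcard] at h1
    simp only [smul_eq_mul] at h1
    omega
  -- apply Bruck-Ryser
  let L : L0 → ((P → ℚ) →ₗ[ℚ] ℚ) := fun j =>
    ∑ i : P, (if G.Adj (j : V) (i : V) then (1 : ℚ) else 0) • LinearMap.proj i
  have hL : ∀ (j : L0) (x : P → ℚ), L j x = ∑ i : P, if G.Adj (j : V) (i : V) then x i else 0 := by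
    intro j x
    simp only [L, LinearMap.sum_apply]
    refine sum_congr rfl fun i _ => ?_
    split_ifs <;> simp
  have hform : ∀ x : P → ℚ, ∑ j, (L j x) ^ 2 = (6 : ℕ) * ∑ i, x i ^ 2 + (∑ i, x i) ^ 2 := by
    intro x
    set f : V → ℚ := fun v => if h : v ∈ P then x ⟨v, h⟩ else 0 with hf
    have hfP : ∀ i : P, f (i : V) = x i := by
      intro i; simp [hf]
    have hfn : ∀ v, v ∉ P → f v = 0 := by
      intro v hv; simp [hf, hv]
    have h1 : ∑ j, (L j x) ^ 2 = ∑ v, (∑ u ∈ G.neighborFinset v, f u) ^ 2 := by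
      have h2 : ∀ v, (∑ u ∈ G.neighborFinset v, f u) = ∑ i : P, if G.Adj v (i : V) then x i else 0 := by
        intro v
        rw [SimpleGraph.neighborFinset_eq_filter, sum_filter]
        have h3 : ∑ i : P, (if G.Adj v (i : V) then x i else 0) =
            ∑ u ∈ P, if G.Adj v u then f u else 0 := by
          rw [← sum_coe_sort P (fun u => if G.Adj v u then f u else 0)]
          exact sum_congr rfl fun i _ => by rw [hfP]
        rw [h3, ← sum_subset (subset_univ P)]
        intro u _ hu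
        rw [hfn u hu]; simp
      have h4 : ∑ v, (∑ u ∈ G.neighborFinset v, f u) ^ 2 =
          ∑ v ∈ L0, (∑ u ∈ G.neighborFinset v, f u) ^ 2 := by
        rw [← sum_subset (subset_univ L0)]
        intro v _ hv
        rw [h2 v]
        have : ∑ i : P, (if G.Adj v (i : V) then x i else 0) = 0 := by
          refine sum_eq_zero fun i _ => ?_
          rw [if_neg]
          intro h
          exact hv (mem_filter.2 ⟨mem_univ _, i, i.2, h⟩)
        rw [this]; simp
      rw [h4, ← sum_coe_sort L0]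
      exact sum_congr rfl fun j _ => by rw [hL, h2]
    rw [h1, sum_cn_eq]
    have h5 : ∀ u w : V, f u * f w * (cn G u w : ℚ) =
        f u * f w + (if u = w then 6 * f u ^ 2 else 0) := by
      intro u w
      by_cases huw : u = w
      · subst huw
        rw [cn_self G hreg]
        simp; ring
      · rw [if_neg huw, add_zero]
        by_cases hu : u ∈ P
        · by_cases hw : w ∈ P
          · rw [hcol u hu w hw huw]; simp
          · rw [hfn w hw]; simp
        · rw [hfn u hu]; simp
    simp only [h5, sum_add_distrib]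
    have h6 : ∑ u, ∑ w, f u * f w = (∑ i, x i) ^ 2 := by
      rw [sq, ← sum_mul_sum]
      have : ∑ v, f v = ∑ i, x i := by
        rw [← sum_subset (subset_univ P) (fun v _ hv => hfn v hv), ← sum_coe_sort P]
        exact sum_congr rfl fun i _ => hfP i
      rw [this]
    have h7 : ∑ u, ∑ w, (if u = w then 6 * f u ^ 2 else 0) = 6 * ∑ i, x i ^ 2 := by
      simp only [sum_ite_eq, mem_univ, if_true]
      rw [← mul_sum]
      congr 1
      rw [← sum_subset (subset_univ P) (fun v _ hv => by rw [hfn v hv]; simp), ← sum_coe_sort P]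
      exact sum_congr rfl fun i _ => by rw [hfP i]
    rw [h6, h7]
    push_cast
    ring
  obtain ⟨X, Y, Z, hY, h⟩ := bruck_ryser_form (I := P) (J := L0)
    (by rw [Fintype.card_coe, Fintype.card_coe, hPcard, hL0card])
    (by rw [Fintype.card_coe, hPcard]) 6 (by norm_num) L hform
  refine no_rat_sol 6 3 (by norm_num) (by norm_num) (by norm_num) ?_ X Y Z hY h
  have : padicValNat 3 6 = 1 := by
    rw [show (6 : ℕ) = 3 * 2 by norm_num, padicValNat.mul (by norm_num) (by norm_num)]
    rw [padicValNat_self, padicValNat.eq_zero_of_not_dvd (by norm_num)]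
  rw [this]
  exact odd_one

end Pool.Agent.H17.Seven
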