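import Mathlib
import Pool.Agent.H17.ExactB
import Pool.Agent.H17.Seven

/-!
# The quadratic form of a graph with large gap: local analysis
-/

namespace Pool.Agent.H17.Exact

open Finset Classical

set_option linter.unusedSectionVars false

variable {V : Type} [Fintype V]

/-- the weight of a vertex seen as a line -/
noncomputable def W (G : SimpleGraph V) (d : ℕ) (y : V) : ℝ := ((d : ℝ) + 1) ^ 2 / (G.degree y : ℝ)

/-- sum over the neighbours -/
noncomputable def nb (G : SimpleGraph V) (f : V → ℝ) (y : V) : ℝ := ∑ x ∈ G.neighborFinset y, f x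

/-- the quadratic form -/
noncomputable def Q (G : SimpleGraph V) (d : ℕ) (f : V → ℝ) : ℝ :=
  ∑ y, W G d y * (nb G f y) ^ 2 - d * ∑ x, (G.degree x : ℝ) * f x ^ 2

/-- the diagonal of the form -/
noncomputable def K (G : SimpleGraph V) (d : ℕ) (x : V) : ℝ :=
  ∑ y ∈ G.neighborFinset x, (W G d y - d)

/-- the off-diagonal entries -/
noncomputable def Kc (G : SimpleGraph V) (d : ℕ) (x x' : V) : ℝ :=
  ∑ y ∈ G.neighborFinset x ∩ G.neighborFinset x', W G d y

/-- vertices of degree at most `d + 1` -/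
noncomputable def Vp (G : SimpleGraph V) (d : ℕ) : Finset V :=
  univ.filter fun x => G.degree x ≤ d + 1

/-- number of small neighbours -/
noncomputable def sp (G : SimpleGraph V) (d : ℕ) (x : V) : ℕ :=
  (G.neighborFinset x ∩ Vp G d).card

/-- standing assumptions -/
structure Ctx (G : SimpleGraph V) (d : ℕ) : Prop where
  hd : 2000 ≤ d
  hdeg : ∀ v, d ≤ G.degree v
  hQ : ∀ f : V → ℝ, 0 ≤ Q G d f

variable {G : SimpleGraph V} {d : ℕ}

lemma mem_Vp {x : V} : x ∈ Vp G d ↔ G.degree x ≤ d + 1 := by simp [Vp]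

lemma mem_nb {x y : V} : x ∈ G.neighborFinset y ↔ G.Adj y x := by simp

/-- the bilinear form associated to `Q` -/
noncomputable def QB (G : SimpleGraph V) (d : ℕ) (f g : V → ℝ) : ℝ :=
  ∑ y, W G d y * (nb G f y * nb G g y) - d * ∑ x, (G.degree x : ℝ) * (f x * g x)

lemma nb_add (f g : V → ℝ) (y : V) : nb G (f + g) y = nb G f y + nb G g y := by
  simp [nb, sum_add_distrib]

lemma nb_smul (c : ℝ) (f : V → ℝ) (y : V) : nb G (c • f) y = c * nb G f y := by
  simp [nb, mul_sum]

lemma Q_add (f g : V → ℝ) : Q G d (f + g) = Q G d f + Q G d g + 2 * QB G d f g := by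
  have h1 : ∑ y, W G d y * (nb G (f + g) y) ^ 2 = ∑ y, W G d y * (nb G f y) ^ 2 +
      ∑ y, W G d y * (nb G g y) ^ 2 + 2 * ∑ y, W G d y * (nb G f y * nb G g y) := by
    rw [mul_sum, ← sum_add_distrib, ← sum_add_distrib]
    refine sum_congr rfl fun y _ => ?_
    rw [nb_add]; ring
  have h2 : ∑ x, (G.degree x : ℝ) * (f + g) x ^ 2 = ∑ x, (G.degree x : ℝ) * f x ^ 2 +
      ∑ x, (G.degree x : ℝ) * g x ^ 2 + 2 * ∑ x, (G.degree x : ℝ) * (f x * g x) := by
    rw [mul_sum, ← sum_add_distrib, ← sum_add_distrib]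
    refine sum_congr rfl fun y _ => ?_
    rw [Pi.add_apply]; ring
  rw [Q, h1, h2, Q, Q, QB]; ring

lemma Q_smul (c : ℝ) (f : V → ℝ) : Q G d (c • f) = c ^ 2 * Q G d f := by
  have h1 : ∑ y, W G d y * (nb G (c • f) y) ^ 2 = c ^ 2 * ∑ y, W G d y * (nb G f y) ^ 2 := by
    rw [mul_sum]
    refine sum_congr rfl fun y _ => ?_
    rw [nb_smul]; ring
  have h2 : ∑ x, (G.degree x : ℝ) * (c • f) x ^ 2 = c ^ 2 * ∑ x, (G.degree x : ℝ) * f x ^ 2 := by
    rw [mul_sum]
    refine sum_congr rfl fun y _ => ?_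
    simp only [Pi.smul_apply, smul_eq_mul]; ring
  rw [Q, Q, h1, h2]; ring

lemma QB_smul_left (c : ℝ) (f g : V → ℝ) : QB G d (c • f) g = c * QB G d f g := by
  have h1 : ∑ y, W G d y * (nb G (c • f) y * nb G g y) =
      c * ∑ y, W G d y * (nb G f y * nb G g y) := by
    rw [mul_sum]
    refine sum_congr rfl fun y _ => ?_
    rw [nb_smul]; ring
  have h2 : ∑ x, (G.degree x : ℝ) * ((c • f) x * g x) =
      c * ∑ x, (G.degree x : ℝ) * (f x * g x) := by
    rw [mul_sum]
    refine sum_congr rfl fun y _ => ?_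
    simp only [Pi.smul_apply, smul_eq_mul]; ring
  rw [QB, QB, h1, h2]; ring

lemma nb_single (x y : V) : nb G (Pi.single x 1) y = if x ∈ G.neighborFinset y then 1 else 0 := by
  rw [nb]
  simp only [Pi.single_apply]
  rw [sum_ite_eq']

lemma sum_ite_nb (x : V) (g : V → ℝ) :
    ∑ y, (if x ∈ G.neighborFinset y then g y else 0) = ∑ y ∈ G.neighborFinset x, g y := by
  rw [← sum_filter]
  refine sum_congr ?_ fun _ _ => rfl
  ext y
  simp [G.adj_comm]

lemma QB_single (x : V) (g : V → ℝ) :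
    QB G d (Pi.single x 1) g =
      ∑ y ∈ G.neighborFinset x, W G d y * nb G g y - d * (G.degree x * g x) := by
  rw [QB]
  congr 1
  · rw [← sum_ite_nb]
    refine sum_congr rfl fun y _ => ?_
    rw [nb_single]
    split_ifs <;> ring
  · congr 1
    rw [sum_eq_single x]
    · simp
    · intro b _ hb; simp [hb]
    · simp

lemma Q_single (x : V) : Q G d (Pi.single x 1) = K G d x := by
  have : Q G d (Pi.single x 1) = QB G d (Pi.single x 1) (Pi.single x 1) := by
    rw [Q, QB]; congr 1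
    · exact sum_congr rfl fun y _ => by ring
    · congr 1
      exact sum_congr rfl fun y _ => by ring
  rw [this, QB_single, K, sum_sub_distrib]
  congr 1
  · refine sum_congr rfl fun y hy => ?_
    rw [nb_single, if_pos, mul_one]
    rw [mem_nb] at hy ⊢
    exact hy.symm
  · simp
    ring

lemma QB_single_single {x x' : V} (h : x ≠ x') :
    QB G d (Pi.single x 1) (Pi.single x' 1) = Kc G d x x' := by
  rw [QB_single, Kc]
  have h1 : (Pi.single x' (1 : ℝ) : V → ℝ) x = 0 := by simp [h]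
  rw [h1, mul_zero, mul_zero, sub_zero, ← sum_filter_add_sum_filter_not (G.neighborFinset x)
    (fun y => y ∈ G.neighborFinset x')]
  have h2 : ∑ y ∈ G.neighborFinset x with y ∉ G.neighborFinset x',
      W G d y * nb G (Pi.single x' 1) y = 0 := by
    refine sum_eq_zero fun y hy => ?_
    rw [mem_filter] at hy
    rw [nb_single, if_neg, mul_zero]
    intro h3
    apply hy.2
    rw [mem_nb] at h3 ⊢
    exact h3.symm
  rw [h2, add_zero]
  refine sum_congr ?_ fun y hy => ?_
  · ext y; simp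
  · rw [mem_inter] at hy
    rw [nb_single, if_pos, mul_one]
    have h3 := hy.2
    rw [mem_nb] at h3 ⊢
    exact h3.symm

lemma Q_two {x x' : V} (h : x ≠ x') (a b : ℝ) :
    Q G d (a • Pi.single x 1 + b • Pi.single x' 1) =
      a ^ 2 * K G d x + b ^ 2 * K G d x' + 2 * a * b * Kc G d x x' := by
  rw [Q_add, Q_smul, Q_smul, QB_smul_left, Q_single, Q_single]
  have h1 : QB G d (Pi.single x 1) (b • Pi.single x' 1) = b * Kc G d x x' := by
    rw [← QB_single_single h]
    rw [QB_single, QB_single, mul_sub, mul_sum]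
    congr 1
    · refine sum_congr rfl fun y _ => ?_
      rw [nb_smul]; ring
    · simp only [Pi.smul_apply, smul_eq_mul]; ring
  rw [h1]; ring

namespace Ctx

variable (c : Ctx G d)

include c

lemma dR : (2000 : ℝ) ≤ d := by exact_mod_cast c.hd

lemma dpos : (0 : ℝ) < d := by linarith [c.dR]

lemma degR (v : V) : (d : ℝ) ≤ G.degree v := by exact_mod_cast c.hdeg v

lemma degpos (v : V) : (0 : ℝ) < G.degree v := lt_of_lt_of_le c.dpos (c.degR v)

lemma inv_d : 1 / (d : ℝ) ≤ 1 / 2000 := one_div_le_one_div_of_le (by norm_num) c.dR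

lemma W_pos (y : V) : 0 < W G d y := by
  have := c.degpos y
  rw [W]; positivity

lemma W_le (y : V) : W G d y ≤ d + 2 + 1 / d := by
  have h1 := c.degR y
  have h2 := c.dpos
  have h3 : W G d y ≤ ((d : ℝ) + 1) ^ 2 / d := div_le_div_of_nonneg_left (by positivity) h2 h1
  have h4 : ((d : ℝ) + 1) ^ 2 / d = d + 2 + 1 / d := by field_simp; ring
  linarith

lemma W_le_of_big {y : V} (h : d + 2 ≤ G.degree y) : W G d y ≤ d + 1 / (d + 2) := by
  have h1 : ((d : ℝ) + 2) ≤ G.degree y := by exact_mod_cast h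
  have h2 := c.dpos
  have h3 : W G d y ≤ ((d : ℝ) + 1) ^ 2 / (d + 2) :=
    div_le_div_of_nonneg_left (by positivity) (by linarith) h1
  have h4 : ((d : ℝ) + 1) ^ 2 / (d + 2) = d + 1 / (d + 2) := by field_simp; ring
  linarith

lemma W_le_of_big3 {y : V} (h : d + 3 ≤ G.degree y) : W G d y ≤ d - 1 / 2 := by
  have h1 : ((d : ℝ) + 3) ≤ G.degree y := by exact_mod_cast h
  have h2 := c.dR
  have h3 : W G d y ≤ ((d : ℝ) + 1) ^ 2 / (d + 3) :=
    div_le_div_of_nonneg_left (by positivity) (by linarith) h1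
  have h4 : ((d : ℝ) + 1) ^ 2 / (d + 3) ≤ d - 1 / 2 := by
    rw [div_le_iff₀ (by linarith)]
    nlinarith
  linarith

lemma le_W_of_small {y : V} (h : y ∈ Vp G d) : (d : ℝ) + 1 ≤ W G d y := by
  rw [mem_Vp] at h
  have h1 : (G.degree y : ℝ) ≤ d + 1 := by exact_mod_cast h
  have h2 := c.degpos y
  rw [W, le_div_iff₀ h2]
  nlinarith [c.dpos]

lemma exists_other {y : V} (x : V) : ∃ x', G.Adj y x' ∧ x' ≠ x := by
  have h1 : 0 < (G.neighborFinset y \ {x}).card := by
    have h2 := le_card_sdiff {x} (G.neighborFinset y)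
    rw [card_singleton, SimpleGraph.card_neighborFinset_eq_degree] at h2
    have h3 := c.hdeg y
    have h4 := c.hd
    omega
  obtain ⟨x', hx'⟩ := card_pos.1 h1
  rw [mem_sdiff, mem_nb, mem_singleton] at hx'
  exact ⟨x', hx'⟩

lemma W_le_Kc {x x' y : V} (hx : G.Adj y x) (hx' : G.Adj y x') : W G d y ≤ Kc G d x x' := by
  rw [Kc]
  exact single_le_sum (f := fun y => W G d y) (fun i _ => (c.W_pos i).le)
    (mem_inter.2 ⟨mem_nb.2 hx.symm, mem_nb.2 hx'.symm⟩)

lemma Kc_sq_le {x x' : V} (h : x ≠ x') : Kc G d x x' ^ 2 ≤ K G d x * K G d x' := by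
  have h1 : discrim (K G d x') (2 * Kc G d x x') (K G d x) ≤ 0 := by
    apply discrim_le_zero
    intro t
    have h2 := c.hQ ((1 : ℝ) • Pi.single x 1 + t • Pi.single x' 1)
    rw [Q_two h] at h2
    linarith
  rw [discrim] at h1
  linarith

lemma K_nonneg (x : V) : 0 ≤ K G d x := by
  rw [← Q_single]
  exact c.hQ _

lemma K_pos (x : V) : 0 < K G d x := by
  rcases (c.K_nonneg x).lt_or_eq with h | h
  · exact h
  · exfalso
    obtain ⟨y, hxy, _⟩ := c.exists_other (y := x) x
    obtain ⟨x', hyx', hne⟩ := c.exists_other (y := y) x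
    have h1 := c.Kc_sq_le (Ne.symm hne)
    rw [← h, zero_mul] at h1
    have h2 := c.W_le_Kc hxy.symm hyx'
    have h3 := c.W_pos y
    nlinarith

lemma W_sq_le {x x' y : V} (h : x ≠ x') (hx : G.Adj y x) (hx' : G.Adj y x') :
    W G d y ^ 2 ≤ K G d x * K G d x' := by
  have h1 := c.Kc_sq_le h
  have h2 := c.W_le_Kc hx hx'
  have h3 := c.W_pos y
  nlinarith

lemma K_le_deg (x : V) : K G d x ≤ G.degree x * (2 + 1 / d) := by
  calc K G d x ≤ ∑ y ∈ G.neighborFinset x, (2 + 1 / (d : ℝ)) :=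
        sum_le_sum fun y _ => by linarith [c.W_le y]
    _ = G.degree x * (2 + 1 / d) := by
        rw [sum_const, SimpleGraph.card_neighborFinset_eq_degree, nsmul_eq_mul]

lemma not_mem_Vp {x : V} (h : x ∉ Vp G d) : d + 2 ≤ G.degree x := by
  rw [mem_Vp] at h; omega

lemma sp_le_deg (x : V) : sp G d x ≤ G.degree x := by
  rw [sp, ← SimpleGraph.card_neighborFinset_eq_degree]
  exact card_le_card inter_subset_left

lemma K_le (x : V) : K G d x ≤ (2 + 1 / d) * sp G d x + (G.degree x - sp G d x) / (d + 2) := by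
  have h0 : (G.neighborFinset x \ Vp G d).card + sp G d x = G.degree x := by
    rw [sp, card_sdiff_add_card_inter, SimpleGraph.card_neighborFinset_eq_degree]
  have h1 : K G d x = ∑ y ∈ G.neighborFinset x ∩ Vp G d, (W G d y - d) +
      ∑ y ∈ G.neighborFinset x \ Vp G d, (W G d y - d) := by
    rw [K, ← sum_inter_add_sum_sdiff]
  have h2 : ∑ y ∈ G.neighborFinset x ∩ Vp G d, (W G d y - d) ≤ (2 + 1 / d) * sp G d x := by
    calc _ ≤ ∑ y ∈ G.neighborFinset x ∩ Vp G d, (2 + 1 / (d : ℝ)) :=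
          sum_le_sum fun y _ => by linarith [c.W_le y]
      _ = (2 + 1 / d) * sp G d x := by
          rw [sum_const, nsmul_eq_mul, mul_comm, sp]
  have h3 : ∑ y ∈ G.neighborFinset x \ Vp G d, (W G d y - d) ≤
      (G.degree x - sp G d x) / (d + 2) := by
    calc _ ≤ ∑ y ∈ G.neighborFinset x \ Vp G d, (1 / ((d : ℝ) + 2)) := by
          refine sum_le_sum fun y hy => ?_
          linarith [c.W_le_of_big (c.not_mem_Vp (mem_sdiff.1 hy).2)]
      _ = (G.degree x - sp G d x) / (d + 2) := by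
          rw [sum_const, nsmul_eq_mul, ← h0]
          push_cast
          ring
  linarith

end Ctx

end Pool.Agent.H17.Exact
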