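import Mathlib
import Pool.Agent.H17.ExactC

/-!
# Clusters of small vertices
-/

namespace Pool.Agent.H17.Exact

open Finset Classical

set_option linter.unusedSectionVars false

variable {V : Type} [Fintype V] {G : SimpleGraph V} {d : ℕ}

/-- the graph of collinear small vertices -/
def HG (G : SimpleGraph V) (d : ℕ) : SimpleGraph V where
  Adj x y := x ≠ y ∧ x ∈ Vp G d ∧ y ∈ Vp G d ∧ ∃ w, G.Adj w x ∧ G.Adj w y
  symm := ⟨fun _ _ ⟨h1, h2, h3, w, h4, h5⟩ => ⟨h1.symm, h3, h2, w, h5, h4⟩⟩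
  loopless := ⟨fun _ h => h.1 rfl⟩

/-- the cluster of a vertex -/
noncomputable def cl (G : SimpleGraph V) (d : ℕ) (z : V) : Finset V :=
  insert z (univ.filter fun x => (HG G d).Adj z x)

lemma mem_cl {z x : V} : x ∈ cl G d z ↔ x = z ∨ (HG G d).Adj z x := by
  simp [cl]

namespace Ctx

variable (c : Ctx G d)

include c

/-- a vertex of small degree as a line has weight larger than `d` -/
lemma d_lt_W {y : V} (h : G.degree y ≤ d + 2) : (d : ℝ) < W G d y := by
  have h1 : (G.degree y : ℝ) ≤ d + 2 := by exact_mod_cast h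
  have h2 := c.degpos y
  rw [W, lt_div_iff₀ h2]
  nlinarith [c.dpos]

/-- some neighbour has degree at most `d + 2` -/
lemma exists_nbr_le (x : V) : ∃ y, G.Adj x y ∧ G.degree y ≤ d + 2 := by
  by_contra hcon
  push Not at hcon
  have h1 := c.K_pos x
  have h2 : K G d x ≤ 0 := by
    rw [K]
    refine sum_nonpos fun y hy => ?_
    rw [mem_nb] at hy
    have h3 := hcon y hy
    have h4 := c.W_le_of_big3 (y := y) (by omega)
    linarith
  linarith

/-- LK -/
lemma K_ge (x : V) : 23 ≤ K G d x := by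
  by_contra hcon
  push Not at hcon
  obtain ⟨y, hxy, hy⟩ := c.exists_nbr_le x
  have hW := c.d_lt_W hy
  have hd := c.dR
  have hinv := c.inv_d
  have key : ∀ x', G.Adj y x' → x' ≠ x → W G d x' - d ≤ 47 - d := by
    intro x' hyx' hne
    have h1 := c.W_sq_le (Ne.symm hne) hxy.symm hyx'
    have h2 := c.K_le_deg x'
    have h3 := c.K_pos x'
    have h4 : (d : ℝ) ^ 2 < 23 * K G d x' := by
      have : (d : ℝ) ^ 2 < W G d y ^ 2 := by nlinarith [c.dpos]
      nlinarith
    have h5 : (G.degree x' : ℝ) * (2 + 1 / d) ≤ G.degree x' * 2.0005 :=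
      mul_le_mul_of_nonneg_left (by linarith) (c.degpos x').le
    have h6 : (d : ℝ) ^ 2 ≤ 46.0115 * G.degree x' := by linarith
    have h7 : W G d x' ≤ 47 := by
      rw [W, div_le_iff₀ (c.degpos x')]
      nlinarith
    linarith
  have h1 := c.K_pos y
  have h2 : K G d y ≤ (2 + 1 / d) + (G.degree y - 1) * (47 - d) := by
    rw [K, ← add_sum_erase _ _ (mem_nb.2 hxy.symm)]
    have h3 : ∑ x' ∈ (G.neighborFinset y).erase x, (W G d x' - d) ≤
        ∑ x' ∈ (G.neighborFinset y).erase x, (47 - (d : ℝ)) := by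
      refine sum_le_sum fun x' hx' => ?_
      rw [mem_erase, mem_nb] at hx'
      exact key x' hx'.2 hx'.1
    rw [sum_const, card_erase_of_mem (mem_nb.2 hxy.symm),
      SimpleGraph.card_neighborFinset_eq_degree, nsmul_eq_mul, Nat.cast_sub
        (by have := c.hdeg y; have := c.hd; omega)] at h3
    have h4 := c.W_le x
    push_cast at h3
    linarith
  have h3 := c.degR y
  nlinarith

/-- L3 -/
lemma two_le_sp {x : V} (hx : x ∈ Vp G d) : 2 ≤ sp G d x := by
  by_contra hcon
  push Not at hcon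
  have h1 := c.K_ge x
  have h2 := c.K_le x
  have h3 : (sp G d x : ℝ) ≤ 1 := by exact_mod_cast (by omega : sp G d x ≤ 1)
  have h4 : (0 : ℝ) ≤ sp G d x := by positivity
  have h5 : (G.degree x : ℝ) ≤ d + 1 := by rw [mem_Vp] at hx; exact_mod_cast hx
  have h6 : ((G.degree x : ℝ) - sp G d x) / (d + 2) ≤ 1 := by
    rw [div_le_iff₀ (by linarith [c.dR])]
    linarith
  have h7 := c.inv_d
  have h8 : (0 : ℝ) < 1 / d := by have := c.dpos; positivity
  nlinarith

lemma K_le_small {x : V} (hx : x ∈ Vp G d) : K G d x ≤ 2 * d + 4 := by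
  have h1 := c.K_le_deg x
  have h5 : (G.degree x : ℝ) ≤ d + 1 := by rw [mem_Vp] at hx; exact_mod_cast hx
  have h8 : (0 : ℝ) < 1 / d := by have := c.dpos; positivity
  have h9 : (G.degree x : ℝ) * (2 + 1 / d) ≤ (d + 1) * (2 + 1 / d) :=
    mul_le_mul_of_nonneg_right h5 (by positivity)
  have h10 : ((d : ℝ) + 1) * (2 + 1 / d) = 2 * d + 3 + 1 / d := by
    have := c.dpos
    field_simp
    ring
  have h7 := c.inv_d
  linarith

/-- L4 -/
lemma K_half {v y : V} (hvy : G.Adj v y) (hy : y ∈ Vp G d) : (d : ℝ) / 2 < K G d v := by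
  have h1 := c.two_le_sp hy
  obtain ⟨x', hx', hne⟩ : ∃ x' ∈ G.neighborFinset y ∩ Vp G d, x' ≠ v := by
    have : 1 < (G.neighborFinset y ∩ Vp G d).card := h1
    exact exists_mem_ne this v
  rw [mem_inter, mem_nb] at hx'
  have h2 := c.W_sq_le hne hx'.1 hvy.symm
  have h3 := c.K_le_small hx'.2
  have h4 := c.le_W_of_small hy
  have h5 := c.K_pos v
  have h6 := c.K_pos x'
  have h7 := c.dR
  have h8 : ((d : ℝ) + 1) ^ 2 ≤ W G d y ^ 2 := by nlinarith
  have h9 : ((d : ℝ) + 1) ^ 2 ≤ (2 * d + 4) * K G d v := by nlinarith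
  nlinarith

/-- `cn ≤ 1` for small vertices -/
lemma common_unique {x x' y y' : V} (hne : x ≠ x') (hx : x ∈ Vp G d) (hx' : x' ∈ Vp G d)
    (h1 : G.Adj y x) (h2 : G.Adj y x') (h3 : G.Adj y' x) (h4 : G.Adj y' x') : y = y' := by
  by_contra hyy
  have hQ := c.hQ ((1 : ℝ) • Pi.single x 1 + (-1 : ℝ) • Pi.single x' 1)
  rw [Q_two hne] at hQ
  have e1 : ∀ x : V, K G d x = ∑ y ∈ G.neighborFinset x, W G d y - d * G.degree x := by
    intro x
    rw [K, sum_sub_distrib, sum_const, SimpleGraph.card_neighborFinset_eq_degree, nsmul_eq_mul]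
    ring
  have e2 : ∀ x x' : V, ∑ y ∈ G.neighborFinset x, W G d y = Kc G d x x' +
      ∑ y ∈ G.neighborFinset x \ G.neighborFinset x', W G d y := by
    intro x x'
    rw [Kc, sum_inter_add_sum_sdiff]
  have e3 : ∀ x x' : V, x ∈ Vp G d →
      2 ≤ (G.neighborFinset x ∩ G.neighborFinset x').card →
      ∑ y ∈ G.neighborFinset x \ G.neighborFinset x', W G d y ≤
        (G.degree x - 2) * (d + 2 + 1 / d) := by
    intro x x' hx h2c
    calc _ ≤ ∑ y ∈ G.neighborFinset x \ G.neighborFinset x', ((d : ℝ) + 2 + 1 / d) :=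
          sum_le_sum fun y _ => c.W_le y
      _ = ((G.neighborFinset x \ G.neighborFinset x').card : ℝ) * (d + 2 + 1 / d) := by
          rw [sum_const, nsmul_eq_mul]
      _ ≤ _ := by
          refine mul_le_mul_of_nonneg_right ?_ (by have := c.dpos; positivity)
          have h5 : (G.neighborFinset x \ G.neighborFinset x').card +
              (G.neighborFinset x ∩ G.neighborFinset x').card = G.degree x := by
            rw [card_sdiff_add_card_inter, SimpleGraph.card_neighborFinset_eq_degree]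
          have h6 : (G.neighborFinset x \ G.neighborFinset x').card + 2 ≤ G.degree x := by omega
          have : (((G.neighborFinset x \ G.neighborFinset x').card + 2 : ℕ) : ℝ) ≤ G.degree x := by
            exact_mod_cast h6
          push_cast at this
          linarith
  have h2c : 2 ≤ (G.neighborFinset x ∩ G.neighborFinset x').card := by
    have h5 : ({y, y'} : Finset V) ⊆ G.neighborFinset x ∩ G.neighborFinset x' := by
      intro w hw
      simp only [mem_insert, mem_singleton] at hw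
      rw [mem_inter, mem_nb, mem_nb]
      rcases hw with rfl | rfl
      · exact ⟨h1.symm, h2.symm⟩
      · exact ⟨h3.symm, h4.symm⟩
    have h6 := card_le_card h5
    rwa [card_pair hyy] at h6
  have h2c' : 2 ≤ (G.neighborFinset x' ∩ G.neighborFinset x).card := by
    rwa [inter_comm]
  have f1 := e3 x x' hx h2c
  have f2 := e3 x' x hx' h2c'
  have f3 : Kc G d x' x = Kc G d x x' := by rw [Kc, Kc, inter_comm]
  rw [e1 x, e1 x', e2 x x', e2 x' x, f3] at hQ
  rw [mem_Vp] at hx hx'
  have g1 : (G.degree x : ℝ) ≤ d + 1 := by exact_mod_cast hx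
  have g2 : (G.degree x' : ℝ) ≤ d + 1 := by exact_mod_cast hx'
  have hd := c.dR
  have hinv : (1 / (d : ℝ)) * d = 1 := by field_simp
  have g3 : ((G.degree x : ℝ) - 2) * (d + 2 + 1 / d) - d * G.degree x ≤ -1 := by
    have : ((G.degree x : ℝ) - 2) * (d + 2 + 1 / d) - d * G.degree x =
      (G.degree x) * (2 + 1 / d) - 2 * (d + 2 + 1 / d) := by ring
    rw [this]
    have h8 : (0 : ℝ) < 1 / d := by positivity
    have h9 : (G.degree x : ℝ) * (2 + 1 / d) ≤ (d + 1) * (2 + 1 / d) :=
      mul_le_mul_of_nonneg_right g1 (by positivity)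
    nlinarith
  have g4 : ((G.degree x' : ℝ) - 2) * (d + 2 + 1 / d) - d * G.degree x' ≤ -1 := by
    have : ((G.degree x' : ℝ) - 2) * (d + 2 + 1 / d) - d * G.degree x' =
      (G.degree x') * (2 + 1 / d) - 2 * (d + 2 + 1 / d) := by ring
    rw [this]
    have h8 : (0 : ℝ) < 1 / d := by positivity
    have h9 : (G.degree x' : ℝ) * (2 + 1 / d) ≤ (d + 1) * (2 + 1 / d) :=
      mul_le_mul_of_nonneg_right g2 (by positivity)
    nlinarith
  linarith

lemma sum_nb_sq (f : V → ℝ) :
    ∑ y, (nb G f y) ^ 2 = ∑ x, ∑ x', f x * f x' * (Seven.cn G x x' : ℝ) :=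
  Seven.sum_cn_eq G f

lemma cn_self (x : V) : Seven.cn G x x = G.degree x := by
  rw [Seven.cn, inter_self, SimpleGraph.card_neighborFinset_eq_degree]

lemma cn_HG {x x' : V} (hne : x ≠ x') (hx : x ∈ Vp G d) (hx' : x' ∈ Vp G d) :
    Seven.cn G x x' = if (HG G d).Adj x x' then 1 else 0 := by
  split_ifs with h
  · obtain ⟨_, _, _, w, h1, h2⟩ := h
    rw [Seven.cn, card_eq_one]
    refine ⟨w, ?_⟩
    ext v
    rw [mem_inter, mem_nb, mem_nb, mem_singleton]
    constructor
    · rintro ⟨h3, h4⟩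
      exact c.common_unique hne hx hx' h3.symm h4.symm h1 h2
    · rintro rfl
      exact ⟨h1.symm, h2.symm⟩
  · rw [Seven.cn, card_eq_zero]
    ext v
    rw [mem_inter, mem_nb, mem_nb]
    simp only [notMem_empty, iff_false, not_and]
    intro h3 h4
    exact h ⟨hne, hx, hx', v, h3.symm, h4.symm⟩

/-- (R) -/
lemma psd : Psd (HG G d) (1 / ((d : ℝ) + 1)) := by
  intro f
  set g : V → ℝ := fun x => if x ∈ Vp G d then f x else 0 with hg
  have hd := c.dR
  have hQ : 0 ≤ Q G d g := c.hQ g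
  have h1 : B (HG G d) (1 / ((d : ℝ) + 1)) f f = ∑ y, (nb G g y) ^ 2 +
      ∑ x, ((2 - 1 / ((d : ℝ) + 1)) * f x ^ 2 - G.degree x * g x ^ 2) := by
    rw [c.sum_nb_sq, B, ← sum_add_distrib]
    refine sum_congr rfl fun x _ => ?_
    have h2 : ∀ x', f x * f x' * M (HG G d) (1 / ((d : ℝ) + 1)) x x' =
        g x * g x' * (Seven.cn G x x' : ℝ) + (if x = x' then
          ((2 - 1 / ((d : ℝ) + 1)) * f x ^ 2 - G.degree x * g x ^ 2) else 0) := by
      intro x'
      by_cases hxx : x = x'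
      · subst hxx
        rw [if_pos rfl, M, if_pos rfl, c.cn_self]
        ring
      · rw [if_neg hxx, M, if_neg hxx, add_zero]
        by_cases hx : x ∈ Vp G d
        · by_cases hx' : x' ∈ Vp G d
          · rw [c.cn_HG hxx hx hx']
            simp only [hg, if_pos hx, if_pos hx']
            split_ifs <;> simp
          · have h3 : ¬ (HG G d).Adj x x' := fun h => hx' h.2.2.1
            simp only [hg, if_neg hx', if_neg h3]
            ring
        · have h3 : ¬ (HG G d).Adj x x' := fun h => hx h.2.1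
          simp only [hg, if_neg hx, if_neg h3]
          ring
    rw [sum_congr rfl fun x' _ => h2 x', sum_add_distrib]
    simp
  have h2 : Q G d g ≤ (d + 2 + 1 / d) * ∑ y, (nb G g y) ^ 2 - d * ∑ x, (G.degree x : ℝ) * g x ^ 2 := by
    have : ∑ y, W G d y * (nb G g y) ^ 2 ≤ ∑ y, ((d : ℝ) + 2 + 1 / d) * (nb G g y) ^ 2 :=
      sum_le_sum fun y _ => mul_le_mul_of_nonneg_right (c.W_le y) (sq_nonneg _)
    rw [← mul_sum] at this
    rw [Q]
    linarith
  have h3 : 0 ≤ ∑ x, (((d : ℝ) + 2 + 1 / d) * ((2 - 1 / ((d : ℝ) + 1)) * f x ^ 2 -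
      G.degree x * g x ^ 2) + d * (G.degree x * g x ^ 2)) := by
    refine sum_nonneg fun x _ => ?_
    have e1 : ((d : ℝ) + 2 + 1 / d) * (2 - 1 / ((d : ℝ) + 1)) = (d + 1) * (2 + 1 / d) := by
      field_simp
      ring
    have e2 : ((d : ℝ) + 2 + 1 / d) * ((2 - 1 / ((d : ℝ) + 1)) * f x ^ 2 -
      G.degree x * g x ^ 2) + d * (G.degree x * g x ^ 2) =
      (((d : ℝ) + 2 + 1 / d) * (2 - 1 / ((d : ℝ) + 1))) * f x ^ 2 -
        G.degree x * (2 + 1 / d) * g x ^ 2 := by ring
    rw [e2, e1]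
    by_cases hx : x ∈ Vp G d
    · simp only [hg, if_pos hx]
      rw [mem_Vp] at hx
      have g1 : (G.degree x : ℝ) ≤ d + 1 := by exact_mod_cast hx
      have h9 : (G.degree x : ℝ) * (2 + 1 / d) ≤ (d + 1) * (2 + 1 / d) :=
        mul_le_mul_of_nonneg_right g1 (by positivity)
      have := mul_le_mul_of_nonneg_right h9 (sq_nonneg (f x))
      linarith
    · simp only [hg, if_neg hx]
      have : 0 ≤ ((d : ℝ) + 1) * (2 + 1 / d) * f x ^ 2 := by positivity
      linarith
  have h4 : 0 ≤ ((d : ℝ) + 2 + 1 / d) * B (HG G d) (1 / ((d : ℝ) + 1)) f f := by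
    rw [h1]
    rw [sum_add_distrib, ← mul_sum, ← mul_sum] at h3
    linarith
  exact (mul_nonneg_iff_of_pos_left (by positivity)).1 h4

end Ctx

end Pool.Agent.H17.Exact
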