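import Mathlib
import Pool.Agent.H17.ExactD

/-!
# Clusters of small vertices: existence of big cliques
-/

namespace Pool.Agent.H17.Exact

open Finset Classical

set_option linter.unusedSectionVars false

variable {V : Type} [Fintype V] {G : SimpleGraph V} {d : ℕ}

namespace Ctx

variable (c : Ctx G d)

include c

lemma W_huge {y : V} (h : (d : ℝ) ^ 2 ≤ 10 * G.degree y) : W G d y ≤ 11 := by
  rw [W, div_le_iff₀ (c.degpos y)]
  nlinarith [c.dR]

/-- L5 -/
lemma huge_unique {z y y' : V} (hz : z ∈ Vp G d) (hy : G.Adj z y) (hy' : G.Adj z y')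
    (h : (d : ℝ) ^ 2 ≤ 10 * G.degree y) (h' : (d : ℝ) ^ 2 ≤ 10 * G.degree y') : y = y' := by
  by_contra hne
  have h1 := c.K_ge z
  have h2 := c.W_huge h
  have h3 := c.W_huge h'
  have h4 : y' ∈ (G.neighborFinset z).erase y := mem_erase.2 ⟨Ne.symm hne, mem_nb.2 hy'⟩
  have h5 : K G d z ≤ (11 - d) + ((11 - d) + ((G.degree z : ℝ) - 2) * (2 + 1 / d)) := by
    rw [K, ← add_sum_erase _ _ (mem_nb.2 hy), ← add_sum_erase _ _ h4]
    have h6 : ∑ x ∈ ((G.neighborFinset z).erase y).erase y', (W G d x - d) ≤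
        ∑ x ∈ ((G.neighborFinset z).erase y).erase y', (2 + 1 / (d : ℝ)) :=
      sum_le_sum fun x _ => by linarith [c.W_le x]
    rw [sum_const, card_erase_of_mem h4, card_erase_of_mem (mem_nb.2 hy),
      SimpleGraph.card_neighborFinset_eq_degree, nsmul_eq_mul, Nat.sub_sub, Nat.cast_sub
        (by have := c.hdeg z; have := c.hd; omega)] at h6
    push_cast at h6
    linarith
  rw [mem_Vp] at hz
  have g1 : (G.degree z : ℝ) ≤ d + 1 := by exact_mod_cast hz
  have hd := c.dR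
  have h8 : (0 : ℝ) < 1 / d := by have := c.dpos; positivity
  have hinv : (1 / (d : ℝ)) * d = 1 := by have := c.dpos; field_simp
  have h9 : ((G.degree z : ℝ) - 2) * (2 + 1 / d) ≤ (d - 1) * (2 + 1 / d) :=
    mul_le_mul_of_nonneg_right (by linarith) (by positivity)
  nlinarith

/-- L6 -/
lemma poor_unique {z y y' : V} (hz : z ∈ Vp G d) (hy : G.Adj z y) (hy' : G.Adj z y')
    (h : K G d y < d + 1) (h' : K G d y' < d + 1) : y = y' := by
  by_contra hne
  have h1 := c.W_sq_le hne hy hy'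
  have h2 := c.le_W_of_small hz
  have h3 := c.K_pos y
  have h4 := c.K_pos y'
  have h5 := c.dR
  nlinarith

/-- L7 -/
lemma rich {y : V} (h : (d : ℝ) + 1 ≤ K G d y) (h' : 10 * (G.degree y : ℝ) < d ^ 2) :
    2 * d ≤ 5 * sp G d y := by
  have h1 := c.K_le y
  have hd := c.dR
  have h4 : (0 : ℝ) ≤ sp G d y := by positivity
  have h2 : ((G.degree y : ℝ) - sp G d y) / (d + 2) ≤ d / 10 := by
    rw [div_le_iff₀ (by linarith)]
    nlinarith
  have hinv := c.inv_d
  have h3 : (2 + 1 / (d : ℝ)) * sp G d y ≤ 2.0005 * sp G d y :=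
    mul_le_mul_of_nonneg_right (by linarith) h4
  have h5 : (2 * (d : ℝ)) ≤ 5 * sp G d y := by linarith
  exact_mod_cast h5

/-- the big clique through a small vertex -/
lemma exists_clique {z : V} (hz : z ∈ Vp G d) :
    ∃ Z : Finset V, z ∈ Z ∧ Clq (HG G d) Z ∧ d ^ 2 ≤ 6 * Z.card ∧
      ∀ v, v ∉ Z → (Z.filter ((HG G d).Adj v)).card ≤ 2 := by
  set R := (G.neighborFinset z).filter (fun y => 2 * d ≤ 5 * sp G d y) with hR
  refine pencil_clique (R := R) (C := fun y => G.neighborFinset y ∩ Vp G d) c.hd rfl c.psd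
    ?_ ?_ ?_ ?_ ?_
  · have h1 : R.card + ((G.neighborFinset z).filter
        (fun y => ¬ 2 * d ≤ 5 * sp G d y)).card = G.degree z := by
      rw [hR, card_filter_add_card_filter_not, SimpleGraph.card_neighborFinset_eq_degree]
    have h2 : ((G.neighborFinset z).filter (fun y => ¬ 2 * d ≤ 5 * sp G d y)).card ≤ 2 := by
      have h3 : (G.neighborFinset z).filter (fun y => ¬ 2 * d ≤ 5 * sp G d y) ⊆
          (G.neighborFinset z).filter (fun y => (d : ℝ) ^ 2 ≤ 10 * G.degree y) ∪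
          (G.neighborFinset z).filter (fun y => K G d y < d + 1) := by
        intro y hy
        rw [mem_filter] at hy
        rw [mem_union, mem_filter, mem_filter]
        by_contra hcon
        rw [not_or, not_and, not_and] at hcon
        exact hy.2 (c.rich (not_lt.1 (hcon.2 hy.1)) (not_le.1 (hcon.1 hy.1)))
      have h4 : ((G.neighborFinset z).filter
          (fun y => (d : ℝ) ^ 2 ≤ 10 * G.degree y)).card ≤ 1 := by
        rw [card_le_one]
        intro a ha b hb
        rw [mem_filter, mem_nb] at ha hb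
        exact c.huge_unique hz ha.1 hb.1 ha.2 hb.2
      have h5 : ((G.neighborFinset z).filter (fun y => K G d y < d + 1)).card ≤ 1 := by
        rw [card_le_one]
        intro a ha b hb
        rw [mem_filter, mem_nb] at ha hb
        exact c.poor_unique hz ha.1 hb.1 ha.2 hb.2
      have h6 := (card_le_card h3).trans (card_union_le _ _)
      omega
    have h3 := c.hdeg z
    omega
  · intro y hy
    rw [hR, mem_filter, mem_nb] at hy
    rw [mem_inter, mem_nb]
    exact ⟨hy.1.symm, hz⟩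
  · intro y _ a ha b hb hab
    rw [mem_inter, mem_nb] at ha hb
    exact ⟨hab, ha.2, hb.2, y, ha.1, hb.1⟩
  · intro y hy y' hy' hne x hx hx'
    by_contra hxz
    rw [hR, mem_filter, mem_nb] at hy hy'
    rw [mem_inter, mem_nb] at hx hx'
    exact hne (c.common_unique hxz hx.2 hz hx.1 hy.1.symm hx'.1 hy'.1.symm)
  · intro y hy
    rw [hR, mem_filter] at hy
    exact hy.2

lemma cl_eq {z : V} {Z : Finset V} (hz : z ∈ Vp G d) (hzZ : z ∈ Z)
    (hZ : Clq (HG G d) Z) (hc : d ^ 2 ≤ 6 * Z.card)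
    (h2 : ∀ v, v ∉ Z → (Z.filter ((HG G d).Adj v)).card ≤ 2) : cl G d z = Z := by
  ext x
  rw [mem_cl]
  constructor
  · rintro (rfl | h)
    · exact hzZ
    · obtain ⟨X, hX1, hX2, hX3, hX4⟩ := c.exists_clique h.2.2.1
      exact adj_mem_cluster c.hd rfl c.psd h hzZ hX1 hZ hX2 hc hX3 h2 hX4
  · intro hx
    by_cases h : x = z
    · exact Or.inl h
    · exact Or.inr (hZ z hzZ x hx (Ne.symm h))

lemma cl_clq {z : V} (hz : z ∈ Vp G d) : Clq (HG G d) (cl G d z) := by
  obtain ⟨Z, h1, h2, h3, h4⟩ := c.exists_clique hz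
  rw [c.cl_eq hz h1 h2 h3 h4]
  exact h2

lemma cl_card {z : V} (hz : z ∈ Vp G d) : d ^ 2 ≤ 6 * (cl G d z).card := by
  obtain ⟨Z, h1, h2, h3, h4⟩ := c.exists_clique hz
  rw [c.cl_eq hz h1 h2 h3 h4]
  exact h3

lemma mem_cl_self (z : V) : z ∈ cl G d z := by rw [mem_cl]; exact Or.inl rfl

lemma cl_sub {z x : V} (hz : z ∈ Vp G d) (hx : x ∈ cl G d z) : x ∈ Vp G d := by
  rw [mem_cl] at hx
  rcases hx with rfl | h
  · exact hz
  · exact h.2.2.1

lemma cl_closed {z x w : V} (hz : z ∈ Vp G d) (hx : x ∈ cl G d z)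
    (hxw : (HG G d).Adj x w) : w ∈ cl G d z := by
  have hxV := c.cl_sub hz hx
  have h1 : z ∈ cl G d x := by
    rw [mem_cl] at hx ⊢
    rcases hx with rfl | h
    · exact Or.inl rfl
    · exact Or.inr h.symm
  have h2 : w ∈ cl G d x := by rw [mem_cl]; exact Or.inr hxw
  rw [mem_cl]
  by_cases h : w = z
  · exact Or.inl h
  · exact Or.inr (c.cl_clq hxV z h1 w h2 (Ne.symm h))

/-- the small neighbours of a line meeting the cluster are in the cluster -/
lemma line_sub {z x y w : V} (hz : z ∈ Vp G d) (hx : x ∈ cl G d z) (hyx : G.Adj y x)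
    (hyw : G.Adj y w) (hw : w ∈ Vp G d) : w ∈ cl G d z := by
  by_cases h : x = w
  · rw [← h]; exact hx
  · exact c.cl_closed hz hx ⟨h, c.cl_sub hz hx, hw, y, hyx, hyw⟩

lemma cn_cl {z x x' : V} (hz : z ∈ Vp G d) (hx : x ∈ cl G d z) (hx' : x' ∈ cl G d z)
    (hne : x ≠ x') : Seven.cn G x x' = 1 := by
  rw [c.cn_HG hne (c.cl_sub hz hx) (c.cl_sub hz hx'), if_pos (c.cl_clq hz x hx x' hx' hne)]

/-- Z-form -/
lemma zform {z : V} (hz : z ∈ Vp G d) (f : V → ℝ) (hf : ∀ x, x ∉ cl G d z → f x = 0) :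
    Q G d f + ∑ y, ((d + 2 + 1 / d) - W G d y) * (nb G f y) ^ 2 ≤
      (d + 2 + 1 / d) * (∑ x, f x) ^ 2 + (d + 1) * ∑ x, f x ^ 2 := by
  have h1 : Q G d f + ∑ y, ((d + 2 + 1 / d) - W G d y) * (nb G f y) ^ 2 =
      (d + 2 + 1 / d) * ∑ y, (nb G f y) ^ 2 - d * ∑ x, (G.degree x : ℝ) * f x ^ 2 := by
    rw [Q, mul_sum univ (fun y => (nb G f y) ^ 2)]
    have : ∑ y, W G d y * (nb G f y) ^ 2 + ∑ y, ((d + 2 + 1 / d) - W G d y) * (nb G f y) ^ 2 =
        ∑ y, ((d : ℝ) + 2 + 1 / d) * (nb G f y) ^ 2 := by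
      rw [← sum_add_distrib]
      exact sum_congr rfl fun y _ => by ring
    linarith
  have h2 : ∑ y, (nb G f y) ^ 2 = (∑ x, f x) ^ 2 + ∑ x, ((G.degree x : ℝ) - 1) * f x ^ 2 := by
    rw [c.sum_nb_sq, sq, sum_mul_sum, ← sum_add_distrib]
    refine sum_congr rfl fun x _ => ?_
    have h3 : ∀ x', f x * f x' * (Seven.cn G x x' : ℝ) = f x * f x' +
        if x = x' then ((G.degree x : ℝ) - 1) * f x ^ 2 else 0 := by
      intro x'
      by_cases hxx : x = x'
      · subst hxx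
        rw [c.cn_self, if_pos rfl]; ring
      · rw [if_neg hxx]
        by_cases hx : x ∈ cl G d z
        · by_cases hx' : x' ∈ cl G d z
          · rw [c.cn_cl hz hx hx' hxx]; simp
          · rw [hf x' hx']; ring
        · rw [hf x hx]; ring
    rw [sum_congr rfl fun x' _ => h3 x', sum_add_distrib]
    simp
  rw [h1, h2, mul_add, mul_sum, mul_sum, mul_sum]
  have hd := c.dpos
  have h3 : ∑ x, ((d : ℝ) + 2 + 1 / d) * (((G.degree x : ℝ) - 1) * f x ^ 2) -
      ∑ x, (d : ℝ) * ((G.degree x : ℝ) * f x ^ 2) ≤ ∑ x, ((d : ℝ) + 1) * f x ^ 2 := by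
    rw [← sum_sub_distrib]
    refine sum_le_sum fun x _ => ?_
    by_cases hx : x ∈ cl G d z
    · have h4 := c.cl_sub hz hx
      rw [mem_Vp] at h4
      have g1 : (G.degree x : ℝ) ≤ d + 1 := by exact_mod_cast h4
      have h9 : (G.degree x : ℝ) * (2 + 1 / d) ≤ (d + 1) * (2 + 1 / d) :=
        mul_le_mul_of_nonneg_right g1 (by positivity)
      have h10 : ((d : ℝ) + 1) * (2 + 1 / d) = 2 * d + 3 + 1 / d := by
        field_simp
        ring
      have h11 := mul_le_mul_of_nonneg_right h9 (sq_nonneg (f x))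
      rw [h10] at h11
      linarith
    · rw [hf x hx]; simp
  linarith

end Ctx

end Pool.Agent.H17.Exact
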