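import Mathlib
import Pool.Agent.H17.ExactE

/-!
# Degree bounds
-/

namespace Pool.Agent.H17.Exact

open Finset Classical

set_option linter.unusedSectionVars false

variable {V : Type} [Fintype V] {G : SimpleGraph V} {d : ℕ}

/-- the weight deficit -/
noncomputable def lam (G : SimpleGraph V) (d : ℕ) (y : V) : ℝ := ((d : ℝ) + 2 + 1 / d) - W G d y

namespace Ctx

variable (c : Ctx G d)

include c

lemma lam_nonneg (y : V) : 0 ≤ lam G d y := by
  have := c.W_le y
  rw [lam]; linarith

lemma Q_nonneg (f : V → ℝ) : 0 ≤ Q G d f := c.hQ f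

/-- test function of a subset of a cluster -/
lemma F_ineq {z : V} (hz : z ∈ Vp G d) {S : Finset V} (hS : S ⊆ cl G d z) :
    ∑ y, lam G d y * (((cl G d z).card : ℝ) * ((G.neighborFinset y ∩ S).card : ℝ) -
      (S.card : ℝ) * ((G.neighborFinset y ∩ cl G d z).card : ℝ)) ^ 2 ≤
      (d + 1) * ((S.card : ℝ) * (((cl G d z).card : ℝ) - S.card) * (cl G d z).card) := by
  set Z := cl G d z with hZ
  set m : ℝ := (Z.card : ℝ) with hm
  set s : ℝ := (S.card : ℝ) with hs
  set f : V → ℝ := fun x => (if x ∈ S then m else 0) - (if x ∈ Z then s else 0) with hf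
  have h1 := c.zform hz f (by
    intro x hx
    have h2 : x ∉ S := fun h => hx (hS h)
    simp only [hf, if_neg h2]
    rw [if_neg]
    · ring
    · rw [hZ]; exact hx)
  have h2 := c.Q_nonneg f
  have e1 : ∀ y, nb G f y = m * ((G.neighborFinset y ∩ S).card : ℝ) -
      s * ((G.neighborFinset y ∩ Z).card : ℝ) := by
    intro y
    simp only [nb, hf, sum_sub_distrib, sum_ite_mem, sum_const, nsmul_eq_mul]
    ring
  have e2 : ∑ x, f x = 0 := by
    simp only [hf, sum_sub_distrib, sum_ite_mem, univ_inter, sum_const, nsmul_eq_mul, ← hm, ← hs]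
    ring
  have e3 : ∑ x, f x ^ 2 = s * (m - s) * m := by
    have : ∀ x, f x ^ 2 = (if x ∈ S then (m ^ 2 - 2 * m * s) else 0) +
        (if x ∈ Z then s ^ 2 else 0) := by
      intro x
      by_cases h3 : x ∈ S
      · have h4 : x ∈ Z := hS h3
        simp only [hf, if_pos h3, if_pos h4]; ring
      · by_cases h4 : x ∈ Z
        · simp only [hf, if_neg h3, if_pos h4]; ring
        · simp only [hf, if_neg h3, if_neg h4]; ring
    rw [sum_congr rfl fun x _ => this x, sum_add_distrib]
    simp only [sum_ite_mem, univ_inter, sum_const, nsmul_eq_mul, ← hm, ← hs]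
    ring
  rw [e2, e3] at h1
  simp only [e1] at h1
  simp only [lam]
  have h5 : (0 : ℝ) ^ 2 = 0 := by norm_num
  rw [h5, mul_zero, zero_add] at h1
  linarith

/-- 6a -/
lemma sp_lt_card {u x : V} (hux : G.Adj u x) (hx : x ∈ Vp G d) :
    sp G d u < (cl G d x).card ∧ sp G d u ≤ d + 1 := by
  have hsub : G.neighborFinset u ∩ Vp G d ⊆ cl G d x := by
    intro w hw
    rw [mem_inter, mem_nb] at hw
    exact c.line_sub hx (c.mem_cl_self x) hux hw.1 hw.2
  obtain ⟨y, hy, hyu⟩ : ∃ y ∈ G.neighborFinset x ∩ Vp G d, y ≠ u := by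
    have : 1 < (G.neighborFinset x ∩ Vp G d).card := c.two_le_sp hx
    exact exists_mem_ne this u
  rw [mem_inter, mem_nb] at hy
  have h1 : 1 < (G.neighborFinset y ∩ Vp G d).card := c.two_le_sp hy.2
  obtain ⟨a, ha, b, hb, hab⟩ := one_lt_card.1 h1
  rw [mem_inter, mem_nb] at ha hb
  have ha' : a ∈ cl G d x := c.line_sub hx (c.mem_cl_self x) hy.1.symm ha.1 ha.2
  have hb' : b ∈ cl G d x := c.line_sub hx (c.mem_cl_self x) hy.1.symm hb.1 hb.2
  obtain ⟨w, hw, hwu⟩ : ∃ w ∈ cl G d x, ¬ G.Adj u w := by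
    by_contra hcon
    push Not at hcon
    exact hyu (c.common_unique hab ha.2 hb.2 ha.1 hb.1 (hcon a ha') (hcon b hb'))
  have hwV := c.cl_sub hx hw
  constructor
  · apply card_lt_card
    refine ⟨hsub, fun h2 => ?_⟩
    have h3 := h2 hw
    rw [mem_inter, mem_nb] at h3
    exact hwu h3.1
  · have key : ∀ a ∈ G.neighborFinset u ∩ Vp G d, ∃ v, G.Adj v a ∧ G.Adj v w := by
      intro a ha
      have h2 := hsub ha
      have hne : a ≠ w := by
        rintro rfl
        rw [mem_inter, mem_nb] at ha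
        exact hwu ha.1
      obtain ⟨_, _, _, v, h3, h4⟩ := c.cl_clq hx a h2 w hw hne
      exact ⟨v, h3, h4⟩
    choose! φ hφ1 hφ2 using key
    have h2 : sp G d u ≤ (G.neighborFinset w).card := by
      refine card_le_card_of_injOn φ (fun a ha => ?_) ?_
      · exact mem_nb.2 (hφ2 a ha).symm
      · intro a ha b hb hab
        have ha' : a ∈ G.neighborFinset u ∩ Vp G d := ha
        have hb' : b ∈ G.neighborFinset u ∩ Vp G d := hb
        by_contra hne
        have h3 := hφ1 a ha'
        have h4 := hφ1 b hb'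
        have h5 := hφ2 a ha'
        rw [← hab] at h4
        rw [mem_inter, mem_nb] at ha' hb'
        have h6 := c.common_unique hne ha'.2 hb'.2 h3 h4 ha'.1 hb'.1
        rw [h6] at h5
        exact hwu h5
    rw [SimpleGraph.card_neighborFinset_eq_degree] at h2
    rw [mem_Vp] at hwV
    omega

lemma exists_of_sp_pos {u : V} (h : 1 ≤ sp G d u) : ∃ x, G.Adj u x ∧ x ∈ Vp G d := by
  obtain ⟨x, hx⟩ := card_pos.1 h
  rw [mem_inter, mem_nb] at hx
  exact ⟨x, hx⟩

lemma sp_le (u : V) : sp G d u ≤ d + 1 := by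
  by_cases h : 1 ≤ sp G d u
  · obtain ⟨x, h1, h2⟩ := c.exists_of_sp_pos h
    exact (c.sp_lt_card h1 h2).2
  · omega

/-- 6b -/
lemma lam_mul_sp (u : V) : lam G d u * sp G d u < d + 10 := by
  have hd := c.dR
  by_cases h : 1 ≤ sp G d u
  · obtain ⟨x, h1, h2⟩ := c.exists_of_sp_pos h
    obtain ⟨h3, h4⟩ := c.sp_lt_card h1 h2
    have hsub : G.neighborFinset u ∩ Vp G d ⊆ cl G d x := by
      intro w hw
      rw [mem_inter, mem_nb] at hw
      exact c.line_sub h2 (c.mem_cl_self x) h1 hw.1 hw.2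
    have h5 := c.F_ineq h2 hsub
    have h6 := single_le_sum (f := fun y => lam G d y *
      (((cl G d x).card : ℝ) * ((G.neighborFinset y ∩ (G.neighborFinset u ∩ Vp G d)).card : ℝ) -
      ((G.neighborFinset u ∩ Vp G d).card : ℝ) *
        ((G.neighborFinset y ∩ cl G d x).card : ℝ)) ^ 2)
      (fun y _ => mul_nonneg (c.lam_nonneg y) (sq_nonneg _)) (mem_univ u)
    have h7 : G.neighborFinset u ∩ (G.neighborFinset u ∩ Vp G d) =
        G.neighborFinset u ∩ Vp G d := by
      rw [← inter_assoc, inter_self]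
    have h8 : G.neighborFinset u ∩ cl G d x = G.neighborFinset u ∩ Vp G d := by
      ext w
      constructor
      · intro hw
        rw [mem_inter] at hw ⊢
        exact ⟨hw.1, c.cl_sub h2 hw.2⟩
      · intro hw
        rw [mem_inter]
        exact ⟨(mem_inter.1 hw).1, hsub hw⟩
    simp only [h7, h8] at h6
    have h9 := h6.trans h5
    have h10 : ((G.neighborFinset u ∩ Vp G d).card : ℝ) = sp G d u := rfl
    rw [h10] at h9
    have hcard := c.cl_card h2
    set m : ℝ := ((cl G d x).card : ℝ) with hm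
    set s : ℝ := (sp G d u : ℝ) with hs
    have hm1 : (d : ℝ) ^ 2 ≤ 6 * m := by rw [hm]; exact_mod_cast hcard
    have hs1 : (1 : ℝ) ≤ s := by rw [hs]; exact_mod_cast h
    have hs2 : s ≤ d + 1 := by rw [hs]; exact_mod_cast h4
    have hsm : 0 < m - s := by
      have : s < m := by rw [hs, hm]; exact_mod_cast h3
      linarith
    have h11 : s * (m - s) * (lam G d u * s * (m - s)) ≤ s * (m - s) * ((d + 1) * m) := by
      have : s * (m - s) * (lam G d u * s * (m - s)) = lam G d u * (m * s - s * s) ^ 2 := by ring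
      rw [this]
      calc lam G d u * (m * s - s * s) ^ 2 ≤ _ := h9
        _ = _ := by ring
    have h12 : lam G d u * s * (m - s) ≤ (d + 1) * m :=
      le_of_mul_le_mul_left h11 (by positivity)
    by_contra hcon
    push Not at hcon
    have h13 : (d + 10) * (m - s) ≤ (d + 1) * m :=
      (mul_le_mul_of_nonneg_right hcon hsm.le).trans h12
    nlinarith
  · have h0 : sp G d u = 0 := by omega
    rw [h0]
    push_cast
    linarith

lemma lam_big {u : V} (hu : u ∉ Vp G d) : 2 ≤ lam G d u := by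
  have h1 := c.W_le_of_big (c.not_mem_Vp hu)
  rw [lam]
  have hd := c.dR
  have h2 : 1 / ((d : ℝ) + 2) ≤ 1 / d := one_div_le_one_div_of_le (by linarith) (by linarith)
  linarith

lemma sp_big {u : V} (hu : u ∉ Vp G d) : 2 * sp G d u ≤ d + 9 := by
  have h1 := c.lam_mul_sp u
  have h2 := c.lam_big hu
  have h3 : (0 : ℝ) ≤ sp G d u := by positivity
  have h4 : 2 * (sp G d u : ℝ) < d + 10 := by nlinarith
  have h5 : 2 * sp G d u < d + 10 := by exact_mod_cast h4
  omega

/-- convenient form of the bound on `K` -/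
lemma K_le2 (x : V) : K G d x ≤ 2 * sp G d x + 1.001 + G.degree x / (d + 2) := by
  have h1 := c.K_le x
  have hd := c.dR
  have h2 : (sp G d x : ℝ) ≤ d + 1 := by exact_mod_cast c.sp_le x
  have h3 : (0 : ℝ) ≤ sp G d x := by positivity
  have h4 : 1 / (d : ℝ) * sp G d x ≤ 1.001 := by
    rw [one_div, inv_mul_eq_div, div_le_iff₀ (by linarith)]
    linarith
  have h5 : ((G.degree x : ℝ) - sp G d x) / (d + 2) ≤ G.degree x / (d + 2) :=
    div_le_div_of_nonneg_right (by linarith) (by linarith)
  linarith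

/-- H -/
lemma not_huge (u : V) : 10 * (G.degree u : ℝ) < d ^ 2 := by
  by_contra hcon
  push Not at hcon
  have hd := c.dR
  have hW := c.W_huge hcon
  have h1 := c.lam_mul_sp u
  have h2 : (d : ℝ) - 9 ≤ lam G d u := by
    rw [lam]
    have : (0 : ℝ) ≤ 1 / d := by positivity
    linarith
  have hsp : sp G d u ≤ 1 := by
    by_contra h3
    push Not at h3
    have h4 : (2 : ℝ) ≤ sp G d u := by exact_mod_cast h3
    nlinarith
  -- a neighbour of degree d + 2
  obtain ⟨x, hux, hxV, hx⟩ : ∃ x, G.Adj u x ∧ x ∉ Vp G d ∧ G.degree x ≤ d + 2 := by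
    by_contra hno
    push Not at hno
    have h3 := c.K_pos u
    have h4 : K G d u = ∑ y ∈ G.neighborFinset u ∩ Vp G d, (W G d y - d) +
        ∑ y ∈ G.neighborFinset u \ Vp G d, (W G d y - d) := by
      rw [K, ← sum_inter_add_sum_sdiff]
    have h5 : ∑ y ∈ G.neighborFinset u ∩ Vp G d, (W G d y - d) ≤ 2.0005 := by
      calc _ ≤ ∑ y ∈ G.neighborFinset u ∩ Vp G d, (2.0005 : ℝ) :=
            sum_le_sum fun y _ => by linarith [c.W_le y, c.inv_d]
        _ = (sp G d u : ℝ) * 2.0005 := by rw [sum_const, nsmul_eq_mul, sp]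
        _ ≤ 1 * 2.0005 := by
            refine mul_le_mul_of_nonneg_right ?_ (by norm_num)
            exact_mod_cast hsp
        _ = 2.0005 := by norm_num
    have h6 : ∑ y ∈ G.neighborFinset u \ Vp G d, (W G d y - d) ≤
        ((G.degree u : ℝ) - sp G d u) * (-1 / 2) := by
      calc _ ≤ ∑ y ∈ G.neighborFinset u \ Vp G d, (-1 / 2 : ℝ) := by
            refine sum_le_sum fun y hy => ?_
            rw [mem_sdiff, mem_nb] at hy
            have h7 := hno y hy.1 hy.2
            linarith [c.W_le_of_big3 (y := y) (by omega)]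
        _ = ((G.degree u : ℝ) - sp G d u) * (-1 / 2) := by
            have h0 : (G.neighborFinset u \ Vp G d).card + sp G d u = G.degree u := by
              rw [sp, card_sdiff_add_card_inter, SimpleGraph.card_neighborFinset_eq_degree]
            rw [sum_const, nsmul_eq_mul, ← h0]
            push_cast
            ring
    have h7 : (sp G d u : ℝ) ≤ 1 := by exact_mod_cast hsp
    nlinarith
  have h3 := c.K_ge x
  have h4 : K G d x ≤ (W G d u - d) + (2 * sp G d x + 1.001 + 1) := by
    have hxu : u ∈ G.neighborFinset x := mem_nb.2 hux.symm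
    have huV : u ∉ Vp G d := by
      rw [mem_Vp]
      intro h5
      have h6 : (G.degree u : ℝ) ≤ d + 1 := by exact_mod_cast h5
      nlinarith
    rw [K, ← add_sum_erase _ _ hxu]
    have h5 : ∑ y ∈ (G.neighborFinset x).erase u, (W G d y - d) ≤
        ∑ y ∈ (G.neighborFinset x).erase u, ((if y ∈ Vp G d then 2 + 1 / (d : ℝ) else 0) +
          1 / (d + 2)) := by
      refine sum_le_sum fun y hy => ?_
      have h8 : (0 : ℝ) < 1 / (d + 2) := by positivity
      split_ifs with hyV
      · linarith [c.W_le y]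
      · linarith [c.W_le_of_big (c.not_mem_Vp hyV)]
    rw [sum_add_distrib, sum_ite_mem, sum_const, sum_const, nsmul_eq_mul, nsmul_eq_mul] at h5
    have h6 : (((G.neighborFinset x).erase u ∩ Vp G d).card : ℝ) ≤ sp G d x := by
      exact_mod_cast card_le_card (inter_subset_inter_right (erase_subset _ _))
    have h7 : (((G.neighborFinset x).erase u).card : ℝ) ≤ d + 2 := by
      have h9 : ((G.neighborFinset x).erase u).card ≤ G.degree x := by
        rw [← SimpleGraph.card_neighborFinset_eq_degree]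
        exact card_le_card (erase_subset _ _)
      exact_mod_cast h9.trans hx
    have h8 : (((G.neighborFinset x).erase u).card : ℝ) * (1 / (d + 2)) ≤ 1 := by
      rw [mul_one_div, div_le_iff₀ (by linarith)]
      linarith
    have h9 : (((G.neighborFinset x).erase u ∩ Vp G d).card : ℝ) * (2 + 1 / d) ≤
        sp G d x * (2 + 1 / d) := mul_le_mul_of_nonneg_right h6 (by positivity)
    have h10 : (sp G d x : ℝ) * (1 / d) ≤ 1.001 := by
      have h2 : (sp G d x : ℝ) ≤ d + 1 := by exact_mod_cast c.sp_le x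
      rw [mul_one_div, div_le_iff₀ (by linarith)]
      linarith
    linarith
  have h5 : 2 * (sp G d x : ℝ) ≤ d + 9 := by exact_mod_cast c.sp_big hxV
  linarith

/-- 6c -/
lemma sp_pos (w : V) : 1 ≤ sp G d w := by
  by_contra hcon
  have h0 : sp G d w = 0 := by omega
  have hd := c.dR
  have h1 := c.K_le w
  rw [h0] at h1
  push_cast at h1
  rw [mul_zero, zero_add, sub_zero] at h1
  have h2 := c.not_huge w
  have h3 : (G.degree w : ℝ) / (d + 2) ≤ d / 10 := by
    rw [div_le_iff₀ (by linarith)]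
    nlinarith
  obtain ⟨y, hwy, hy⟩ := c.exists_nbr_le w
  have hW := c.d_lt_W hy
  obtain ⟨x', hyx', hne⟩ := c.exists_other (y := y) w
  have h4 := c.W_sq_le (Ne.symm hne) hwy.symm hyx'
  have h5 := c.K_le2 x'
  have h6 := c.not_huge x'
  have h7 : (G.degree x' : ℝ) / (d + 2) ≤ d / 10 := by
    rw [div_le_iff₀ (by linarith)]
    nlinarith
  have h8 : (sp G d x' : ℝ) ≤ d + 1 := by exact_mod_cast c.sp_le x'
  have h9 : K G d x' ≤ 3 * d := by linarith
  have h10 := c.K_pos w
  have h11 := c.K_pos x'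
  nlinarith

lemma K_gt_half (v : V) : (d : ℝ) / 2 < K G d v := by
  obtain ⟨x, h1, h2⟩ := c.exists_of_sp_pos (c.sp_pos v)
  exact c.K_half h1 h2

/-- 6d -/
lemma deg_le (u : V) : G.degree u ≤ d + 5 := by
  by_contra hcon
  push Not at hcon
  have hd := c.dR
  have h1 : ((d : ℝ) + 6) ≤ G.degree u := by exact_mod_cast hcon
  have h2 : 5.9 ≤ lam G d u := by
    have h3 : W G d u ≤ ((d : ℝ) + 1) ^ 2 / (d + 6) :=
      div_le_div_of_nonneg_left (by positivity) (by linarith) h1
    have h4 : ((d : ℝ) + 1) ^ 2 / (d + 6) ≤ d - 3.9 := by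
      rw [div_le_iff₀ (by linarith)]
      nlinarith
    have : (0 : ℝ) ≤ 1 / d := by positivity
    rw [lam]
    linarith
  have h3 := c.lam_mul_sp u
  have h4 : 5.9 * (sp G d u : ℝ) < d + 10 := by
    have : (0 : ℝ) ≤ sp G d u := by positivity
    nlinarith
  have h5 := c.K_le2 u
  have h6 := c.not_huge u
  have h7 : (G.degree u : ℝ) / (d + 2) ≤ d / 10 := by
    rw [div_le_iff₀ (by linarith)]
    nlinarith
  have h8 := c.K_gt_half u
  linarith

lemma deg_div_le (u : V) : (G.degree u : ℝ) / (d + 2) ≤ 1.002 := by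
  have h1 : (G.degree u : ℝ) ≤ d + 5 := by exact_mod_cast c.deg_le u
  have hd := c.dR
  rw [div_le_iff₀ (by linarith)]
  linarith

/-- 6e -/
lemma K_big {u : V} (hu : u ∉ Vp G d) : K G d u ≤ d + 12 := by
  have h1 := c.K_le2 u
  have h2 := c.deg_div_le u
  have h3 : 2 * (sp G d u : ℝ) ≤ d + 9 := by exact_mod_cast c.sp_big hu
  linarith

lemma W_ge (y : V) : (d : ℝ) - 3 ≤ W G d y := by
  have h1 : (G.degree y : ℝ) ≤ d + 5 := by exact_mod_cast c.deg_le y
  have hd := c.dR
  rw [W, le_div_iff₀ (c.degpos y)]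
  nlinarith

end Ctx

end Pool.Agent.H17.Exact
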