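import Mathlib
import Pool.Agent.H17.ExactF

/-!
# Big vertices
-/

namespace Pool.Agent.H17.Exact

open Finset Classical

set_option linter.unusedSectionVars false

variable {V : Type} [Fintype V] {G : SimpleGraph V} {d : ℕ}

/-- number of big neighbours -/
noncomputable def bt (G : SimpleGraph V) (d : ℕ) (x : V) : ℕ :=
  (G.neighborFinset x \ Vp G d).card

lemma bt_add_sp (x : V) : bt G d x + sp G d x = G.degree x := by
  rw [bt, sp, card_sdiff_add_card_inter, SimpleGraph.card_neighborFinset_eq_degree]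

lemma collinear_num {d m a : ℝ} (hd : 2000 ≤ d) (hm6 : d ^ 2 ≤ 6 * m) (ha2 : 2 ≤ a)
    (hb2 : 2 ≤ m - a) (h11 : a * (m - a) * (d - 3) ^ 2 ≤ (d + 1) * (d + 12) * m) : False := by
  have h12 : (d + 1) * (d + 12) ≤ 1.5 * (d - 3) ^ 2 := by nlinarith
  have hmpos : 0 ≤ m := by linarith
  have h13 : a * (m - a) * (d - 3) ^ 2 ≤ 1.5 * m * (d - 3) ^ 2 := by
    have := mul_le_mul_of_nonneg_right h12 hmpos
    linarith
  have h14 : a * (m - a) ≤ 1.5 * m := by
    have : (0 : ℝ) < (d - 3) ^ 2 := by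
      have : (0 : ℝ) < d - 3 := by linarith
      positivity
    exact le_of_mul_le_mul_right h13 this
  have h15 := mul_nonneg (sub_nonneg.2 ha2) (sub_nonneg.2 hb2)
  have h16 : (2000 : ℝ) * 2000 ≤ d ^ 2 := by nlinarith
  linarith

namespace Ctx

variable (c : Ctx G d)

include c

/-- S7' -/
lemma collinear {w z : V} (hw : w ∉ Vp G d) (hz : z ∈ Vp G d) :
    ((cl G d z).filter fun x => ∃ y, G.Adj y w ∧ G.Adj y x).card ≤ 1 ∨
      (cl G d z).card ≤ ((cl G d z).filter fun x => ∃ y, G.Adj y w ∧ G.Adj y x).card + 1 := by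
  set Z := cl G d z with hZ
  set T := Z.filter fun x => ∃ y, G.Adj y w ∧ G.Adj y x with hT
  by_contra hcon
  push Not at hcon
  obtain ⟨hc1, hc2⟩ := hcon
  have hTZ : T ⊆ Z := filter_subset _ _
  have hd := c.dR
  set m : ℝ := (Z.card : ℝ) with hm
  set a : ℝ := (T.card : ℝ) with ha
  set f : V → ℝ := fun x => (if x ∈ T then m else 0) - (if x ∈ Z then a else 0) with hf
  have h1 := c.zform hz f (by
    intro x hx
    have h2 : x ∉ T := fun h => hx (hTZ h)
    simp only [hf, if_neg h2]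
    rw [if_neg]
    · ring
    · rw [hZ]; exact hx)
  have h2 : 0 ≤ ∑ y, ((d + 2 + 1 / d) - W G d y) * (nb G f y) ^ 2 :=
    sum_nonneg fun y _ => mul_nonneg (by have := c.W_le y; linarith) (sq_nonneg _)
  have e1 : ∀ y, nb G f y = m * ((G.neighborFinset y ∩ T).card : ℝ) -
      a * ((G.neighborFinset y ∩ Z).card : ℝ) := by
    intro y
    simp only [nb, hf, sum_sub_distrib, sum_ite_mem, sum_const, nsmul_eq_mul]
    ring
  have e2 : ∑ x, f x = 0 := by
    simp only [hf, sum_sub_distrib, sum_ite_mem, univ_inter, sum_const, nsmul_eq_mul, ← hm, ← ha]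
    ring
  have e3 : ∑ x, f x ^ 2 = a * (m - a) * m := by
    have : ∀ x, f x ^ 2 = (if x ∈ T then (m ^ 2 - 2 * m * a) else 0) +
        (if x ∈ Z then a ^ 2 else 0) := by
      intro x
      by_cases h3 : x ∈ T
      · have h4 : x ∈ Z := hTZ h3
        simp only [hf, if_pos h3, if_pos h4]; ring
      · by_cases h4 : x ∈ Z
        · simp only [hf, if_neg h3, if_pos h4]; ring
        · simp only [hf, if_neg h3, if_neg h4]; ring
    rw [sum_congr rfl fun x _ => this x, sum_add_distrib]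
    simp only [sum_ite_mem, univ_inter, sum_const, nsmul_eq_mul, ← hm, ← ha]
    ring
  rw [e2, e3] at h1
  have h3 : Q G d f ≤ (d + 1) * (a * (m - a) * m) := by
    have h5 : (0 : ℝ) ^ 2 = 0 := by norm_num
    rw [h5, mul_zero, zero_add] at h1
    linarith
  have hwZ : w ∉ Z := fun h => hw (c.cl_sub hz h)
  have hwf : f w = 0 := by
    have h2 : w ∉ T := fun h => hwZ (hTZ h)
    simp only [hf, if_neg h2, if_neg hwZ]
    ring
  -- cross term
  have ha0 : (0 : ℝ) ≤ a := by rw [ha]; positivity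
  have ham : a ≤ m := by rw [ha, hm]; exact_mod_cast card_le_card hTZ
  have h4 : (m - a) * ((d - 3) * a) ≤ QB G d (Pi.single w 1) f := by
    rw [QB_single, hwf, mul_zero, mul_zero, sub_zero]
    have h5 : ∀ y ∈ G.neighborFinset w, W G d y * nb G f y =
        (m - a) * (W G d y * ((G.neighborFinset y ∩ T).card : ℝ)) := by
      intro y hy
      rw [mem_nb] at hy
      have h6 : G.neighborFinset y ∩ Z = G.neighborFinset y ∩ T := by
        ext x
        rw [mem_inter, mem_inter, mem_nb, hT, mem_filter]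
        constructor
        · rintro ⟨h7, h8⟩
          exact ⟨h7, h8, y, hy.symm, h7⟩
        · rintro ⟨h7, h8, _⟩
          exact ⟨h7, h8⟩
      rw [e1, h6]; ring
    rw [sum_congr rfl h5, ← mul_sum]
    refine mul_le_mul_of_nonneg_left ?_ (by linarith)
    calc ((d : ℝ) - 3) * a ≤ (d - 3) * ∑ y ∈ G.neighborFinset w,
          ((G.neighborFinset y ∩ T).card : ℝ) := by
          refine mul_le_mul_of_nonneg_left ?_ (by linarith)
          have h6 : T ⊆ (G.neighborFinset w).biUnion fun y => G.neighborFinset y ∩ T := by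
            intro x hx
            rw [mem_biUnion]
            have hx' := hx
            rw [hT, mem_filter] at hx'
            obtain ⟨_, y, h7, h8⟩ := hx'
            exact ⟨y, mem_nb.2 h7.symm, mem_inter.2 ⟨mem_nb.2 h8, hx⟩⟩
          have h7 := (card_le_card h6).trans card_biUnion_le
          rw [ha]
          exact_mod_cast h7
      _ = ∑ y ∈ G.neighborFinset w, ((d : ℝ) - 3) * ((G.neighborFinset y ∩ T).card : ℝ) := by
          rw [mul_sum]
      _ ≤ ∑ y ∈ G.neighborFinset w, W G d y * ((G.neighborFinset y ∩ T).card : ℝ) :=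
          sum_le_sum fun y _ => mul_le_mul_of_nonneg_right (c.W_ge y) (by positivity)
  have hKw := c.K_big hw
  set α : ℝ := a * (m - a) * (d - 3) / (d + 12) with hα
  have ha2 : (2 : ℝ) ≤ a := by rw [ha]; exact_mod_cast hc1
  have hb2 : (2 : ℝ) ≤ m - a := by
    have : ((T.card + 2 : ℕ) : ℝ) ≤ Z.card := by exact_mod_cast hc2
    push_cast at this
    rw [← hm, ← ha] at this
    linarith
  have hm6 : (d : ℝ) ^ 2 ≤ 6 * m := by rw [hm]; exact_mod_cast c.cl_card hz
  have hαpos : 0 ≤ α := by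
    rw [hα]
    have : (0 : ℝ) ≤ d - 3 := by linarith
    positivity
  have h5 := c.Q_nonneg ((-α) • Pi.single w 1 + f)
  rw [Q_add, Q_smul, QB_smul_left, Q_single] at h5
  have h6 : (-α) ^ 2 * K G d w ≤ α ^ 2 * (d + 12) := by
    have : (-α) ^ 2 = α ^ 2 := by ring
    rw [this]
    exact mul_le_mul_of_nonneg_left hKw (sq_nonneg _)
  have h7 := mul_le_mul_of_nonneg_left h4 hαpos
  have h8 : α ^ 2 * (d + 12) = α * (a * (m - a) * (d - 3)) := by
    rw [sq, mul_assoc]
    congr 1
    rw [hα]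
    field_simp
  have h9 : α * (a * (m - a) * (d - 3)) ≤ (d + 1) * (a * (m - a) * m) := by
    linarith
  have h10 : a * (m - a) * (a * (m - a) * (d - 3) ^ 2) ≤
      a * (m - a) * ((d + 1) * (d + 12) * m) := by
    have : α * (a * (m - a) * (d - 3)) * (d + 12) = a * (m - a) * (a * (m - a) * (d - 3) ^ 2) := by
      rw [hα]
      field_simp
    rw [← this]
    have h11 := mul_le_mul_of_nonneg_right h9 (by linarith : (0 : ℝ) ≤ d + 12)
    linarith
  have h11 : a * (m - a) * (d - 3) ^ 2 ≤ (d + 1) * (d + 12) * m :=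
    le_of_mul_le_mul_left h10 (by positivity)
  exact collinear_num hd hm6 ha2 hb2 h11

/-- S8' -/
lemma card_cl_le {u w x : V} (hw : w ∉ Vp G d) (huw : G.Adj u w)
    (hx : x ∈ Vp G d) (hux : G.Adj u x) : 4 * (cl G d x).card ≤ 3 * d ^ 2 + 30 * d + 31 := by
  set T := (cl G d x).filter fun v => ∃ y, G.Adj y w ∧ G.Adj y v with hT
  have hd := c.dR
  have hsub : G.neighborFinset u ∩ Vp G d ⊆ T := by
    intro v hv
    rw [mem_inter, mem_nb] at hv
    rw [hT, mem_filter]
    exact ⟨c.line_sub hx (c.mem_cl_self x) hux hv.1 hv.2, u, huw, hv.1⟩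
  have h1 : 2 ≤ T.card := by
    refine le_trans ?_ (card_le_card hsub)
    have h2 := c.K_gt_half u
    have h3 := c.K_le2 u
    have h4 := c.deg_div_le u
    have h5 : (2 : ℝ) ≤ sp G d u := by linarith
    exact_mod_cast h5
  have h2 : (cl G d x).card ≤ T.card + 1 := by
    rcases c.collinear hw hx with h3 | h3
    · rw [← hT] at h3; omega
    · exact h3
  have h3 : T ⊆ (G.neighborFinset w).biUnion fun y => G.neighborFinset y ∩ Vp G d := by
    intro v hv
    rw [mem_biUnion]
    rw [hT, mem_filter] at hv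
    obtain ⟨hv1, y, h7, h8⟩ := hv
    exact ⟨y, mem_nb.2 h7.symm, mem_inter.2 ⟨mem_nb.2 h8, c.cl_sub hx hv1⟩⟩
  have h4 : T.card ≤ ∑ y ∈ G.neighborFinset w, sp G d y :=
    (card_le_card h3).trans card_biUnion_le
  have h5 : ∑ y ∈ G.neighborFinset w, sp G d y = ∑ y ∈ G.neighborFinset w ∩ Vp G d, sp G d y +
      ∑ y ∈ G.neighborFinset w \ Vp G d, sp G d y := by
    rw [← sum_inter_add_sum_sdiff]
  have h6 : ∑ y ∈ G.neighborFinset w ∩ Vp G d, sp G d y ≤ sp G d w * (d + 1) := by
    calc _ ≤ ∑ y ∈ G.neighborFinset w ∩ Vp G d, (d + 1) := sum_le_sum fun y _ => c.sp_le y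
      _ = sp G d w * (d + 1) := by rw [sum_const, smul_eq_mul, sp]
  have h7 : 2 * ∑ y ∈ G.neighborFinset w \ Vp G d, sp G d y ≤ bt G d w * (d + 9) := by
    rw [mul_sum]
    calc _ ≤ ∑ y ∈ G.neighborFinset w \ Vp G d, (d + 9) :=
          sum_le_sum fun y hy => c.sp_big (mem_sdiff.1 hy).2
      _ = bt G d w * (d + 9) := by rw [sum_const, smul_eq_mul, bt]
  have h8 := c.sp_big hw
  have h9 := c.deg_le w
  have h10 := bt_add_sp (G := G) (d := d) w
  have h11 : 2 * T.card ≤ 2 * (sp G d w * (d + 1)) + bt G d w * (d + 9) := by omega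
  have h12 : ((cl G d x).card : ℝ) ≤ T.card + 1 := by exact_mod_cast h2
  have h13 : 2 * (T.card : ℝ) ≤ 2 * (sp G d w * (d + 1)) + bt G d w * (d + 9) := by
    exact_mod_cast h11
  have h14 : (bt G d w : ℝ) + sp G d w ≤ d + 5 := by exact_mod_cast (by omega)
  have h15 : 2 * (sp G d w : ℝ) ≤ d + 9 := by exact_mod_cast h8
  have h16 : 4 * ((cl G d x).card : ℝ) ≤ 3 * d ^ 2 + 30 * d + 31 := by
    nlinarith
  exact_mod_cast h16

/-- counting pairs of collinear points -/
lemma sum_sp {x : V} (hx : x ∈ Vp G d) :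
    ∑ y ∈ G.neighborFinset x, sp G d y + 1 ≤ (cl G d x).card + G.degree x := by
  have h1 : ∀ y ∈ G.neighborFinset x, ((G.neighborFinset y ∩ Vp G d).erase x).card + 1 =
      sp G d y := by
    intro y hy
    rw [card_erase_add_one, sp]
    rw [mem_nb] at hy
    rw [mem_inter, mem_nb]
    exact ⟨hy.symm, hx⟩
  have h2 : ((G.neighborFinset x).biUnion fun y => (G.neighborFinset y ∩ Vp G d).erase x) ⊆
      (cl G d x).erase x := by
    intro w hw
    rw [mem_biUnion] at hw
    obtain ⟨y, hy, hw⟩ := hw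
    rw [mem_erase, mem_inter, mem_nb] at hw
    rw [mem_nb] at hy
    rw [mem_erase]
    exact ⟨hw.1, c.line_sub hx (c.mem_cl_self x) hy.symm hw.2.1 hw.2.2⟩
  have h3 := card_le_card h2
  rw [card_biUnion] at h3
  · have h4 : ∑ y ∈ G.neighborFinset x, sp G d y =
        ∑ y ∈ G.neighborFinset x, ((G.neighborFinset y ∩ Vp G d).erase x).card + G.degree x := by
      rw [sum_congr rfl fun y hy => (h1 y hy).symm, sum_add_distrib, sum_const, smul_eq_mul,
        mul_one, SimpleGraph.card_neighborFinset_eq_degree]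
    have h5 := card_erase_add_one (c.mem_cl_self x)
    omega
  · intro y hy y' hy' hne
    rw [Function.onFun, disjoint_left]
    intro w hw hw'
    rw [mem_erase, mem_inter, mem_nb] at hw hw'
    have hy1 : G.Adj x y := mem_nb.1 hy
    have hy2 : G.Adj x y' := mem_nb.1 hy'
    exact hne (c.common_unique hw.1 hw.2.2 hx hw.2.1 hy1.symm hw'.2.1 hy2.symm)

/-- S9' -/
lemma bt_sum {x : V} (hx : x ∈ Vp G d) (h : 1 ≤ bt G d x) :
    d ^ 2 ≤ 5 * ∑ y ∈ G.neighborFinset x, bt G d y := by
  obtain ⟨u, hu⟩ := card_pos.1 h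
  rw [mem_sdiff, mem_nb] at hu
  have h1 : 1 ≤ bt G d u := by
    have h2 := bt_add_sp (G := G) (d := d) u
    have h3 := c.sp_big hu.2
    have h4 := c.hdeg u
    have h5 := c.hd
    omega
  obtain ⟨w, hw⟩ := card_pos.1 h1
  rw [mem_sdiff, mem_nb] at hw
  have h2 := c.card_cl_le hw.2 hw.1 hx hu.1.symm
  have h3 := c.sum_sp hx
  have h4 : ∑ y ∈ G.neighborFinset x, bt G d y + ∑ y ∈ G.neighborFinset x, sp G d y =
      ∑ y ∈ G.neighborFinset x, G.degree y := by
    rw [← sum_add_distrib]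
    exact sum_congr rfl fun y _ => bt_add_sp y
  have h5 : G.degree x * d ≤ ∑ y ∈ G.neighborFinset x, G.degree y := by
    calc G.degree x * d = ∑ y ∈ G.neighborFinset x, d := by
          rw [sum_const, smul_eq_mul, SimpleGraph.card_neighborFinset_eq_degree]
      _ ≤ _ := sum_le_sum fun y _ => c.hdeg y
  have h6 : (4 * ((cl G d x).card : ℝ)) ≤ 3 * d ^ 2 + 30 * d + 31 := by exact_mod_cast h2
  have h7 : (∑ y ∈ G.neighborFinset x, sp G d y : ℝ) + 1 ≤ (cl G d x).card + G.degree x := by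
    exact_mod_cast h3
  have h8 : (∑ y ∈ G.neighborFinset x, bt G d y : ℝ) + ∑ y ∈ G.neighborFinset x, (sp G d y : ℝ) =
      ∑ y ∈ G.neighborFinset x, (G.degree y : ℝ) := by exact_mod_cast h4
  have h9 : (G.degree x : ℝ) * d ≤ ∑ y ∈ G.neighborFinset x, (G.degree y : ℝ) := by
    exact_mod_cast h5
  have h10 := c.degR x
  have hd := c.dR
  have h11 : (d : ℝ) ^ 2 ≤ 5 * ∑ y ∈ G.neighborFinset x, (bt G d y : ℝ) := by
    nlinarith
  exact_mod_cast h11

/-- rich lines contain about half of a line -/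
lemma sp_of_K {u : V} (h : (d : ℝ) + 1 ≤ K G d u) : d ≤ 2 * sp G d u + 1 := by
  have h1 := c.K_le2 u
  have h2 := c.deg_div_le u
  have h3 : (d : ℝ) < 2 * sp G d u + 2 := by linarith
  have h4 : d < 2 * sp G d u + 2 := by exact_mod_cast h3
  omega

/-- 6f -/
lemma cl_card_ge {z : V} (hz : z ∈ Vp G d) :
    ((d : ℝ) - 1) * (d - 3) + 2 ≤ 2 * (cl G d z).card := by
  have h1 : (∑ y ∈ G.neighborFinset z, (sp G d y : ℝ)) + 1 ≤ (cl G d z).card + G.degree z := by
    exact_mod_cast c.sum_sp hz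
  have hd := c.dR
  have h2 : ∑ y ∈ G.neighborFinset z, (if K G d y < d + 1 then 0 else ((d : ℝ) - 3)) ≤
      ∑ y ∈ G.neighborFinset z, (2 * (sp G d y : ℝ) - 2) := by
    refine sum_le_sum fun y _ => ?_
    split_ifs with h
    · have h3 : (1 : ℝ) ≤ sp G d y := by exact_mod_cast c.sp_pos y
      linarith
    · have h3 : (d : ℝ) ≤ 2 * sp G d y + 1 := by exact_mod_cast c.sp_of_K (not_lt.1 h)
      linarith
  have h3 : ((G.degree z : ℝ) - 1) * (d - 3) ≤
      ∑ y ∈ G.neighborFinset z, (if K G d y < d + 1 then 0 else ((d : ℝ) - 3)) := by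
    rw [sum_ite, sum_const_zero, zero_add, sum_const, nsmul_eq_mul]
    refine mul_le_mul_of_nonneg_right ?_ (by linarith)
    have h4 : ((G.neighborFinset z).filter fun y => K G d y < d + 1).card ≤ 1 := by
      rw [card_le_one]
      intro a ha b hb
      rw [mem_filter, mem_nb] at ha hb
      exact c.poor_unique hz ha.1 hb.1 ha.2 hb.2
    have h5 := card_filter_add_card_filter_not (s := G.neighborFinset z)
      (fun y => K G d y < d + 1)
    rw [SimpleGraph.card_neighborFinset_eq_degree] at h5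
    have h6 : G.degree z ≤ ((G.neighborFinset z).filter fun y => ¬ K G d y < d + 1).card + 1 := by
      omega
    have h7 : (G.degree z : ℝ) ≤ ((G.neighborFinset z).filter
        fun y => ¬ K G d y < d + 1).card + 1 := by exact_mod_cast h6
    linarith
  rw [sum_sub_distrib, ← mul_sum, sum_const, SimpleGraph.card_neighborFinset_eq_degree,
    nsmul_eq_mul] at h2
  have h4 := c.degR z
  nlinarith

end Ctx

end Pool.Agent.H17.Exact
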