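import Mathlib
import Pool.Agent.H17.ExactG
import Pool.Agent.H17.Families

/-!
# There are no big vertices
-/

namespace Pool.Agent.H17.Exact

open Finset Classical

set_option linter.unusedSectionVars false

variable {V : Type} [Fintype V] {G : SimpleGraph V} {d : ℕ}

lemma nb_inter_eq (y : V) (S : Finset V) :
    G.neighborFinset y ∩ S = S.filter fun x => G.Adj y x := by
  ext x
  rw [mem_inter, mem_filter, mem_nb, and_comm]

lemma nb_inter_eq' (y : V) (S : Finset V) :
    G.neighborFinset y ∩ S = S.filter fun x => G.Adj x y := by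
  ext x
  rw [mem_inter, mem_filter, mem_nb, and_comm, G.adj_comm]

lemma heavy_num {d m s o : ℝ} (hd : 2000 ≤ d) (hm : (d - 1) * (d - 3) + 2 ≤ 2 * m)
    (hs1 : d ≤ 2 * s + 1) (hs2 : 2 * s ≤ d + 9)
    (h : 2 * (s * (m - s)) ^ 2 + 0.4 * m ^ 2 * o ≤ (d + 1) * (s * (m - s) * m)) : o ≤ 8 * s := by
  have hm1 : (d + 9) ^ 2 / 2 ≤ 1.06 * m := by nlinarith
  have hm0 : 0 < m := by nlinarith
  have hs0 : 0 < s := by linarith
  have hsm : s < m := by nlinarith
  have h2 : 2 * s ^ 2 ≤ 1.06 * m := by nlinarith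
  have h3 : (d + 1) * m - 2 * s * (m - s) ≤ 3.06 * m := by nlinarith
  have h4 : 0.4 * m ^ 2 * o ≤ s * (m - s) * (3.06 * m) := by
    have h5 : 0.4 * m ^ 2 * o ≤ s * (m - s) * ((d + 1) * m - 2 * s * (m - s)) := by linarith
    refine h5.trans (mul_le_mul_of_nonneg_left h3 ?_)
    exact mul_nonneg hs0.le (by linarith)
  have h5 : s * (m - s) * (3.06 * m) ≤ s * m * (3.06 * m) := by
    refine mul_le_mul_of_nonneg_right ?_ (by positivity)
    exact mul_le_mul_of_nonneg_left (by linarith) hs0.le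
  have h6 : m ^ 2 * (0.4 * o) ≤ m ^ 2 * (3.06 * s) := by linarith
  have h7 := le_of_mul_le_mul_left h6 (by positivity)
  linarith

lemma other_num {d m s t : ℝ} (hd : 2000 ≤ d) (hm : (d - 1) * (d - 3) + 2 ≤ 2 * m)
    (hs2 : 2 * s ≤ d + 9) (ht : 2 * t ≤ d + 9) (hs : 0 ≤ s) :
    0.2 * m ^ 2 ≤ (m * 1 - s * t) ^ 2 := by
  have hm1 : (d + 9) ^ 2 / 2 ≤ 1.06 * m := by nlinarith
  have hm0 : 0 < m := by nlinarith
  have h1 : s * t ≤ (d + 9) ^ 2 / 4 := by nlinarith [mul_nonneg hs (sub_nonneg.2 ht)]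
  have h2 : 0.47 * m ≤ m * 1 - s * t := by linarith
  nlinarith

namespace Ctx

variable (c : Ctx G d)

include c

/-- S10' -/
lemma heavy {u : V} (hu : u ∉ Vp G d) (hK : (d : ℝ) + 1 ≤ K G d u) :
    ∑ x ∈ G.neighborFinset u ∩ Vp G d, bt G d x ≤ 9 * sp G d u := by
  set S := G.neighborFinset u ∩ Vp G d with hS
  obtain ⟨z, hz⟩ := card_pos.1 (c.sp_pos u)
  rw [mem_inter, mem_nb] at hz
  have hsub : S ⊆ cl G d z := by
    intro w hw
    rw [hS, mem_inter, mem_nb] at hw
    exact c.line_sub hz.2 (c.mem_cl_self z) hz.1 hw.1 hw.2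
  have hF := c.F_ineq hz.2 hsub
  have hd := c.dR
  set Z := cl G d z with hZ
  set O := univ.filter (fun y => y ∉ Vp G d ∧ y ≠ u ∧ (G.neighborFinset y ∩ S).Nonempty) with hO
  have hSV : ∀ x ∈ S, G.Adj u x ∧ x ∈ Vp G d := by
    intro x hx
    rw [hS, mem_inter, mem_nb] at hx
    exact hx
  have hO1 : ∀ y ∈ O, (G.neighborFinset y ∩ S).card = 1 := by
    intro y hy
    rw [hO, mem_filter] at hy
    refine le_antisymm ?_ (card_pos.2 hy.2.2.2)
    rw [card_le_one]
    intro a ha b hb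
    by_contra hab
    rw [mem_inter, mem_nb] at ha hb
    exact hy.2.2.1 (c.common_unique hab (hSV a ha.2).2 (hSV b hb.2).2 ha.1 hb.1
      (hSV a ha.2).1 (hSV b hb.2).1)
  have hNZ : ∀ y, G.neighborFinset y ∩ Z ⊆ G.neighborFinset y ∩ Vp G d := by
    intro y w hw
    rw [mem_inter] at hw ⊢
    exact ⟨hw.1, c.cl_sub hz.2 hw.2⟩
  have hs2 : 2 * (sp G d u : ℝ) ≤ d + 9 := by exact_mod_cast c.sp_big hu
  have hs1 : (d : ℝ) ≤ 2 * sp G d u + 1 := by exact_mod_cast c.sp_of_K hK
  have hm := c.cl_card_ge hz.2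
  have hs0 : (0 : ℝ) ≤ sp G d u := by positivity
  -- the number of other big lines
  have hcount : ∑ x ∈ S, bt G d x = O.card + sp G d u := by
    have h1 : ∑ y ∈ O, (G.neighborFinset y ∩ S).card = O.card := by
      rw [sum_congr rfl hO1]; simp
    have h2 : ∑ y ∈ O, (G.neighborFinset y ∩ S).card = ∑ x ∈ S, (G.neighborFinset x ∩ O).card := by
      have e1 : ∀ y, (G.neighborFinset y ∩ S).card = ∑ x ∈ S, if G.Adj y x then 1 else 0 := by
        intro y
        rw [← card_filter, nb_inter_eq]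
      have e2 : ∀ x, (G.neighborFinset x ∩ O).card = ∑ y ∈ O, if G.Adj y x then 1 else 0 := by
        intro x
        rw [← card_filter, nb_inter_eq']
      simp only [e1, e2]
      rw [sum_comm]
    rw [← h1, h2]
    have h3 : ∀ x ∈ S, bt G d x = (G.neighborFinset x ∩ O).card + 1 := by
      intro x hx
      have hx' := hSV x hx
      have h4 : G.neighborFinset x ∩ O = (G.neighborFinset x \ Vp G d).erase u := by
        ext y
        rw [mem_inter, mem_erase, mem_sdiff, mem_nb, hO, mem_filter]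
        constructor
        · rintro ⟨h5, _, h6, h7, _⟩
          exact ⟨h7, h5, h6⟩
        · rintro ⟨h5, h6, h7⟩
          exact ⟨h6, mem_univ _, h7, h5, x, mem_inter.2 ⟨mem_nb.2 h6.symm, hx⟩⟩
      rw [h4, card_erase_add_one, bt]
      rw [mem_sdiff, mem_nb]
      exact ⟨hx'.1.symm, hu⟩
    rw [sum_congr rfl h3, sum_add_distrib, sum_const, smul_eq_mul, mul_one]
    rfl
  -- the inequality
  have hmain : 2 * ((sp G d u : ℝ) * ((Z.card : ℝ) - sp G d u)) ^ 2 +
      0.4 * (Z.card : ℝ) ^ 2 * O.card ≤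
      (d + 1) * ((sp G d u : ℝ) * ((Z.card : ℝ) - sp G d u) * Z.card) := by
    refine le_trans ?_ hF
    have huO : u ∉ O := by simp [hO]
    have h1 : ∑ y ∈ insert u O, lam G d y * ((Z.card : ℝ) *
        ((G.neighborFinset y ∩ S).card : ℝ) - (S.card : ℝ) *
        ((G.neighborFinset y ∩ Z).card : ℝ)) ^ 2 ≤
        ∑ y, lam G d y * ((Z.card : ℝ) * ((G.neighborFinset y ∩ S).card : ℝ) -
        (S.card : ℝ) * ((G.neighborFinset y ∩ Z).card : ℝ)) ^ 2 :=
      sum_le_sum_of_subset_of_nonneg (subset_univ _)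
        (fun y _ _ => mul_nonneg (c.lam_nonneg y) (sq_nonneg _))
    refine le_trans ?_ h1
    rw [sum_insert huO]
    have hSc : (S.card : ℝ) = sp G d u := rfl
    refine add_le_add ?_ ?_
    · have h7 : G.neighborFinset u ∩ S = S := by
        rw [hS, ← inter_assoc, inter_self]
      have h8 : G.neighborFinset u ∩ Z = S := by
        refine Subset.antisymm (hNZ u) ?_
        intro w hw
        rw [mem_inter]
        exact ⟨(mem_inter.1 hw).1, hsub hw⟩
      rw [h7, h8, hSc]
      have h9 := c.lam_big hu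
      have h10 : ((Z.card : ℝ) * (sp G d u : ℝ) - sp G d u * sp G d u) ^ 2 =
          ((sp G d u : ℝ) * ((Z.card : ℝ) - sp G d u)) ^ 2 := by ring
      rw [h10]
      exact mul_le_mul_of_nonneg_right h9 (sq_nonneg _)
    · calc 0.4 * (Z.card : ℝ) ^ 2 * O.card = ∑ y ∈ O, 0.4 * (Z.card : ℝ) ^ 2 := by
            rw [sum_const, nsmul_eq_mul]; ring
        _ ≤ _ := by
            refine sum_le_sum fun y hy => ?_
            have hy' := hy
            rw [hO, mem_filter] at hy'
            have h9 := c.lam_big hy'.2.1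
            rw [hO1 y hy, hSc]
            have h11 : 2 * (((G.neighborFinset y ∩ Z).card : ℝ)) ≤ d + 9 := by
              have h12 := card_le_card (hNZ y)
              have h13 := c.sp_big hy'.2.1
              have h14 : 2 * (G.neighborFinset y ∩ Z).card ≤ d + 9 := by
                rw [sp] at h13; omega
              exact_mod_cast h14
            have h12 := other_num hd hm hs2 h11 hs0
            push_cast
            nlinarith
  have h1 := heavy_num hd hm hs1 hs2 hmain
  rw [hcount]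
  have h2 : O.card ≤ 8 * sp G d u := by exact_mod_cast h1
  omega

/-- S11' -/
lemma no_rich_big (u : V) (hu : u ∉ Vp G d) : K G d u < d + 1 := by
  by_contra hcon
  push Not at hcon
  have hd := c.hd
  set U := univ.filter (fun y => y ∉ Vp G d ∧ (d : ℝ) + 1 ≤ K G d y) with hU
  set b0 : V → ℕ := fun x => (G.neighborFinset x ∩ U).card with hb0
  have hb0_le : ∀ x, b0 x ≤ bt G d x := by
    intro x
    refine card_le_card ?_
    intro y hy
    rw [mem_inter, hU, mem_filter] at hy
    rw [mem_sdiff]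
    exact ⟨hy.1, hy.2.2.1⟩
  -- double counting
  have hswap : ∀ (T : Finset V) (g : V → ℕ), ∑ x ∈ T, b0 x * g x =
      ∑ y ∈ U, ∑ x ∈ G.neighborFinset y ∩ T, g x := by
    intro T g
    have e1 : ∀ x, b0 x * g x = ∑ y ∈ U, if G.Adj y x then g x else 0 := by
      intro x
      rw [← sum_filter, sum_const, smul_eq_mul]
      simp only [hb0]
      rw [nb_inter_eq']
    have e2 : ∀ y, ∑ x ∈ G.neighborFinset y ∩ T, g x =
        ∑ x ∈ T, if G.Adj y x then g x else 0 := by
      intro y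
      rw [← sum_filter, nb_inter_eq]
    simp only [e1, e2]
    rw [sum_comm]
  have h1 : ∑ x ∈ Vp G d, b0 x * bt G d x ≤ 9 * ∑ x ∈ Vp G d, b0 x := by
    have h2 := hswap (Vp G d) (fun _ => 1)
    simp only [mul_one, sum_const, smul_eq_mul] at h2
    rw [hswap, h2, mul_sum]
    refine sum_le_sum fun y hy => ?_
    rw [hU, mem_filter] at hy
    exact c.heavy hy.2.1 hy.2.2
  set X := (Vp G d).filter (fun x => 1 ≤ b0 x ∧ bt G d x ≤ 18) with hX
  have h2 : ∑ x ∈ Vp G d, b0 x ≤ 35 * X.card := by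
    have h3 : ∑ x ∈ Vp G d, 19 * b0 x ≤ ∑ x ∈ Vp G d, (b0 x * bt G d x +
        if (1 ≤ b0 x ∧ bt G d x ≤ 18) then 342 else 0) := by
      refine sum_le_sum fun x _ => ?_
      have h4 := hb0_le x
      split_ifs with h5
      · omega
      · by_cases h6 : 1 ≤ b0 x
        · have h7 : 19 ≤ bt G d x := by
            by_contra h8
            exact h5 ⟨h6, by omega⟩
          rw [add_zero, mul_comm]
          exact Nat.mul_le_mul_left _ h7
        · have : b0 x = 0 := by omega
          rw [this]; simp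
    rw [← mul_sum, sum_add_distrib, ← sum_filter, sum_const, smul_eq_mul, ← hX] at h3
    omega
  have h3 : ∀ x ∈ X, d ^ 2 ≤ 6 * ∑ y ∈ G.neighborFinset x ∩ Vp G d, b0 y := by
    intro x hx
    rw [hX, mem_filter] at hx
    obtain ⟨hxV, hx1, hx2⟩ := hx
    have h4 := c.bt_sum hxV (hx1.trans (hb0_le x))
    rw [← sum_inter_add_sum_sdiff _ (Vp G d)] at h4
    have h5 : ∑ y ∈ G.neighborFinset x \ Vp G d, bt G d y ≤ 18 * (d + 5) := by
      calc _ ≤ ∑ y ∈ G.neighborFinset x \ Vp G d, (d + 5) := by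
            refine sum_le_sum fun y _ => ?_
            have h6 := bt_add_sp (G := G) (d := d) y
            have h7 := c.deg_le y
            omega
        _ = bt G d x * (d + 5) := by rw [sum_const, smul_eq_mul, bt]
        _ ≤ 18 * (d + 5) := Nat.mul_le_mul_right _ hx2
    have h6 : ∑ y ∈ G.neighborFinset x ∩ Vp G d, bt G d y ≤
        ∑ y ∈ G.neighborFinset x ∩ Vp G d, b0 y + (d + 1) := by
      have h7 : ∀ y ∈ G.neighborFinset x ∩ Vp G d, bt G d y ≤ b0 y + 1 := by
        intro y hy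
        rw [mem_inter] at hy
        have h8 : (G.neighborFinset y \ Vp G d) ⊆ (G.neighborFinset y ∩ U) ∪
            (G.neighborFinset y).filter (fun w => K G d w < d + 1) := by
          intro w hw
          rw [mem_sdiff] at hw
          rw [mem_union, mem_inter, hU, mem_filter, mem_filter]
          by_cases h9 : K G d w < d + 1
          · exact Or.inr ⟨hw.1, h9⟩
          · exact Or.inl ⟨hw.1, mem_univ _, hw.2, not_lt.1 h9⟩
        have h9 : ((G.neighborFinset y).filter (fun w => K G d w < d + 1)).card ≤ 1 := by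
          rw [card_le_one]
          intro a ha b hb
          rw [mem_filter, mem_nb] at ha hb
          exact c.poor_unique hy.2 ha.1 hb.1 ha.2 hb.2
        have h10 := (card_le_card h8).trans (card_union_le _ _)
        show (G.neighborFinset y \ Vp G d).card ≤ (G.neighborFinset y ∩ U).card + 1
        omega
      refine (sum_le_sum h7).trans ?_
      rw [sum_add_distrib, sum_const, smul_eq_mul, mul_one]
      exact Nat.add_le_add_left (c.sp_le x) _
    have h7 : d ^ 2 ≤ 5 * (∑ y ∈ G.neighborFinset x ∩ Vp G d, b0 y + (d + 1) + 18 * (d + 5)) :=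
      h4.trans (Nat.mul_le_mul_left 5 (add_le_add h6 h5))
    have h8 : 2000 * d ≤ d ^ 2 := by rw [sq]; exact Nat.mul_le_mul_right d hd
    omega
  have h4 : X.card * d ^ 2 ≤ 6 * ((d + 1) * ∑ y ∈ Vp G d, b0 y) := by
    have e1 : ∑ x ∈ X, ∑ y ∈ G.neighborFinset x ∩ Vp G d, b0 y =
        ∑ y ∈ Vp G d, (G.neighborFinset y ∩ X).card * b0 y := by
      have e2 : ∀ x, ∑ y ∈ G.neighborFinset x ∩ Vp G d, b0 y =
          ∑ y ∈ Vp G d, if G.Adj y x then b0 y else 0 := by
        intro x
        rw [← sum_filter, nb_inter_eq']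
      have e3 : ∀ y, (G.neighborFinset y ∩ X).card * b0 y =
          ∑ x ∈ X, if G.Adj y x then b0 y else 0 := by
        intro y
        rw [← sum_filter, sum_const, smul_eq_mul, nb_inter_eq]
      simp only [e2, e3]
      rw [sum_comm]
    calc X.card * d ^ 2 = ∑ x ∈ X, d ^ 2 := by rw [sum_const, smul_eq_mul]
      _ ≤ ∑ x ∈ X, 6 * ∑ y ∈ G.neighborFinset x ∩ Vp G d, b0 y := sum_le_sum h3
      _ = 6 * ∑ y ∈ Vp G d, (G.neighborFinset y ∩ X).card * b0 y := by rw [← mul_sum, e1]
      _ ≤ 6 * ∑ y ∈ Vp G d, (d + 1) * b0 y := by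
          refine Nat.mul_le_mul_left 6 (sum_le_sum fun y _ => Nat.mul_le_mul_right _ ?_)
          refine le_trans (card_le_card ?_) (c.sp_le y)
          intro x hx
          rw [mem_inter] at hx ⊢
          rw [hX, mem_filter] at hx
          exact ⟨hx.1, hx.2.1⟩
      _ = 6 * ((d + 1) * ∑ y ∈ Vp G d, b0 y) := by rw [← mul_sum]
  have h5 : X.card * d ^ 2 ≤ X.card * (210 * (d + 1)) := by
    refine h4.trans ?_
    calc 6 * ((d + 1) * ∑ y ∈ Vp G d, b0 y) ≤ 6 * ((d + 1) * (35 * X.card)) :=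
          Nat.mul_le_mul_left 6 (Nat.mul_le_mul_left _ h2)
      _ = X.card * (210 * (d + 1)) := by ring
  have h6 : X.card = 0 := by
    by_contra h7
    have h8 := Nat.le_of_mul_le_mul_left h5 (Nat.pos_of_ne_zero h7)
    have h9 : 2000 * d ≤ d ^ 2 := by rw [sq]; exact Nat.mul_le_mul_right d hd
    omega
  rw [h6, mul_zero] at h2
  obtain ⟨x, hx1, hx2⟩ := c.exists_of_sp_pos (c.sp_pos u)
  have h7 : b0 x ≤ ∑ x ∈ Vp G d, b0 x := single_le_sum (f := b0) (fun _ _ => Nat.zero_le _) hx2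
  have h8 : 1 ≤ b0 x := by
    refine card_pos.2 ⟨u, ?_⟩
    rw [mem_inter, mem_nb, hU, mem_filter]
    exact ⟨hx1.symm, mem_univ _, hu, hcon⟩
  omega

/-- S12' : all vertices have degree `d` or `d + 1` -/
lemma mem_Vp_all (u : V) : u ∈ Vp G d := by
  by_contra hu
  have hd := c.hd
  have hbt : ∀ x ∈ Vp G d, bt G d x ≤ 1 := by
    intro x hx
    rw [bt, card_le_one]
    intro a ha b hb
    rw [mem_sdiff, mem_nb] at ha hb
    exact c.poor_unique hx ha.1 hb.1 (c.no_rich_big a ha.2) (c.no_rich_big b hb.2)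
  obtain ⟨x, hx1, hx2⟩ := c.exists_of_sp_pos (c.sp_pos u)
  have h1 : 1 ≤ bt G d x := by
    refine card_pos.2 ⟨u, ?_⟩
    rw [mem_sdiff, mem_nb]
    exact ⟨hx1.symm, hu⟩
  have h4 := c.bt_sum hx2 h1
  rw [← sum_inter_add_sum_sdiff _ (Vp G d)] at h4
  have h5 : ∑ y ∈ G.neighborFinset x \ Vp G d, bt G d y ≤ 1 * (d + 5) := by
    calc _ ≤ ∑ y ∈ G.neighborFinset x \ Vp G d, (d + 5) := by
          refine sum_le_sum fun y _ => ?_
          have h6 := bt_add_sp (G := G) (d := d) y
          have h7 := c.deg_le y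
          omega
      _ = bt G d x * (d + 5) := by rw [sum_const, smul_eq_mul, bt]
      _ ≤ 1 * (d + 5) := Nat.mul_le_mul_right _ (hbt x hx2)
  have h6 : ∑ y ∈ G.neighborFinset x ∩ Vp G d, bt G d y ≤ d + 1 := by
    calc _ ≤ ∑ y ∈ G.neighborFinset x ∩ Vp G d, 1 :=
          sum_le_sum fun y hy => hbt y (mem_inter.1 hy).2
      _ = sp G d x := by rw [sum_const, smul_eq_mul, mul_one, sp]
      _ ≤ d + 1 := c.sp_le x
  have h8 : 2000 * d ≤ d ^ 2 := by rw [sq]; exact Nat.mul_le_mul_right d hd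
  omega

end Ctx

end Pool.Agent.H17.Exact
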