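import Mathlib
import Pool.Agent.H17.BruckRyser
import Pool.Agent.H17.Designs

/-!
# Nonexistence of some planes and of the `(22, 7, 2)` biplane
-/

namespace Pool.Agent.H17

open Finset Classical

set_option linter.unusedSectionVars false

/-- Bruck-Ryser: no projective plane of order `n` exists if `n ≡ 2 (mod 4)` and some prime
`q ≡ 3 (mod 4)` divides `n` to an odd power. -/
theorem not_planeExists (n q : ℕ) (hn4 : n % 4 = 2) (hq : q.Prime) (hq4 : q % 4 = 3)
    (hodd : Odd (padicValNat q n)) : ¬ PlaneExists n := by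
  rintro ⟨P, L, mem, hP, hL, hPL, horder⟩
  let _ : Fintype P := Fintype.ofFinite P
  let _ : Fintype L := Fintype.ofFinite L
  have hcardP := Configuration.ProjectivePlane.card_points P L
  have hcardL := Configuration.ProjectivePlane.card_lines P L
  rw [horder] at hcardP hcardL
  have hmod : Fintype.card P % 4 = 3 := by
    rw [hcardP]
    obtain ⟨m, hm⟩ : ∃ m, n = 4 * m + 2 := ⟨n / 4, by omega⟩
    subst hm
    have : (4 * m + 2) ^ 2 + (4 * m + 2) + 1 = 4 * (4 * m ^ 2 + 5 * m + 1) + 3 := by ring
    rw [this]; omega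
  have hdP : ∀ p : P, (univ.filter fun l : L => p ∈ l).card = n + 1 := by
    intro p
    have := Configuration.ProjectivePlane.lineCount_eq (L := L) p
    rw [horder, Configuration.lineCount, Nat.card_eq_fintype_card, Fintype.card_subtype] at this
    exact this
  have hpp : ∀ p q : P, p ≠ q → (univ.filter fun l : L => p ∈ l ∧ q ∈ l).card = 1 := by
    intro p q hpq
    rw [card_eq_one]
    refine ⟨Configuration.HasLines.mkLine hpq, ?_⟩
    have hax := Configuration.HasLines.mkLine_ax (L := L) hpq
    ext l
    simp only [mem_filter, mem_univ, true_and, mem_singleton]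
    constructor
    · intro h
      exact (Configuration.Nondegenerate.eq_or_eq h.1 h.2 hax.1 hax.2).resolve_left hpq
    · rintro rfl; exact hax
  let F : L → ((P → ℚ) →ₗ[ℚ] ℚ) := fun l =>
    ∑ p : P, (if p ∈ l then (1 : ℚ) else 0) • LinearMap.proj p
  have hF : ∀ (l : L) (x : P → ℚ), F l x = ∑ p : P, if p ∈ l then x p else 0 := by
    intro l x
    simp only [F, LinearMap.sum_apply]
    refine sum_congr rfl fun i _ => ?_
    split_ifs <;> simp
  obtain ⟨X, Y, Z, hY, h⟩ := bruck_ryser_form (I := P) (J := L) (by rw [hcardP, hcardL]) hmod n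
    (by omega) F (by
      intro x
      simp only [hF]
      have := inc_quad (fun (p : P) (l : L) => p ∈ l) x
      rw [this, quad_const P n (fun p q => (univ.filter fun l : L => p ∈ l ∧ q ∈ l).card) x
        (fun p => by simp only [and_self]; exact hdP p) hpp])
  exact no_rat_sol n q (by omega) hq hq4 hodd X Y Z hY h

theorem not_plane_six : ¬ PlaneExists 6 := by
  refine not_planeExists 6 3 (by norm_num) (by norm_num) (by norm_num) ?_
  have : padicValNat 3 6 = 1 := by
    rw [show (6 : ℕ) = 3 * 2 by norm_num, padicValNat.mul (by norm_num) (by norm_num)]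
    rw [padicValNat_self, padicValNat.eq_zero_of_not_dvd (by norm_num)]
  rw [this]
  exact odd_one

/-- There is no symmetric `(22, 7, 2)` design. -/
theorem no_biplane_seven {P B : Type} [Fintype P] [Fintype B] {I : P → B → Prop}
    (h : IsDesign 22 7 2 I) (hPB : Fintype.card P = Fintype.card B)
    (hr : ∀ p, (univ.filter fun b => I p b).card = 7) : False := by
  obtain ⟨hv, hk, hl⟩ := h
  let e : P ≃ B := Fintype.equivOfCardEq hPB
  let N : Matrix P P ℤ := Matrix.of fun p q => if I p (e q) then 1 else 0
  let NQ : Matrix P P ℚ := Matrix.of fun p q => if I p (e q) then 1 else 0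
  have hmap : NQ = N.map (Int.castRingHom ℚ) := by
    ext p q
    simp only [NQ, N, Matrix.of_apply, Matrix.map_apply]
    split_ifs <;> simp
  have hNN : NQ * NQ.transpose = (5 : ℚ) • ((1 : Matrix P P ℚ) +
      Matrix.replicateCol Unit (fun _ : P => (2 / 5 : ℚ)) *
        Matrix.replicateRow Unit (fun _ : P => (1 : ℚ))) := by
    ext p q
    rw [Matrix.mul_apply]
    have h1 : ∑ j, NQ p j * NQ.transpose j q =
        ((univ.filter fun b => I p b ∧ I q b).card : ℚ) := by
      rw [card_filter, Nat.cast_sum, ← Equiv.sum_comp e]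
      refine sum_congr rfl fun j _ => ?_
      simp only [NQ, Matrix.of_apply, Matrix.transpose_apply]
      by_cases h1 : I p (e j) <;> by_cases h2 : I q (e j) <;> simp [h1, h2]
    rw [h1]
    have h2 : (Matrix.replicateCol Unit (fun _ : P => (2 / 5 : ℚ)) *
        Matrix.replicateRow Unit (fun _ : P => (1 : ℚ))) p q = 2 / 5 := by
      simp [Matrix.mul_apply]
    rw [Matrix.smul_apply, Matrix.add_apply, h2, smul_eq_mul]
    by_cases hpq : p = q
    · subst hpq
      simp only [and_self, hr, Matrix.one_apply_eq]
      norm_num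
    · rw [hl p q hpq, Matrix.one_apply_ne hpq]
      norm_num
  have hdet := congrArg Matrix.det hNN
  rw [Matrix.det_mul, Matrix.det_transpose, Matrix.det_smul, hv,
    Matrix.det_one_add_replicateCol_mul_replicateRow] at hdet
  have hdot : (fun _ : P => (1 : ℚ)) ⬝ᵥ (fun _ : P => (2 / 5 : ℚ)) = 44 / 5 := by
    simp only [dotProduct, one_mul, sum_const, card_univ, hv]
    norm_num
  rw [hdot, hmap, ← RingHom.mapMatrix_apply, ← RingHom.map_det] at hdet
  have hz : (N.det : ℤ) * N.det = 5 ^ 21 * 49 := by
    have : ((N.det * N.det : ℤ) : ℚ) = ((5 ^ 21 * 49 : ℤ) : ℚ) := by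
      rw [Int.cast_mul]
      simp only [eq_intCast] at hdet
      rw [hdet]; norm_num
    exact_mod_cast this
  have hn : N.det.natAbs ^ 2 = 5 ^ 21 * 49 := by
    zify
    rw [sq_abs, sq, hz]
  have hp5 : Fact (Nat.Prime 5) := ⟨by norm_num⟩
  have h2 := congrArg (padicValNat 5) hn
  rw [padicValNat.pow, padicValNat.mul (by norm_num) (by norm_num), padicValNat.prime_pow,
    padicValNat.eq_zero_of_not_dvd (n := 49) (by norm_num)] at h2
  omega

end Pool.Agent.H17
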