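import Mathlib
import Pool.Agent.H17.NonExistence
import Pool.Agent.H17.Incidence

/-!
# Lower bounds for `gap(G_{≥d})` from planes of order `d`
-/

namespace Pool.Agent.H17

open Finset

/-- A plane of order `n ≥ d - 1` gives a graph of the family `G_{≥d}` with gap `√n / (n+1)`. -/
theorem le_gapMinDegree_of_plane {n d : ℕ} (h : PlaneExists n) (hd : 0 < d) (hdn : d ≤ n + 1) :
    √n / (n + 1) ≤ gapMinDegree d := by
  obtain ⟨P, L, mem, hP, hL, hPL, horder⟩ := h
  let _ : Fintype P := Fintype.ofFinite P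
  let _ : Fintype L := Fintype.ofFinite L
  obtain ⟨h1, h2⟩ := plane_gap (P := P) (L := L) n horder
  have h3 : InMinDegree d (incidenceGraph fun (p : P) (l : L) => p ∈ l) :=
    ⟨h2.1, h2.2.1, fun v => by rw [h2.2.2 v]; exact hdn⟩
  exact h1.trans (le_gapMinDegree _ hd h3)

/-- The comparison of the two square roots. -/
theorem sqrt_sub_two_lt {d : ℕ} (hd : 3 ≤ d) :
    √((d : ℝ) - 2) / d < √(d : ℝ) / (d + 1) := by
  have hd' : (3 : ℝ) ≤ d := by exact_mod_cast hd
  rw [div_lt_div_iff₀ (by linarith) (by linarith)]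
  have h1 : √((d : ℝ) - 2) * (d + 1) = √(((d : ℝ) - 2) * (d + 1) ^ 2) := by
    rw [Real.sqrt_mul (by linarith), Real.sqrt_sq (by linarith)]
  have h2 : √(d : ℝ) * d = √((d : ℝ) * d ^ 2) := by
    rw [Real.sqrt_mul (by linarith), Real.sqrt_sq (by linarith)]
  rw [h1, h2]
  apply Real.sqrt_lt_sqrt (mul_nonneg (by linarith) (by positivity))
  nlinarith

/-- Every design incidence graph of the family `G_{≥d}` has gap at most `√(d-2) / d` if there is
no plane of order `d - 1`. -/
theorem gap_le_of_isDesignIncidenceGraph {d : ℕ} (hd : 3 ≤ d) (hno : ¬ PlaneExists (d - 1))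
    {V : Type} [Fintype V] (G : SimpleGraph V) (hG : InMinDegree d G)
    (hdes : IsDesignIncidenceGraph d G) : gap G ≤ √((d : ℝ) - 2) / d := by
  obtain ⟨P, B, hP, hB, I, v, lam, hD, ⟨e⟩⟩ := hdes
  have hiso : gap G = gap (incidenceGraph I) := gap_iso G _ e
  rw [hiso]
  exact design_gap_le hd hno hD (InMinDegree.iso e hG)

/-- There are infinitely many `d` with a plane of order `d` and no plane of order `d - 1`. -/
theorem infinite_orders :
    {d : ℕ | 3 ≤ d ∧ ¬ PlaneExists (d - 1) ∧ PlaneExists d}.Infinite := by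
  have h := Nat.infinite_setOfPred_prime_and_modEq (q := 36) (a := 7) (by norm_num) (by norm_num)
  refine h.mono ?_
  rintro p ⟨hp, hmod⟩
  have hmod' : p % 36 = 7 := hmod
  refine ⟨by omega, ?_, planeExists_prime p hp⟩
  refine not_planeExists (p - 1) 3 (by omega) (by norm_num) (by norm_num) ?_
  have h3 : Fact (Nat.Prime 3) := ⟨by norm_num⟩
  have hval : padicValNat 3 (p - 1) = 1 := by
    obtain ⟨m, hm⟩ : ∃ m, p - 1 = 3 * m := ⟨(p - 1) / 3, by omega⟩
    rw [hm, padicValNat.mul (by norm_num) (by omega), padicValNat_self,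
      padicValNat.eq_zero_of_not_dvd (n := m) (by omega)]
  rw [hval]
  exact odd_one

end Pool.Agent.H17
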