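import Mathlib
import Pool.Agent.H17.ExactH
import Pool.Agent.H17.MinDegree

/-!
# The graph is the incidence graph of a projective plane
-/

namespace Pool.Agent.H17

/-- `G` is the incidence graph of a finite projective plane of order `n`. -/
def IsPlaneIncidenceGraph (n : ℕ) {V : Type} (G : SimpleGraph V) : Prop :=
  ∃ (P L : Type) (_ : Membership P L) (_ : Fintype P) (_ : Fintype L)
    (_ : Configuration.ProjectivePlane P L), Configuration.ProjectivePlane.order P L = n ∧
      Nonempty (G ≃g incidenceGraph fun (p : P) (l : L) => p ∈ l)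

lemma IsPlaneIncidenceGraph.planeExists {n : ℕ} {V : Type} {G : SimpleGraph V}
    (h : IsPlaneIncidenceGraph n G) : PlaneExists n := by
  obtain ⟨P, L, mem, hP, hL, hPL, ho, _⟩ := h
  exact ⟨P, L, mem, inferInstance, inferInstance, hPL, ho⟩

namespace Exact

open Finset Classical

set_option linter.unusedSectionVars false

variable {V : Type} [Fintype V] {G : SimpleGraph V} {d : ℕ}

/-- A form of the friendship theorem. -/
lemma no_friendship [Nonempty V] {n : ℕ} (hn : 2 ≤ n) (hreg : ∀ v, G.degree v = n + 1)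
    (hcn : ∀ u v, u ≠ v → Seven.cn G u v = 1) : False := by
  have hp : Fact (n.minFac).Prime := ⟨Nat.minFac_prime (by omega)⟩
  set p := n.minFac with hpdef
  have hpn : ((n : ℕ) : ZMod p) = 0 := (ZMod.natCast_eq_zero_iff n p).2 (Nat.minFac_dvd n)
  set A : Matrix V V (ZMod p) := G.adjMatrix (ZMod p) with hA
  set J : Matrix V V (ZMod p) := Matrix.of fun _ _ => 1 with hJ
  have h2 : A * A = J := by
    ext u v
    rw [hA, SimpleGraph.adjMatrix_mul_apply]
    have h3 : ∑ w ∈ G.neighborFinset u, G.adjMatrix (ZMod p) w v =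
        ((Seven.cn G u v : ℕ) : ZMod p) := by
      rw [Seven.cn, inter_comm, ← filter_mem_eq_inter, card_filter]
      push_cast
      simp only [SimpleGraph.adjMatrix_apply, SimpleGraph.mem_neighborFinset]
      rw [← sum_filter, ← sum_filter]
      refine sum_congr ?_ fun _ _ => rfl
      ext w
      simp only [mem_filter, SimpleGraph.mem_neighborFinset]
      rw [G.adj_comm w v, and_comm]
    rw [h3, hJ, Matrix.of_apply]
    by_cases huv : u = v
    · subst huv
      rw [Seven.cn, inter_self, SimpleGraph.card_neighborFinset_eq_degree, hreg]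
      push_cast
      rw [hpn, zero_add]
    · rw [hcn u v huv, Nat.cast_one]
  have h3 : A * J = J := by
    ext u v
    rw [hA, SimpleGraph.adjMatrix_mul_apply, hJ]
    simp only [Matrix.of_apply, sum_const, SimpleGraph.card_neighborFinset_eq_degree, hreg]
    rw [nsmul_eq_mul, mul_one]
    push_cast
    rw [hpn, zero_add]
  have h4 : ∀ k, A ^ (k + 2) = J := by
    intro k
    induction k with
    | zero => rw [zero_add, sq, h2]
    | succ k ih => rw [show k + 1 + 2 = (k + 2) + 1 by ring, pow_succ', ih, h3]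
  have h5 : J * J = J := by
    have := h4 2
    rw [show 2 + 2 = 2 * 2 by norm_num, pow_mul, sq, sq, h2] at this
    exact this
  obtain ⟨v⟩ := ‹Nonempty V›
  have h6 : (Fintype.card V : ZMod p) = 1 := by
    have := congrFun (congrFun h5 v) v
    rw [Matrix.mul_apply] at this
    simpa [hJ] using this
  have h7 : Matrix.trace J = 1 := by
    rw [← h6, Matrix.trace]
    simp [hJ]
  have h8 : Matrix.trace (A ^ p) = 0 := by
    rw [ZMod.trace_pow_card, hA, SimpleGraph.trace_adjMatrix, zero_pow hp.out.ne_zero]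
  have h9 : ∀ m, 2 ≤ m → A ^ m = J := by
    intro m hm
    obtain ⟨k, rfl⟩ : ∃ k, m = k + 2 := ⟨m - 2, by omega⟩
    exact h4 k
  rw [h9 p hp.out.two_le, h7] at h8
  exact one_ne_zero h8

namespace Ctx

variable (c : Ctx G d)

include c

/-- the dual transitivity: two lines meeting the same cluster are collinear -/
lemma lines_meet {z l l' x x' : V} (hx : x ∈ cl G d z) (hx' : x' ∈ cl G d z)
    (hl : G.Adj l x) (hl' : G.Adj l' x') (hne : l ≠ l') : ∃ p, G.Adj p l ∧ G.Adj p l' := by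
  have hall := c.mem_Vp_all
  by_cases hxx : x = x'
  · subst hxx
    exact ⟨x, hl.symm, hl'.symm⟩
  · obtain ⟨_, _, _, w, hw, hw'⟩ := c.cl_clq (hall z) x hx x' hx' hxx
    by_cases h1 : l = w
    · subst h1
      exact ⟨x', hw'.symm, hl'.symm⟩
    · by_cases h2 : l' = w
      · subst h2
        exact ⟨x, hl.symm, hw.symm⟩
      · have h3 : l ∈ cl G d w := mem_cl.2 (Or.inr ⟨Ne.symm h1, hall _, hall _, x, hw.symm, hl.symm⟩)
        have h4 : l' ∈ cl G d w :=
          mem_cl.2 (Or.inr ⟨Ne.symm h2, hall _, hall _, x', hw'.symm, hl'.symm⟩)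
        obtain ⟨_, _, _, p, h5, h6⟩ := c.cl_clq (hall w) l h3 l' h4 hne
        exact ⟨p, h5, h6⟩

/-- The structure theorem. -/
theorem structure_thm (hconn : G.Connected) :
    ∃ n, (n = d - 1 ∨ n = d) ∧ IsPlaneIncidenceGraph n G := by
  have hall := c.mem_Vp_all
  have hd := c.hd
  obtain ⟨z⟩ := hconn.nonempty
  set Z := cl G d z with hZ
  have hzZ : z ∈ Z := c.mem_cl_self z
  have hclq : Clq (HG G d) Z := c.cl_clq (hall z)
  have hcard : d ^ 2 ≤ 6 * Z.card := c.cl_card (hall z)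
  have hdd : 2000 * d ≤ d ^ 2 := by rw [sq]; exact Nat.mul_le_mul_right d hd
  have hdeg : ∀ v, G.degree v ≤ d + 1 := fun v => mem_Vp.1 (hall v)
  have hdeg' := c.hdeg
  set L : Finset V := univ.filter (fun y => ∃ x ∈ Z, G.Adj y x) with hL
  have hmemL : ∀ y, y ∈ L ↔ ∃ x ∈ Z, G.Adj y x := by intro y; simp [hL]
  have hLZ : ∀ y ∈ L, ∀ w, G.Adj y w → w ∈ Z := by
    intro y hy w hyw
    obtain ⟨x, hx, hyx⟩ := (hmemL y).1 hy
    exact c.line_sub (hall z) hx hyx hyw (hall w)
  have hZL : ∀ x ∈ Z, ∀ w, G.Adj x w → w ∈ L := by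
    intro x hx w hxw
    exact (hmemL w).2 ⟨x, hx, hxw.symm⟩
  have hcover : ∀ v, v ∈ Z ∨ v ∈ L := by
    intro v
    obtain ⟨p⟩ := hconn.preconnected z v
    have key : ∀ u v : V, G.Walk u v → (u ∈ Z ∨ u ∈ L) → (v ∈ Z ∨ v ∈ L) := by
      intro u v p
      induction p with
      | nil => exact id
      | cons h _ ih =>
        intro h1
        apply ih
        rcases h1 with h1 | h1
        · exact Or.inr (hZL _ h1 _ h)
        · exact Or.inl (hLZ _ h1 _ h)
    exact key z v p (Or.inl hzZ)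
  -- the plane
  let P := {x // x ∈ Z}
  let B := {y // y ∈ L}
  let mem : Membership P B := ⟨fun l p => G.Adj l.1 p.1⟩
  have hmem : ∀ (p : P) (l : B), p ∈ l ↔ G.Adj l.1 p.1 := fun _ _ => Iff.rfl
  have heq : ∀ {p₁ p₂ : P} {l₁ l₂ : B}, p₁ ∈ l₁ → p₂ ∈ l₁ → p₁ ∈ l₂ → p₂ ∈ l₂ →
      p₁ = p₂ ∨ l₁ = l₂ := by
    intro p₁ p₂ l₁ l₂ h1 h2 h3 h4
    by_cases h : p₁ = p₂
    · exact Or.inl h
    · right
      exact Subtype.ext (c.common_unique (fun h' => h (Subtype.ext h')) (hall _) (hall _)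
        h1 h2 h3 h4)
  have hpp : ∀ {p₁ p₂ : P}, p₁ ≠ p₂ → ∃ l : B, p₁ ∈ l ∧ p₂ ∈ l := by
    intro p₁ p₂ hne
    obtain ⟨_, _, _, w, hw, hw'⟩ := hclq p₁.1 p₁.2 p₂.1 p₂.2 (fun h => hne (Subtype.ext h))
    exact ⟨⟨w, (hmemL w).2 ⟨p₁.1, p₁.2, hw⟩⟩, hw, hw'⟩
  have hll : ∀ {l₁ l₂ : B}, l₁ ≠ l₂ → ∃ p : P, p ∈ l₁ ∧ p ∈ l₂ := by
    intro l₁ l₂ hne
    obtain ⟨x, hx, h1⟩ := (hmemL _).1 l₁.2
    obtain ⟨x', hx', h2⟩ := (hmemL _).1 l₂.2
    obtain ⟨p, hp, hp'⟩ := c.lines_meet hx hx' h1 h2 (fun h => hne (Subtype.ext h))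
    exact ⟨⟨p, hLZ _ l₁.2 p hp.symm⟩, hp.symm, hp'.symm⟩
  have hpoint : ∀ l : B, ∃ p : P, p ∉ l := by
    intro l
    by_contra hcon
    push Not at hcon
    have h1 : Z ⊆ G.neighborFinset l.1 := fun x hx => mem_nb.2 (hcon ⟨x, hx⟩)
    have h2 := card_le_card h1
    rw [SimpleGraph.card_neighborFinset_eq_degree] at h2
    have h3 := hdeg l.1
    omega
  -- two lines through each point
  have htwo : ∀ p : P, ∃ l₁ l₂ : B, l₁ ≠ l₂ ∧ p ∈ l₁ ∧ p ∈ l₂ := by
    intro p
    have h1 : 1 < (G.neighborFinset p.1).card := by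
      rw [SimpleGraph.card_neighborFinset_eq_degree]
      have := hdeg' p.1
      omega
    obtain ⟨a, ha, b, hb, hab⟩ := one_lt_card.1 h1
    rw [mem_nb] at ha hb
    exact ⟨⟨a, hZL _ p.2 a ha⟩, ⟨b, hZL _ p.2 b hb⟩, fun h => hab (congrArg Subtype.val h),
      ha.symm, hb.symm⟩
  have hline : ∀ p : P, ∃ l : B, p ∉ l := by
    intro p
    obtain ⟨l, _, _, _, _⟩ := htwo p
    obtain ⟨q, hq⟩ := hpoint l
    obtain ⟨l₁, l₂, h1, h2, h3⟩ := htwo q
    by_cases h4 : p ∈ l₁
    · refine ⟨l₂, fun h5 => ?_⟩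
      rcases heq h4 h2 h5 h3 with h6 | h6
      · subst h6
        exact hq ‹_›
      · exact h1 h6
    · exact ⟨l₁, h4⟩
  have hnd : Configuration.Nondegenerate P B := ⟨hpoint, hline, heq⟩
  have hconf : ∃ (p₁ p₂ p₃ : P) (l₁ l₂ l₃ : B),
      p₁ ∉ l₂ ∧ p₁ ∉ l₃ ∧ p₂ ∉ l₁ ∧ p₂ ∈ l₂ ∧ p₂ ∈ l₃ ∧ p₃ ∉ l₁ ∧ p₃ ∈ l₂ ∧ p₃ ∉ l₃ := by
    obtain ⟨l₁, _, _, _, _⟩ := htwo ⟨z, hzZ⟩
    obtain ⟨p₂, hp₂⟩ := hpoint l₁
    obtain ⟨l₂, l₃, hl23, hl₂, hl₃⟩ := htwo p₂
    have hl12 : l₁ ≠ l₂ := by rintro rfl; exact hp₂ hl₂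
    have h3 : ∃ p₃ : P, p₃ ∈ l₂ ∧ p₃ ≠ p₂ ∧ p₃ ∉ l₁ := by
      have h4 : 2 < (G.neighborFinset l₂.1).card := by
        rw [SimpleGraph.card_neighborFinset_eq_degree]
        have := hdeg' l₂.1
        omega
      have h5 : (G.neighborFinset l₂.1 ∩ G.neighborFinset l₁.1).card ≤ 1 := by
        rw [card_le_one]
        intro a ha b hb
        rw [mem_inter, mem_nb, mem_nb] at ha hb
        by_contra hab
        exact hl12 (Subtype.ext (c.common_unique hab (hall _) (hall _) ha.2 hb.2 ha.1 hb.1))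
      have h6 : 0 < ((G.neighborFinset l₂.1 \ G.neighborFinset l₁.1).erase p₂.1).card := by
        have h7 := card_sdiff_add_card_inter (G.neighborFinset l₂.1) (G.neighborFinset l₁.1)
        have h8 := pred_card_le_card_erase (s := G.neighborFinset l₂.1 \ G.neighborFinset l₁.1)
          (a := p₂.1)
        omega
      obtain ⟨q, hq⟩ := card_pos.1 h6
      rw [mem_erase, mem_sdiff, mem_nb, mem_nb] at hq
      exact ⟨⟨q, hLZ _ l₂.2 q hq.2.1⟩, hq.2.1, fun h => hq.1 (congrArg Subtype.val h), hq.2.2⟩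
    obtain ⟨p₃, h31, h32, h33⟩ := h3
    have h34 : p₃ ∉ l₃ := by
      intro h
      rcases heq h31 hl₂ h hl₃ with h' | h'
      · exact h32 h'
      · exact hl23 h'
    have h4 : ∃ p₁ : P, p₁ ∉ l₂ ∧ p₁ ∉ l₃ := by
      by_contra hcon
      push Not at hcon
      have h5 : Z ⊆ G.neighborFinset l₂.1 ∪ G.neighborFinset l₃.1 := by
        intro x hx
        rw [mem_union, mem_nb, mem_nb]
        by_cases hp : (⟨x, hx⟩ : P) ∈ l₂
        · exact Or.inl hp
        · exact Or.inr (hcon ⟨x, hx⟩ hp)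
      have h6 := (card_le_card h5).trans (card_union_le _ _)
      rw [SimpleGraph.card_neighborFinset_eq_degree, SimpleGraph.card_neighborFinset_eq_degree]
        at h6
      have h7 := hdeg l₂.1
      have h8 := hdeg l₃.1
      omega
    obtain ⟨p₁, h41, h42⟩ := h4
    exact ⟨p₁, p₂, p₃, l₁, l₂, l₃, h41, h42, hp₂, hl₂, hl₃, h33, h31, h34⟩
  let hPP : Configuration.ProjectivePlane P B :=
    { hnd with
      mkPoint := fun h => (hll h).choose
      mkPoint_ax := fun h => (hll h).choose_spec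
      mkLine := fun h => (hpp h).choose
      mkLine_ax := fun h => (hpp h).choose_spec
      exists_config := hconf }
  set n := Configuration.ProjectivePlane.order P B with hn
  have hdegZ : ∀ x ∈ Z, G.degree x = n + 1 := by
    intro x hx
    have h1 := Configuration.ProjectivePlane.lineCount_eq (L := B) (⟨x, hx⟩ : P)
    rw [Configuration.lineCount, Nat.card_eq_fintype_card, Fintype.card_subtype, ← hn] at h1
    rw [← h1, ← SimpleGraph.card_neighborFinset_eq_degree]
    refine (card_bij (fun (l : B) _ => l.1) ?_ ?_ ?_).symm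
    · intro l hl
      rw [mem_filter] at hl
      exact mem_nb.2 (SimpleGraph.Adj.symm (show G.Adj _ _ from hl.2))
    · intro l _ l' _ h
      exact Subtype.ext h
    · intro w hw
      rw [mem_nb] at hw
      exact ⟨⟨w, hZL x hx w hw⟩, mem_filter.2 ⟨mem_univ _, hw.symm⟩, rfl⟩
  have hdegL : ∀ y ∈ L, G.degree y = n + 1 := by
    intro y hy
    have h1 := Configuration.ProjectivePlane.pointCount_eq (P := P) (⟨y, hy⟩ : B)
    rw [Configuration.pointCount, Nat.card_eq_fintype_card, Fintype.card_subtype, ← hn] at h1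
    rw [← h1, ← SimpleGraph.card_neighborFinset_eq_degree]
    refine (card_bij (fun (l : P) _ => l.1) ?_ ?_ ?_).symm
    · intro l hl
      rw [mem_filter] at hl
      exact mem_nb.2 hl.2
    · intro l _ l' _ h
      exact Subtype.ext h
    · intro w hw
      rw [mem_nb] at hw
      exact ⟨⟨w, hLZ y hy w hw⟩, mem_filter.2 ⟨mem_univ _, hw⟩, rfl⟩
  have hreg : ∀ v, G.degree v = n + 1 := by
    intro v
    rcases hcover v with h | h
    · exact hdegZ v h
    · exact hdegL v h
  have hn1 : n = d - 1 ∨ n = d := by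
    have h1 := hreg z
    have h2 := hdeg z
    have h3 := hdeg' z
    omega
  -- disjointness
  have hdisj : ∀ v, v ∈ Z → v ∈ L → False := by
    intro v hvZ hvL
    have h1 : ∀ w, w ∈ cl G d v := by
      intro w
      have hZv : ∀ w ∈ Z, w ∈ cl G d v := by
        intro w hw
        rw [mem_cl]
        by_cases h : w = v
        · exact Or.inl h
        · exact Or.inr (hclq v hvZ w hw (Ne.symm h))
      rcases hcover w with h | h
      · exact hZv w h
      · rw [mem_cl]
        by_cases h2 : w = v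
        · exact Or.inl h2
        · obtain ⟨x, hx, h3⟩ := (hmemL v).1 hvL
          obtain ⟨x', hx', h4⟩ := (hmemL w).1 h
          obtain ⟨p, h5, h6⟩ := c.lines_meet hx hx' h3 h4 (Ne.symm h2)
          exact Or.inr ⟨Ne.symm h2, hall _, hall _, p, h5, h6⟩
    have : Nonempty V := ⟨v⟩
    refine no_friendship (G := G) (n := n) (by omega) hreg ?_
    intro u w huw
    exact c.cn_cl (hall v) (h1 u) (h1 w) huw
  refine ⟨n, hn1, P, B, mem, inferInstance, inferInstance, hPP, rfl, ⟨?_⟩⟩
  exact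
    { toFun := fun v => if h : v ∈ Z then Sum.inl ⟨v, h⟩ else
        Sum.inr ⟨v, (hcover v).resolve_left h⟩
      invFun := Sum.elim (fun p => p.1) (fun l => l.1)
      left_inv := by
        intro v
        by_cases h : v ∈ Z
        · simp only [dif_pos h, Sum.elim_inl]
        · simp only [dif_neg h, Sum.elim_inr]
      right_inv := by
        rintro (p | l)
        · exact dif_pos p.2
        · have h : l.1 ∉ Z := fun h => hdisj _ h l.2
          exact dif_neg h
      map_rel_iff' := by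
        intro v w
        show (incidenceGraph fun (p : P) (l : B) => p ∈ l).Adj
          (if h : v ∈ Z then Sum.inl ⟨v, h⟩ else Sum.inr ⟨v, (hcover v).resolve_left h⟩)
          (if h : w ∈ Z then Sum.inl ⟨w, h⟩ else Sum.inr ⟨w, (hcover w).resolve_left h⟩) ↔
            G.Adj v w
        by_cases hv : v ∈ Z
        · by_cases hw : w ∈ Z
          · rw [dif_pos hv, dif_pos hw]
            refine ⟨fun h => (inc_adj_ll _ _ _ h).elim, fun h => ?_⟩
            exact (hdisj w hw (hZL v hv w h)).elim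
          · rw [dif_pos hv, dif_neg hw, inc_adj_lr]
            exact ⟨fun h => SimpleGraph.Adj.symm (show G.Adj w v from h),
              fun h => SimpleGraph.Adj.symm (show G.Adj v w from h)⟩
        · by_cases hw : w ∈ Z
          · rw [dif_neg hv, dif_pos hw, inc_adj_rl]
            exact Iff.rfl
          · rw [dif_neg hv, dif_neg hw]
            refine ⟨fun h => (inc_adj_rr _ _ _ h).elim, fun h => ?_⟩
            exact (hw (hLZ v ((hcover v).resolve_left hv) w h)).elim }

end Ctx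

end Exact

end Pool.Agent.H17
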