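import Mathlib
import Pool.Agent.H17.ExactI

/-!
# The exact value of `gap(G_{≥d})`
-/

namespace Pool.Agent.H17

open Finset Classical

set_option linter.unusedSectionVars false

variable {V : Type} [Fintype V] {G : SimpleGraph V} {d : ℕ}

/-- The weak form of the variational inequality. -/
lemma quad_of_le_gap (hpos : ∀ v, 0 < G.degree v) {γ : ℝ} (hγ : 0 ≤ γ) (hle : γ ≤ gap G)
    (f : V → ℝ) :
    γ ^ 2 * ∑ v, (G.degree v : ℝ) * f v ^ 2 ≤
      ∑ v, (1 / (G.degree v : ℝ)) * (∑ w ∈ G.neighborFinset v, f w) ^ 2 := by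
  by_cases hf : f = 0
  · subst hf; simp
  by_contra hcon
  push Not at hcon
  set A := ∑ v, (G.degree v : ℝ) * f v ^ 2 with hA
  set B := ∑ v, (1 / (G.degree v : ℝ)) * (∑ w ∈ G.neighborFinset v, f w) ^ 2 with hB
  have hB0 : 0 ≤ B := sum_nonneg fun v _ => by positivity
  have hA0 : 0 ≤ A := sum_nonneg fun v _ => by positivity
  have hApos : 0 < A := by
    rcases hA0.lt_or_eq with h | h
    · exact h
    · rw [← h, mul_zero] at hcon; linarith
  set γ' := √((B + γ ^ 2 * A) / (2 * A)) with hγ'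
  have h1 : γ' ^ 2 = (B + γ ^ 2 * A) / (2 * A) := Real.sq_sqrt (by positivity)
  have h2 : γ' ^ 2 < γ ^ 2 := by
    rw [h1, div_lt_iff₀ (by positivity)]
    linarith
  have h3 : γ' < γ := lt_of_pow_lt_pow_left₀ 2 hγ h2
  have h4 := quad_of_lt_gap G hpos (γ := γ') (Real.sqrt_nonneg _) (h3.trans_le hle) f hf
  rw [← hA, ← hB, h1] at h4
  have h5 : (B + γ ^ 2 * A) / (2 * A) * A = (B + γ ^ 2 * A) / 2 := by
    field_simp
  rw [h5] at h4
  linarith

lemma ctx_of_gap (hd : 2000 ≤ d) (hG : InMinDegree d G) (hgap : √(d : ℝ) / (d + 1) ≤ gap G) :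
    Exact.Ctx G d := by
  refine ⟨hd, hG.2.2, fun f => ?_⟩
  have h1 := quad_of_le_gap (fun v => InMinDegree.pos G (by omega) hG v) (by positivity) hgap f
  rw [div_pow, Real.sq_sqrt (by positivity)] at h1
  have hd' : (0 : ℝ) < (d + 1) ^ 2 := by positivity
  have h2 : Exact.Q G d f = (d + 1) ^ 2 *
      (∑ v, (1 / (G.degree v : ℝ)) * (∑ w ∈ G.neighborFinset v, f w) ^ 2 -
        d / (d + 1) ^ 2 * ∑ v, (G.degree v : ℝ) * f v ^ 2) := by
    have e1 : ∑ y, Exact.W G d y * (Exact.nb G f y) ^ 2 = (d + 1) ^ 2 *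
        ∑ v, (1 / (G.degree v : ℝ)) * (∑ w ∈ G.neighborFinset v, f w) ^ 2 := by
      rw [mul_sum]
      refine sum_congr rfl fun y _ => ?_
      rw [Exact.W, Exact.nb]
      ring
    rw [Exact.Q, e1]
    field_simp
  rw [h2]
  exact mul_nonneg hd'.le (by linarith)

/-- The gap of the incidence graph of a projective plane. -/
lemma plane_gap_le {P L : Type} [Membership P L] [Fintype P] [Fintype L]
    [Configuration.ProjectivePlane P L] (n : ℕ)
    (hn : Configuration.ProjectivePlane.order P L = n) :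
    gap (incidenceGraph fun (p : P) (l : L) => p ∈ l) ≤ √n / (n + 1) := by
  have h1 : 1 < n := by
    rw [← hn]; exact Configuration.ProjectivePlane.one_lt_order P L
  have hdes : IsDesign (Fintype.card P) (n + 1) 1 (fun (p : P) (l : L) => p ∈ l) := by
    refine ⟨rfl, ?_, ?_⟩
    · intro l
      have := Configuration.ProjectivePlane.pointCount_eq (P := P) l
      rw [hn, Configuration.pointCount, Nat.card_eq_fintype_card, Fintype.card_subtype] at this
      exact this
    · intro p q hpq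
      rw [card_eq_one]
      refine ⟨Configuration.HasLines.mkLine hpq, ?_⟩
      have hax := Configuration.HasLines.mkLine_ax (L := L) hpq
      ext l
      simp only [mem_filter, mem_univ, true_and, mem_singleton]
      constructor
      · intro h
        exact (Configuration.Nondegenerate.eq_or_eq h.1 h.2 hax.1 hax.2).resolve_left hpq
      · rintro rfl; exact hax
  have hreg := (plane_gap (P := P) (L := L) n hn).2
  have hG : InMinDegree (n + 1) (incidenceGraph fun (p : P) (l : L) => p ∈ l) :=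
    ⟨hreg.1, hreg.2.1, fun v => (hreg.2.2 v).ge⟩
  rcases design_main (by omega) hdes hG with h | h
  · exact h.trans (by positivity)
  · have h2 := h.2.2.2.2.2.2
    push_cast at h2
    have h3 : (n : ℝ) + 1 - 1 = n := by ring
    rw [h3] at h2
    exact h2

lemma IsPlaneIncidenceGraph.gap_eq {n : ℕ} (h : IsPlaneIncidenceGraph n G) :
    gap G = √n / (n + 1) := by
  obtain ⟨P, L, mem, hP, hL, hPL, ho, ⟨e⟩⟩ := h
  rw [gap_iso G _ e]
  exact le_antisymm (plane_gap_le n ho) (plane_gap (P := P) (L := L) n ho).1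

lemma IsPlaneIncidenceGraph.inMinDegree {n : ℕ} (h : IsPlaneIncidenceGraph n G) :
    InMinDegree (n + 1) G := by
  obtain ⟨P, L, mem, hP, hL, hPL, ho, ⟨e⟩⟩ := h
  exact InMinDegree.iso e.symm (InRegular.inMinDegree _ (plane_gap (P := P) (L := L) n ho).2)

lemma sqrt_mono_planes {d : ℕ} (hd : 2 ≤ d) :
    √(d : ℝ) / (d + 1) ≤ √((d - 1 : ℕ) : ℝ) / ((d - 1 : ℕ) + 1) := by
  have hd' : (2 : ℝ) ≤ d := by exact_mod_cast hd
  rw [Nat.cast_sub (by omega), Nat.cast_one, sub_add_cancel,
    div_le_div_iff₀ (by linarith) (by linarith)]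
  have h1 : √((d : ℝ) - 1) * (d + 1) = √(((d : ℝ) - 1) * (d + 1) ^ 2) := by
    rw [Real.sqrt_mul (by linarith), Real.sqrt_sq (by linarith)]
  have h2 : √(d : ℝ) * d = √((d : ℝ) * d ^ 2) := by
    rw [Real.sqrt_mul (by linarith), Real.sqrt_sq (by linarith)]
  rw [h1, h2]
  apply Real.sqrt_le_sqrt
  nlinarith

/-- Rigidity of graphs with large gap. -/
theorem rigidity (hd : 2000 ≤ d) (hG : InMinDegree d G) :
    √(d : ℝ) / (d + 1) ≤ gap G ↔
      IsPlaneIncidenceGraph (d - 1) G ∨ IsPlaneIncidenceGraph d G := by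
  constructor
  · intro h
    obtain ⟨n, hn | hn, h2⟩ := (ctx_of_gap hd hG h).structure_thm hG.2.1
    · subst hn; exact Or.inl h2
    · subst hn; exact Or.inr h2
  · rintro (h | h)
    · rw [h.gap_eq]; exact sqrt_mono_planes (by omega)
    · rw [h.gap_eq]

theorem gap_le_of_no_plane (hd : 2000 ≤ d) (hno : ¬ PlaneExists (d - 1)) (hG : InMinDegree d G) :
    gap G ≤ √(d : ℝ) / (d + 1) := by
  by_contra hcon
  push Not at hcon
  rcases (rigidity hd hG).1 hcon.le with h | h
  · exact hno h.planeExists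
  · rw [h.gap_eq] at hcon
    exact lt_irrefl _ hcon

theorem gap_eq_iff_of_no_plane (hd : 2000 ≤ d) (hno : ¬ PlaneExists (d - 1))
    (hG : InMinDegree d G) :
    gap G = √(d : ℝ) / (d + 1) ↔ IsPlaneIncidenceGraph d G := by
  constructor
  · intro h
    rcases (rigidity hd hG).1 h.ge with h | h
    · exact (hno h.planeExists).elim
    · exact h
  · intro h
    exact h.gap_eq

theorem gapMinDegree_le (hd : 2000 ≤ d) (hno : ¬ PlaneExists (d - 1)) :
    gapMinDegree d ≤ √(d : ℝ) / (d + 1) := by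
  refine Real.sSup_le ?_ (by positivity)
  rintro g ⟨V, _, G, hG, rfl⟩
  exact gap_le_of_no_plane hd hno hG

theorem gapMinDegree_eq (hd : 2000 ≤ d) (hno : ¬ PlaneExists (d - 1)) (hyes : PlaneExists d) :
    gapMinDegree d = √(d : ℝ) / (d + 1) :=
  le_antisymm (gapMinDegree_le hd hno) (le_gapMinDegree_of_plane hyes (by omega) (by omega))

theorem infinite_orders_large :
    {d : ℕ | 2000 ≤ d ∧ ¬ PlaneExists (d - 1) ∧ PlaneExists d}.Infinite := by
  have h1 := infinite_orders.sdiff (Set.finite_lt_nat 2000)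
  refine h1.mono ?_
  rintro d ⟨⟨_, h2, h3⟩, h4⟩
  exact ⟨not_lt.1 h4, h2, h3⟩

end Pool.Agent.H17
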