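import Mathlib
import Pool.Agent.H17.Incidence

/-!
# A `7`-regular graph on `66` vertices with gap `√5 / 7`

It is the incidence graph of the divisible design developed from the divisible difference set
`{(0,1),(0,3),(0,4),(0,5),(0,9),(1,0),(2,0)}` in `ZMod 3 × ZMod 11`.
-/

namespace Pool.Agent.H17.Ex

open Finset

abbrev H := ZMod 3 × ZMod 11

/-- the divisible difference set -/
def D : Finset H := {(0, 1), (0, 3), (0, 4), (0, 5), (0, 9), (1, 0), (2, 0)}

/-- incidence -/
def I (x y : H) : Prop := x - y ∈ D

lemma diff_count : ∀ d : H, (univ.filter fun s : H => s ∈ D ∧ s + d ∈ D).card =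
    (if d = 0 then 5 else 0) + (if d.1 = 0 then 1 else 0) + 1 := by
  decide +kernel

open Classical

lemma pair_points (x x' : H) : (univ.filter fun y : H => I x y ∧ I x' y).card =
    (if x = x' then 5 else 0) + (if x.1 = x'.1 then 1 else 0) + 1 := by
  have h := diff_count (x' - x)
  have h1 : (univ.filter fun y : H => I x y ∧ I x' y).card =
      (univ.filter fun s : H => s ∈ D ∧ s + (x' - x) ∈ D).card := by
    apply card_bij (fun y _ => x - y)
    · intro y hy
      have hy' : x - y ∈ D ∧ x' - y ∈ D := (mem_filter.1 hy).2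
      refine mem_filter.2 ⟨mem_univ _, hy'.1, ?_⟩
      have : x - y + (x' - x) = x' - y := by abel
      rw [this]; exact hy'.2
    · intro y _ y' _ hyy
      exact sub_right_injective hyy
    · intro s hs
      have hs' : s ∈ D ∧ s + (x' - x) ∈ D := (mem_filter.1 hs).2
      refine ⟨x - s, mem_filter.2 ⟨mem_univ _, ?_, ?_⟩, by abel⟩
      · have : x - (x - s) = s := by abel
        show x - (x - s) ∈ D
        rw [this]; exact hs'.1
      · have : x' - (x - s) = s + (x' - x) := by abel
        show x' - (x - s) ∈ D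
        rw [this]; exact hs'.2
  rw [h1, h]
  have e1 : (x' - x = 0) ↔ (x = x') := by rw [sub_eq_zero]; exact eq_comm
  have e2 : ((x' - x).1 = 0) ↔ (x.1 = x'.1) := by
    rw [Prod.fst_sub, sub_eq_zero]; exact eq_comm
  simp only [e1, e2]

lemma pair_lines (y y' : H) : (univ.filter fun x : H => I x y ∧ I x y').card =
    (if y = y' then 5 else 0) + (if y.1 = y'.1 then 1 else 0) + 1 := by
  have h := diff_count (y - y')
  have h1 : (univ.filter fun x : H => I x y ∧ I x y').card =
      (univ.filter fun s : H => s ∈ D ∧ s + (y - y') ∈ D).card := by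
    apply card_bij (fun x _ => x - y)
    · intro x hx
      have hx' : x - y ∈ D ∧ x - y' ∈ D := (mem_filter.1 hx).2
      refine mem_filter.2 ⟨mem_univ _, hx'.1, ?_⟩
      have : x - y + (y - y') = x - y' := by abel
      rw [this]; exact hx'.2
    · intro x _ x' _ hxx
      exact sub_left_injective hxx
    · intro s hs
      have hs' : s ∈ D ∧ s + (y - y') ∈ D := (mem_filter.1 hs).2
      refine ⟨s + y, mem_filter.2 ⟨mem_univ _, ?_, ?_⟩, by abel⟩
      · have : s + y - y = s := by abel
        show s + y - y ∈ D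
        rw [this]; exact hs'.1
      · have : s + y - y' = s + (y - y') := by abel
        show s + y - y' ∈ D
        rw [this]; exact hs'.2
  rw [h1, h]
  have e1 : (y - y' = 0) ↔ (y = y') := sub_eq_zero
  have e2 : ((y - y').1 = 0) ↔ (y.1 = y'.1) := by
    rw [Prod.fst_sub, sub_eq_zero]
  simp only [e1, e2]

lemma quad_eq (f : H → ℝ) (m : H → H → ℕ)
    (hm : ∀ x y, m x y = (if x = y then 5 else 0) + (if x.1 = y.1 then 1 else 0) + 1) :
    5 * ∑ x, f x ^ 2 ≤ ∑ x, ∑ y, f x * f y * (m x y : ℝ) := by
  have h1 : ∀ x y, f x * f y * (m x y : ℝ) = (if x = y then 5 * f x ^ 2 else 0) +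
      (if x.1 = y.1 then f x * f y else 0) + f x * f y := by
    intro x y
    rw [hm]
    by_cases hxy : x = y
    · subst hxy; simp; ring
    · by_cases h2 : x.1 = y.1
      · simp only [hxy, h2, if_false, if_true]; push_cast; ring
      · simp only [hxy, h2, if_false]; push_cast; ring
  simp only [h1, sum_add_distrib]
  have h2 : ∑ x, ∑ y, (if x = y then 5 * f x ^ 2 else 0) = 5 * ∑ x, f x ^ 2 := by
    simp only [sum_ite_eq, mem_univ, if_true, mul_sum]
  have h3 : ∑ x : H, ∑ y : H, (if x.1 = y.1 then f x * f y else 0) =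
      ∑ c : ZMod 3, (∑ k : ZMod 11, f (c, k)) ^ 2 := by
    rw [Fintype.sum_prod_type]
    refine sum_congr rfl fun c _ => ?_
    rw [sq, sum_mul_sum]
    refine sum_congr rfl fun k _ => ?_
    rw [Fintype.sum_prod_type, sum_eq_single c]
    · simp
    · intro c' _ hc'
      simp [Ne.symm hc']
    · simp
  have h4 : ∑ x, ∑ y, f x * f y = (∑ x, f x) ^ 2 := by rw [sq, sum_mul_sum]
  rw [h2, h3, h4]
  have h5 : 0 ≤ ∑ c : ZMod 3, (∑ k : ZMod 11, f (c, k)) ^ 2 := sum_nonneg fun _ _ => sq_nonneg _
  have h6 : 0 ≤ (∑ x, f x) ^ 2 := sq_nonneg _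
  linarith

lemma degP (x : H) : (univ.filter fun y : H => I x y).card = 7 := by
  have := pair_points x x
  simpa using this

lemma degB (y : H) : (univ.filter fun x : H => I x y).card = 7 := by
  have := pair_lines y y
  simpa using this

theorem gap_ge : √5 / 7 ≤ gap (incidenceGraph I) := by
  have := le_gap_incidence I 7 (by norm_num) degP degB 5 (by norm_num) ?_ ?_
  · exact_mod_cast this
  · intro f
    rw [inc_quad]
    exact quad_eq f _ pair_points
  · intro f
    have h := inc_quad (fun y x => I x y) f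
    rw [h]
    exact quad_eq f _ pair_lines

theorem mem_regular : InRegular 7 (incidenceGraph I) := by
  have hconn : ∀ p q : H, (incidenceGraph I).Reachable (Sum.inl p) (Sum.inl q) := by
    intro p q
    have h1 : 0 < (univ.filter fun y : H => I p y ∧ I q y).card := by
      rw [pair_points]; omega
    obtain ⟨y, hy⟩ := card_pos.1 h1
    have hy' := (mem_filter.1 hy).2
    have a1 : (incidenceGraph I).Adj (Sum.inl p) (Sum.inr y) := hy'.1
    have a2 : (incidenceGraph I).Adj (Sum.inr y) (Sum.inl q) := hy'.2
    exact a1.reachable.trans a2.reachable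
  have hline : ∀ l : H, ∃ p : H, (incidenceGraph I).Reachable (Sum.inr l) (Sum.inl p) := by
    intro l
    have : 0 < (univ.filter fun p : H => I p l).card := by rw [degB]; omega
    obtain ⟨p, hp⟩ := card_pos.1 this
    have a1 : (incidenceGraph I).Adj (Sum.inr l) (Sum.inl p) := (mem_filter.1 hp).2
    exact ⟨p, a1.reachable⟩
  refine ⟨?_, ?_, ?_⟩
  · rw [Fintype.card_sum]
    have : Fintype.card H = 33 := by decide
    rw [this]; norm_num
  · have : Nonempty (H ⊕ H) := ⟨Sum.inl 0⟩
    refine SimpleGraph.Connected.mk ?_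
    rintro (p | l) (q | m)
    · exact hconn p q
    · obtain ⟨q, hq⟩ := hline m
      exact (hconn p q).trans hq.symm
    · obtain ⟨p, hp⟩ := hline l
      exact hp.trans (hconn p q)
    · obtain ⟨p, hp⟩ := hline l
      obtain ⟨q, hq⟩ := hline m
      exact hp.trans ((hconn p q).trans hq.symm)
  · rintro (p | l)
    · rw [inc_degree_inl]; exact degP p
    · rw [inc_degree_inr]; exact degB l

end Pool.Agent.H17.Ex
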