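import Mathlib
import Pool.Agent.H17.Families
import Pool.Agent.H17.Seven

/-!
# Upper bound for the gap of connected `7`-regular graphs
-/

namespace Pool.Agent.H17

open Finset Classical

/-- Every `7`-regular graph has gap at most `√5 / 7`. -/
theorem gap_le_of_regular_seven {V : Type} [Fintype V] (G : SimpleGraph V) (h : InRegular 7 G) :
    gap G ≤ √5 / 7 := by
  by_contra hcon
  push Not at hcon
  obtain ⟨v₀⟩ := h.2.1.nonempty
  have hreg : ∀ v, G.degree v = 7 := h.2.2
  have hpos : ∀ v, 0 < G.degree v := fun v => by rw [hreg]; norm_num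
  refine Seven.not_posDef G hreg ?_ v₀
  intro f hf
  rw [Seven.B_self]
  set F : V → ℝ := fun v => (f v : ℝ) with hF
  have hF0 : F ≠ 0 := by
    intro h0
    apply hf
    funext v
    have := congrFun h0 v
    simpa [hF] using this
  have key := quad_of_lt_gap G hpos (γ := √5 / 7) (by positivity) hcon F hF0
  simp only [hreg] at key
  rw [div_pow, Real.sq_sqrt (by norm_num), ← mul_sum, ← mul_sum] at key
  have h1 : (5 : ℝ) * ∑ v, F v ^ 2 < ∑ v, (∑ w ∈ G.neighborFinset v, F w) ^ 2 := by
    push_cast at key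
    linarith
  have h2 : ((5 * ∑ v, f v ^ 2 : ℤ) : ℝ) < ((∑ v, (∑ w ∈ G.neighborFinset v, f w) ^ 2 : ℤ) : ℝ) := by
    push_cast
    exact h1
  have h3 : (5 * ∑ v, f v ^ 2 : ℤ) < ∑ v, (∑ w ∈ G.neighborFinset v, f w) ^ 2 := by
    exact_mod_cast h2
  linarith

end Pool.Agent.H17
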